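import Pool.Agent.P.MP_f1060b_co.Defs

-- part Pool.Agent.P.MP_f1060b_co.Comb
section

namespace Pool.Agent.StackSort

/-- What is written before the final flush. -/
def outp : List ℕ → List ℕ → List ℕ
  | _, [] => []
  | st, x :: xs => st.takeWhile (· < x) ++ outp (x :: st.dropWhile (· < x)) xs

theorem outp_realize : True := by have := @outp.eq_def; trivial

/-- The stack before the final flush. -/
def stk : List ℕ → List ℕ → List ℕ
  | st, [] => st
  | st, x :: xs => stk (x :: st.dropWhile (· < x)) xs

theorem stk_realize : True := by have := @stk.eq_def; trivial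

lemma pass_append (xs ys : List ℕ) : ∀ st, pass st (xs ++ ys) = outp st xs ++ pass (stk st xs) ys := by
  induction xs with
  | nil => intro st; simp [outp, stk]
  | cons x xs ih => intro st; simp [pass, outp, stk, ih]

lemma pass_eq (st xs : List ℕ) : pass st xs = outp st xs ++ stk st xs := by
  have := pass_append xs [] st
  simpa [pass] using this

lemma stk_append (xs ys : List ℕ) : ∀ st, stk st (xs ++ ys) = stk (stk st xs) ys := by
  induction xs with
  | nil => intro st; simp [stk]
  | cons x xs ih => intro st; simp [stk, ih]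

lemma pass_perm (xs : List ℕ) : ∀ st, (pass st xs).Perm (st ++ xs) := by
  induction xs with
  | nil => intro st; simp [pass]
  | cons x xs ih =>
    intro st
    rw [pass]
    refine ((ih _).append_left _).trans ?_
    conv_rhs => rw [← List.takeWhile_append_dropWhile (p := (· < x)) (l := st)]
    rw [List.append_assoc]
    exact (List.perm_middle.symm).append_left _

lemma stackSort_perm (l : List ℕ) : (stackSort l).Perm l := by
  simpa [stackSort] using pass_perm l []

lemma iter_perm (l : List ℕ) (j : ℕ) : (stackSort^[j] l).Perm l := by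
  induction j with
  | zero => simp
  | succ j ih => rw [Function.iterate_succ_apply']; exact (stackSort_perm _).trans ih

lemma take_eq {st : List ℕ} (h : st.Pairwise (· ≤ ·)) (x : ℕ) :
    st.takeWhile (· < x) = st.filter (· < x) ∧ st.dropWhile (· < x) = st.filter (x ≤ ·) := by
  induction st with
  | nil => simp
  | cons y st ih =>
    rw [List.pairwise_cons] at h
    obtain ⟨h1, h2⟩ := ih h.2
    by_cases hy : y < x
    · simp [List.takeWhile_cons, List.dropWhile_cons, List.filter_cons, hy, h1, h2, not_le.2 hy]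
    · have hx : x ≤ y := not_lt.1 hy
      simp only [List.takeWhile_cons, List.dropWhile_cons, List.filter_cons, hy, hx, decide_false,
        decide_true, if_true, Bool.false_eq_true, if_false]
      refine ⟨(List.filter_eq_nil_iff.2 fun z hz => ?_).symm, ?_⟩
      · have := h.1 z hz; simp; omega
      · rw [List.filter_eq_self.2 fun z hz => ?_]
        have := h.1 z hz; simp; omega

lemma push_sorted {st : List ℕ} (h : st.Pairwise (· ≤ ·)) (x : ℕ) :
    (x :: st.dropWhile (· < x)).Pairwise (· ≤ ·) := by
  rw [(take_eq h x).2, List.pairwise_cons]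
  exact ⟨fun z hz => by simpa using (List.mem_filter.1 hz).2, h.filter _⟩

lemma stk_sorted (xs : List ℕ) : ∀ st : List ℕ, st.Pairwise (· ≤ ·) → (stk st xs).Pairwise (· ≤ ·) := by
  induction xs with
  | nil => intro st h; exact h
  | cons x xs ih => intro st h; exact ih _ (push_sorted h x)

lemma filter_pass (w : ℕ) (xs : List ℕ) : ∀ st : List ℕ, st.Pairwise (· ≤ ·) →
    (pass st xs).filter (w ≤ ·) = pass (st.filter (w ≤ ·)) (xs.filter (w ≤ ·)) := by
  induction xs with
  | nil => intro st _; simp [pass]
  | cons x xs ih =>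
    intro st h
    rw [pass, List.filter_append, ih _ (push_sorted h x), (take_eq h x).1, (take_eq h x).2]
    by_cases hx : w ≤ x
    · rw [List.filter_cons_of_pos (by simpa using hx), List.filter_cons_of_pos (by simpa using hx),
        pass, (take_eq (h.filter _) x).1, (take_eq (h.filter _) x).2]
      simp only [List.filter_filter, Bool.and_comm]
    · rw [List.filter_cons_of_neg (by simpa using hx), List.filter_cons_of_neg (by simpa using hx)]
      simp only [List.filter_filter]
      rw [List.filter_eq_nil_iff.2 fun z _ => by simp; omega, List.nil_append]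
      congr 1
      exact List.filter_congr fun z _ => by
        by_cases hz : w ≤ z
        · have : x ≤ z := by omega
          simp [hz, this]
        · simp [hz]

/-- Reading an increasing run leaves its last letter on top of the larger old letters. -/
lemma stk_run (r : List ℕ) : ∀ (y : ℕ) (st : List ℕ), (r ++ [y]).Pairwise (· < ·) →
    st.Pairwise (· ≤ ·) → stk st (r ++ [y]) = y :: st.filter (y ≤ ·) := by
  induction r with
  | nil => intro y st _ h; simp [stk, (take_eq h y).2]
  | cons z r ih =>
    intro y st hr h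
    rw [List.cons_append, List.pairwise_cons] at hr
    have hz : z < y := hr.1 y (by simp)
    rw [List.cons_append, stk, ih y _ hr.2 (push_sorted h z), (take_eq h z).2,
      List.filter_cons_of_neg (by simpa using hz), List.filter_filter]
    congr 1
    exact List.filter_congr fun a _ => by
      by_cases ha : y ≤ a
      · have : z ≤ a := by omega
        simp [ha, this]
      · simp [ha]

lemma two_machines (xs : List ℕ) : ∀ s1 s2 : List ℕ, s1.Pairwise (· ≤ ·) → (s1 ++ xs).Nodup →
    s2.Pairwise (· ≤ ·) → (∀ v, s2.countP (v ≤ ·) ≤ s1.countP (v < ·)) →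
    ∀ v, (stk s2 (outp s1 xs)).countP (v ≤ ·) ≤ (stk s1 xs).countP (v < ·) := by
  induction xs with
  | nil => intro s1 s2 _ _ _ h; simpa [outp, stk] using h
  | cons x xs ih =>
    intro s1 s2 h1 hn h2 h
    rw [outp, stk, stk_append]
    have hn' : ((x :: s1.dropWhile (· < x)) ++ xs).Nodup := by
      have := (List.perm_middle.nodup_iff).1 hn
      exact this.sublist (List.Sublist.cons_cons _
        ((List.dropWhile_sublist _).append_right _))
    refine ih _ _ (push_sorted h1 x) hn' (stk_sorted _ _ h2) fun v => ?_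
    have hs1 : s1.Pairwise (· < ·) :=
      (h1.and (List.nodup_append.1 hn).1).imp fun h => lt_of_le_of_ne h.1 h.2
    rcases List.eq_nil_or_concat' (s1.takeWhile (· < x)) with h0 | ⟨r, y, h0⟩
    · have : s1.dropWhile (· < x) = s1 := by
        have := List.takeWhile_append_dropWhile (p := (· < x)) (l := s1)
        rwa [h0, List.nil_append] at this
      rw [h0, this, stk, List.countP_cons]
      exact (h v).trans (Nat.le_add_right _ _)
    · have hp : (r ++ [y]).Pairwise (· < ·) := h0 ▸ hs1.sublist (List.takeWhile_sublist _)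
      have hy : y < x := by
        have : y ∈ s1.takeWhile (· < x) := by rw [h0]; simp
        simpa using List.mem_takeWhile_imp this
      have hsplit : s1 = (r ++ [y]) ++ s1.dropWhile (· < x) := by
        rw [← h0, List.takeWhile_append_dropWhile]
      have hz : ∀ u, y ≤ u → s1.countP (u < ·) = (s1.dropWhile (· < x)).countP (u < ·) := by
        intro u hu
        conv_lhs => rw [hsplit]
        rw [List.countP_append, List.countP_eq_zero.2, zero_add]
        intro a ha
        rcases List.mem_append.1 ha with ha | ha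
        · have := (List.pairwise_append.1 hp).2.2 a ha y (by simp)
          simp; omega
        · simp at ha ⊢; omega
      rw [h0, stk_run r y s2 hp h2, List.countP_cons, List.countP_cons, List.countP_filter]
      by_cases hv : v ≤ y
      · have e1 : s2.countP (fun a => decide (v ≤ a) && decide (y ≤ a)) ≤ s2.countP (y ≤ ·) :=
          List.countP_mono_left fun a _ ha => by simp at ha ⊢; omega
        have e2 : (s1.dropWhile (· < x)).countP (y < ·) ≤ (s1.dropWhile (· < x)).countP (v < ·) :=
          List.countP_mono_left fun a _ ha => by simp at ha ⊢; omega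
        have e3 := h y
        rw [hz y le_rfl] at e3
        have : v < x := by omega
        simp only [hv, this, decide_true, if_true]
        omega
      · have e1 : s2.countP (fun a => decide (v ≤ a) && decide (y ≤ a)) ≤ s2.countP (v ≤ ·) :=
          List.countP_mono_left fun a _ ha => by simp at ha ⊢; omega
        have e3 := h v
        rw [hz v (by omega)] at e3
        simp only [hv, decide_false, Bool.false_eq_true, if_false]
        omega

lemma stk_outp_le {a : List ℕ} (ha : a.Nodup) : (stk [] (outp [] a)).length ≤ (stk [] a).length := by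
  have := two_machines a [] [] List.Pairwise.nil (by simpa using ha) List.Pairwise.nil (by simp) 0
  simp only [Nat.zero_le, decide_true, List.countP_true] at this
  exact this.trans List.countP_le_length

lemma stk_ne_nil (xs : List ℕ) : ∀ st, st ≠ [] ∨ xs ≠ [] → stk st xs ≠ [] := by
  induction xs with
  | nil => intro st h; simpa [stk] using h
  | cons x xs ih => intro st _; exact ih _ (Or.inl (by simp))

lemma length_outp (a : List ℕ) : (outp [] a).length + (stk [] a).length = a.length := by
  have := (pass_perm a []).length_eq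
  rw [pass_eq] at this
  simpa using this

/-- The letters larger than `w` that stand to the left of `w`. -/
def LL (w : ℕ) (l : List ℕ) : List ℕ := (l.filter (w ≤ ·)).takeWhile (· ≠ w)

lemma takeWhile_ne {w : ℕ} {a : List ℕ} (b : List ℕ) (ha : w ∉ a) :
    (a ++ w :: b).takeWhile (· ≠ w) = a := by
  rw [List.takeWhile_append_of_pos]
  · simp
  · intro x hx
    have : x ≠ w := fun h => ha (h ▸ hx)
    simpa using this

lemma LL_split {w : ℕ} {a : List ℕ} (b : List ℕ) (ha : w ∉ a) :
    LL w (a ++ w :: b) = a.filter (w ≤ ·) := by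
  rw [LL, List.filter_append, List.filter_cons_of_pos (by simp), takeWhile_ne]
  exact fun h => ha (List.mem_filter.1 h).1

lemma LL_stackSort {w : ℕ} {l : List ℕ} (hl : l.Nodup) (hw : w ∈ l) :
    LL w (stackSort l) = outp [] (LL w l) := by
  obtain ⟨a, b, rfl⟩ := List.append_of_mem hw
  have hn := List.nodup_middle.1 hl
  have hwa : w ∉ a := fun h => (List.nodup_cons.1 hn).1 (List.mem_append_left _ h)
  have hwb : w ∉ b := fun h => (List.nodup_cons.1 hn).1 (List.mem_append_right _ h)
  rw [LL_split b hwa, LL, stackSort, filter_pass w _ [] List.Pairwise.nil, List.filter_nil,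
    List.filter_append, List.filter_cons_of_pos (by simp), pass_append, pass]
  set a' := a.filter (w ≤ ·) with ha'
  have hmem : ∀ x ∈ pass [] a', w < x := by
    intro x hx
    have h1 : x ∈ a' := by simpa using (pass_perm a' []).subset hx
    have h2 := List.mem_filter.1 h1
    have h3 : x ≠ w := fun h => hwa (h ▸ h2.1)
    have h4 : w ≤ x := by simpa using h2.2
    omega
  rw [pass_eq] at hmem
  have hs := take_eq (stk_sorted a' [] List.Pairwise.nil) w
  rw [hs.1, List.filter_eq_nil_iff.2, List.nil_append]
  · have : ∃ c, pass (w :: (stk [] a').dropWhile (· < w)) (b.filter (w ≤ ·)) = w :: c := by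
      rcases hb : b.filter (w ≤ ·) with _ | ⟨y, b'⟩
      · exact ⟨_, rfl⟩
      · have h1 : y ∈ b.filter (w ≤ ·) := by rw [hb]; simp
        have h2 := List.mem_filter.1 h1
        have h3 : y ≠ w := fun h => hwb (h ▸ h2.1)
        have h4 : w ≤ y := by simpa using h2.2
        have h5 : w < y := by omega
        rw [pass, List.takeWhile_cons_of_pos (by simpa using h5)]
        exact ⟨_, rfl⟩
    obtain ⟨c, hc⟩ := this
    rw [hc, takeWhile_ne]
    exact fun h => lt_irrefl _ (hmem w (List.mem_append_left _ h))
  · intro x hx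
    have := hmem x (List.mem_append_right _ hx)
    simp; omega

lemma LL_nodup {w : ℕ} {l : List ℕ} (hl : l.Nodup) : (LL w l).Nodup :=
  (hl.filter _).sublist (List.takeWhile_sublist _)

end Pool.Agent.StackSort
end

-- part Pool.Agent.P.MP_f1060b_co.Geo
section

namespace Pool.Agent.StackSort

open MeasureTheory Module

/-- The corner simplex of size `r`. -/
def corner (k : ℕ) (r : ℝ) : Set (Fin k → ℝ) := {x | (∀ i, 0 ≤ x i) ∧ ∑ i, x i ≤ r}

lemma corner_closed (k : ℕ) (r : ℝ) : IsClosed (corner k r) := by
  have : corner k r = (⋂ i, {x : Fin k → ℝ | 0 ≤ x i}) ∩ {x | ∑ i, x i ≤ r} := by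
    ext x; simp [corner]
  rw [this]
  refine (isClosed_iInter fun i => isClosed_le continuous_const (continuous_apply i)).inter ?_
  exact isClosed_le (by fun_prop) continuous_const

lemma corner_neg (k : ℕ) {r : ℝ} (hr : r < 0) : corner k r = ∅ := by
  ext x
  simp only [corner, Set.mem_setOf_eq, Set.mem_empty_iff_false, iff_false, not_and, not_le]
  intro h
  exact hr.trans_le (Finset.sum_nonneg fun i _ => h i)

lemma volume_corner (k : ℕ) : ∀ r : ℝ, 0 ≤ r →
    volume (corner k r) = ENNReal.ofReal (r ^ k / k.factorial) := by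
  induction k with
  | zero =>
    intro r hr
    have : corner 0 r = Set.univ := by ext x; simp [corner, hr]
    rw [this, volume_pi, Measure.pi_univ]; simp
  | succ k ih =>
    intro r hr
    have hm := (measurePreserving_piFinSuccAbove (fun _ : Fin (k + 1) => (volume : Measure ℝ)) 0).symm
    have hms := (corner_closed (k + 1) r).measurableSet
    rw [volume_pi, ← hm.measure_preimage hms.nullMeasurableSet,
      Measure.prod_apply (hms.preimage hm.measurable)]
    have h1 : ∀ t : ℝ, Measure.pi (fun _ : Fin k => (volume : Measure ℝ)) (Prod.mk t ⁻¹'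
        ((MeasurableEquiv.piFinSuccAbove (fun _ : Fin (k + 1) => ℝ) 0).symm ⁻¹' corner (k + 1) r))
        = (Set.Icc 0 r).indicator (fun t => ENNReal.ofReal ((r - t) ^ k / k.factorial)) t := by
      intro t
      rw [← volume_pi]
      by_cases h0 : 0 ≤ t
      · have : (Prod.mk t ⁻¹' ((MeasurableEquiv.piFinSuccAbove (fun _ : Fin (k + 1) => ℝ) 0).symm ⁻¹'
            corner (k + 1) r)) = corner k (r - t) := by
          ext y
          simp [corner, Fin.forall_fin_succ, Fin.sum_univ_succ, h0, le_sub_iff_add_le']
        rw [this]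
        by_cases h1 : t ≤ r
        · rw [ih _ (by linarith), Set.indicator_of_mem (by exact ⟨h0, h1⟩)]
        · rw [corner_neg k (by linarith), Set.indicator_of_notMem (fun h => h1 h.2)]; simp
      · have : (Prod.mk t ⁻¹' ((MeasurableEquiv.piFinSuccAbove (fun _ : Fin (k + 1) => ℝ) 0).symm ⁻¹'
            corner (k + 1) r)) = ∅ := by
          ext y
          simp [corner, Fin.forall_fin_succ, h0]
        rw [this, Set.indicator_of_notMem (fun h => h0 h.1)]; simp
    simp_rw [h1]
    rw [lintegral_indicator measurableSet_Icc, ← ofReal_integral_eq_lintegral_ofReal]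
    · congr 1
      rw [integral_Icc_eq_integral_Ioc, ← intervalIntegral.integral_of_le hr,
        intervalIntegral.integral_div, intervalIntegral.integral_comp_sub_left (fun t => t ^ k) r]
      simp only [sub_self, sub_zero, integral_pow, Nat.factorial_succ]
      push_cast
      field_simp
      simp
    · exact (by fun_prop : Continuous fun t : ℝ => (r - t) ^ k / k.factorial).integrableOn_Icc
    · refine (ae_restrict_iff' measurableSet_Icc).2 (Filter.Eventually.of_forall fun t ht => ?_)
      have := sub_nonneg.2 ht.2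
      positivity

lemma hull_eq {E : Type*} [AddCommGroup E] [Module ℝ E] {k : ℕ} (p : E) (d : Fin k → E) :
    convexHull ℝ (insert p (Set.range fun j => p + d j)) =
      (fun x : Fin k → ℝ => p + ∑ j, x j • d j) '' corner k 1 := by
  apply Set.Subset.antisymm
  · apply convexHull_min
    · rintro _ (rfl | ⟨j, rfl⟩)
      · exact ⟨0, ⟨by simp, by simp⟩, by simp⟩
      · refine ⟨Pi.single j 1, ⟨fun i => ?_, by simp⟩, ?_⟩
        · by_cases h : i = j <;> simp [Pi.single_apply, h]
        · simp [Pi.single_apply, ite_smul]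
    · rintro _ ⟨x, hx, rfl⟩ _ ⟨y, hy, rfl⟩ a b ha hb hab
      refine ⟨a • x + b • y, ⟨fun i => ?_, ?_⟩, ?_⟩
      · have := hx.1 i; have := hy.1 i
        simp only [Pi.add_apply, Pi.smul_apply, smul_eq_mul]; positivity
      · simp only [Pi.add_apply, Pi.smul_apply, smul_eq_mul, Finset.sum_add_distrib,
          ← Finset.mul_sum]
        nlinarith [hx.2, hy.2]
      · simp only [Pi.add_apply, Pi.smul_apply, smul_eq_mul, add_smul, mul_smul,
          Finset.sum_add_distrib, ← Finset.smul_sum, smul_add]
        have : p = a • p + b • p := by rw [← add_smul, hab, one_smul]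
        nth_rewrite 1 [this]; abel
  · rintro _ ⟨x, hx, rfl⟩
    have key := (convex_convexHull ℝ (insert p (Set.range fun j => p + d j))).sum_mem
      (t := (Finset.univ : Finset (Option (Fin k))))
      (w := fun o => o.elim (1 - ∑ i, x i) x) (z := fun o => o.elim p fun j => p + d j)
      (by rintro (_ | j) _
          · simpa using hx.2
          · simpa using hx.1 j)
      (by simp [Fintype.sum_option])
      (by rintro (_ | j) _
          · exact subset_convexHull _ _ (Or.inl rfl)
          · exact subset_convexHull _ _ (Or.inr ⟨j, rfl⟩))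
    have e : (∑ o : Option (Fin k), (o.elim (1 - ∑ i, x i) x) • (o.elim p fun j => p + d j))
        = p + ∑ j, x j • d j := by
      simp only [Fintype.sum_option, Option.elim, smul_add, Finset.sum_add_distrib,
        ← Finset.sum_smul, sub_smul, one_smul]
      abel
    rw [e] at key
    exact key

lemma dir_eq {E : Type*} [AddCommGroup E] [Module ℝ E] {k : ℕ} (p : E) (d : Fin k → E) :
    (affineSpan ℝ (convexHull ℝ (insert p (Set.range fun j => p + d j)))).direction =
      Submodule.span ℝ (Set.range d) := by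
  rw [affineSpan_convexHull, direction_affineSpan,
    vectorSpan_eq_span_vsub_set_right ℝ (Set.mem_insert p _), Set.image_insert_eq,
    ← Set.range_comp]
  simp [Function.comp_def, Submodule.span_insert_zero]

/-- The integer points of a subspace `V` of `ℝ^n`. -/
def intPts {n : ℕ} (V : Submodule ℝ (EuclideanSpace ℝ (Fin n))) : Submodule ℤ V where
  carrier := {v | ∀ i, ∃ m : ℤ, v.1 i = m}
  add_mem' := by
    intro a b ha hb i
    obtain ⟨x, hx⟩ := ha i
    obtain ⟨y, hy⟩ := hb i
    exact ⟨x + y, by simp [hx, hy]⟩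
  zero_mem' := fun i => ⟨0, by simp⟩
  smul_mem' := by
    intro c a ha i
    obtain ⟨x, hx⟩ := ha i
    exact ⟨c * x, by simp [hx]⟩

lemma comap_intLat {n : ℕ} (V : Submodule ℝ (EuclideanSpace ℝ (Fin n))) :
    ZLattice.comap ℝ (intLat n) V.subtype = intPts V := by
  classical
  ext v
  change v.1 ∈ intLat n ↔ ∀ i, ∃ m : ℤ, v.1 i = m
  rw [intLat, Submodule.mem_span_range_iff_exists_fun]
  constructor
  · rintro ⟨c, hc⟩ i
    refine ⟨c i, ?_⟩
    rw [← hc]
    simp [Pi.single_apply]
  · intro h
    choose c hc using h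
    refine ⟨c, ?_⟩
    ext i
    simp [Pi.single_apply, hc]

instance intPts_discrete {n : ℕ} (V : Submodule ℝ (EuclideanSpace ℝ (Fin n))) :
    DiscreteTopology (intPts V) := by
  refine discreteTopology_of_isOpen_singleton_zero ?_
  have : ({0} : Set (intPts V)) = Metric.ball 0 1 := by
    ext v
    simp only [Set.mem_singleton_iff, Metric.mem_ball, dist_zero_right]
    constructor
    · rintro rfl; simp
    · intro h
      ext i
      obtain ⟨m, hm⟩ := v.2 i
      have h1 : ‖v.1.1 i‖ ≤ ‖v.1.1‖ := PiLp.norm_apply_le _ _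
      have h2 : ‖v.1.1‖ < 1 := h
      rw [hm, Real.norm_eq_abs] at h1
      have h3 : |m| < 1 := by exact_mod_cast (h1.trans_lt h2)
      have h4 : m = 0 := by rwa [Int.abs_lt_one_iff] at h3
      simp [hm, h4]
  rw [this]; exact Metric.isOpen_ball

end Pool.Agent.StackSort
end

-- part Pool.Agent.P.MP_f1060b_co.Geo2
section

namespace Pool.Agent.StackSort

open MeasureTheory Module

lemma corner_convex (k : ℕ) : Convex ℝ (corner k 1) := by
  intro x hx y hy a b ha hb hab
  refine ⟨fun i => ?_, ?_⟩
  · have := hx.1 i; have := hy.1 i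
    simp only [Pi.add_apply, Pi.smul_apply, smul_eq_mul]; positivity
  · simp only [Pi.add_apply, Pi.smul_apply, smul_eq_mul, Finset.sum_add_distrib,
      ← Finset.mul_sum]
    nlinarith [hx.2, hy.2]

lemma core {n k : ℕ} (p : EuclideanSpace ℝ (Fin n)) (d : Fin k → EuclideanSpace ℝ (Fin n))
    (hd : ∀ j i, ∃ m : ℤ, d j i = m) (t : Fin k → Fin n)
    (hD : (Matrix.of fun i j => d j (t i)).det ≠ 0)
    (V : Submodule ℝ (EuclideanSpace ℝ (Fin n))) (hV : V = Submodule.span ℝ (Set.range d)) :
    ∃ N : ℤ, N ≠ 0 ∧
      volume.real {v : V | p + v.1 ∈ (fun x : Fin k → ℝ => p + ∑ j, x j • d j) '' corner k 1} /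
        ZLattice.covolume (intPts V) volume =
        |(Matrix.of fun i j => d j (t i)).det| / (k.factorial * |(N : ℝ)|) ∧
      ((∀ v ∈ V, (∀ i, ∃ m : ℤ, v (t i) = m) → ∀ i, ∃ m : ℤ, v i = m) → |N| = 1) := by
  classical
  set D : Matrix (Fin k) (Fin k) ℝ := Matrix.of fun i j => d j (t i) with hDdef
  have hmem : ∀ j, d j ∈ V := fun j => hV ▸ Submodule.subset_span ⟨j, rfl⟩
  let dV : Fin k → V := fun j => ⟨d j, hmem j⟩
  let φ₀ : EuclideanSpace ℝ (Fin n) →ₗ[ℝ] (Fin k → ℝ) :=
    { toFun := fun v i => v (t i)
      map_add' := fun _ _ => rfl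
      map_smul' := fun _ _ => rfl }
  let φ : V →ₗ[ℝ] (Fin k → ℝ) := φ₀ ∘ₗ V.subtype
  have hli : LinearIndependent ℝ d := by
    apply LinearIndependent.of_comp φ₀
    have := Matrix.linearIndependent_cols_iff_isUnit.2
      ((Matrix.isUnit_iff_isUnit_det D).2 (isUnit_iff_ne_zero.2 hD))
    exact this
  have hrank : finrank ℝ V = k := by
    rw [hV, finrank_span_eq_card hli, Fintype.card_fin]
  have hspan : ∀ v : V, ∃ x : Fin k → ℝ, v = ∑ j, x j • dV j := by
    intro v
    have : v.1 ∈ Submodule.span ℝ (Set.range d) := hV ▸ v.2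
    obtain ⟨x, hx⟩ := (Submodule.mem_span_range_iff_exists_fun ℝ).1 this
    refine ⟨x, Subtype.ext ?_⟩
    rw [← hx]; simp [dV]
  haveI hL : IsZLattice ℝ (intPts V) := by
    refine ⟨eq_top_iff.2 fun v _ => ?_⟩
    obtain ⟨x, rfl⟩ := hspan v
    exact Submodule.sum_mem _ fun j _ =>
      Submodule.smul_mem _ _ (Submodule.subset_span (fun i => hd j i))
  let c : Basis (Fin k) ℤ (intPts V) :=
    Module.finBasisOfFinrankEq ℤ (intPts V) (by rw [ZLattice.rank ℝ, hrank])
  let c' : Basis (Fin k) ℝ V := c.ofZLatticeBasis ℝ (intPts V)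
  choose Cz hCz using fun j i => (c j).2 (t i)
  let C : Matrix (Fin k) (Fin k) ℤ := Matrix.of fun i j => Cz j i
  let Cr : Matrix (Fin k) (Fin k) ℝ := C.map (Int.castRingHom ℝ)
  have hφc : ∀ j i, φ (c' j) i = Cr i j := by
    intro j i
    have : c' j = (c j : V) := c.ofZLatticeBasis_apply ℝ _ j
    rw [this]; exact hCz j i
  have hψ : ∀ v : V, Matrix.toLin' Cr (c'.equivFun v) = φ v := by
    intro v
    conv_rhs => rw [← c'.sum_repr v]
    ext i
    simp only [Matrix.toLin'_apply, Matrix.mulVec, dotProduct, map_sum, map_smul,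
      Finset.sum_apply, Pi.smul_apply, hφc, smul_eq_mul, Basis.equivFun_apply, mul_comm]
  have hδ : ∀ x : Fin k → ℝ, φ (∑ j, x j • dV j) = Matrix.toLin' D x := by
    intro x
    ext i
    simp only [Matrix.toLin'_apply, Matrix.mulVec, dotProduct, map_sum, map_smul,
      Finset.sum_apply, Pi.smul_apply, smul_eq_mul, mul_comm]
    rfl
  set S : Set V := {v : V | p + v.1 ∈ (fun x : Fin k → ℝ => p + ∑ j, x j • d j) '' corner k 1}
    with hS
  let g : (Fin k → ℝ) →ₗ[ℝ] V := Fintype.linearCombination ℝ dV
  have hg : ∀ x, g x = ∑ j, x j • dV j := fun x => Fintype.linearCombination_apply _ _ _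
  have hSg : S = g '' corner k 1 := by
    ext v
    simp only [hS, Set.mem_setOf_eq, Set.mem_image, add_right_inj, hg]
    refine exists_congr fun x => and_congr_right fun _ => ?_
    rw [Subtype.ext_iff]; simp [dV]
  have hSm : NullMeasurableSet S volume := by
    rw [hSg]; exact ((corner_convex k).linear_image g).nullMeasurableSet _
  have h1 := ZLattice.volume_image_eq_volume_div_covolume' (intPts V) c hSm
  have h2 : Matrix.toLin' Cr '' (c'.equivFun '' S) = Matrix.toLin' D '' corner k 1 := by
    rw [hSg, Set.image_image, Set.image_image]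
    refine Set.image_congr fun x _ => ?_
    rw [hψ, hg, hδ]
  have h3 := congrArg volume h2
  rw [Measure.addHaar_image_linearMap, Measure.addHaar_image_linearMap, h1,
    volume_corner k 1 zero_le_one, LinearMap.det_toLin', LinearMap.det_toLin'] at h3
  have h4 := congrArg ENNReal.toReal h3
  have hcov := ZLattice.covolume_pos (intPts V) volume
  simp only [ENNReal.toReal_mul, ENNReal.toReal_div, ENNReal.toReal_ofReal (abs_nonneg _),
    ENNReal.toReal_ofReal hcov.le, one_pow] at h4
  rw [ENNReal.toReal_ofReal (by positivity)] at h4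
  have hdet : Cr.det = ((C.det : ℤ) : ℝ) := ((Int.castRingHom ℝ).map_det C).symm
  have hf : (0 : ℝ) < k.factorial := by positivity
  have hDp : 0 < |D.det| := abs_pos.2 hD
  have hC0 : Cr.det ≠ 0 := by
    intro h0
    rw [h0, abs_zero, zero_mul] at h4
    exact absurd h4 (by positivity : (0 : ℝ) < |D.det| * (1 / k.factorial)).ne
  refine ⟨C.det, fun h0 => hC0 (by rw [hdet, h0]; simp), ?_, fun hint => ?_⟩
  · rw [← hdet, Measure.real]
    have : 0 < |Cr.det| := abs_pos.2 hC0
    rw [eq_div_iff (by positivity)]
    field_simp at h4 ⊢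
    linarith
  · have hex : ∀ i : Fin k, ∃ v : intPts V, φ v = Pi.single i 1 := by
      intro i
      let x : Fin k → ℝ := D⁻¹.mulVec (Pi.single i 1)
      have hx : φ (∑ j, x j • dV j) = Pi.single i 1 := by
        rw [hδ, Matrix.toLin'_apply, Matrix.mulVec_mulVec,
          Matrix.mul_nonsing_inv _ (isUnit_iff_ne_zero.2 hD), Matrix.one_mulVec]
      refine ⟨⟨∑ j, x j • dV j, hint _ (∑ j, x j • dV j).2 fun l => ?_⟩, hx⟩
      have := congrFun hx l
      refine ⟨if l = i then 1 else 0, this.trans ?_⟩
      by_cases h : l = i <;> simp [Pi.single_apply, h]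
    choose v hv using hex
    let H : Matrix (Fin k) (Fin k) ℤ := Matrix.of fun j i => c.repr (v i) j
    have hCH : C * H = 1 := by
      ext l i
      have e1 := congrFun ((hψ (v i)).trans (hv i)) l
      simp only [Matrix.toLin'_apply, Matrix.mulVec, dotProduct, Basis.equivFun_apply] at e1
      have e2 : ∀ j, c'.repr (v i : V) j = ((c.repr (v i) j : ℤ) : ℝ) := fun j =>
        c.ofZLatticeBasis_repr_apply ℝ _ (v i) j
      simp only [e2] at e1
      have e3 : (((C * H) l i : ℤ) : ℝ) = (((1 : Matrix (Fin k) (Fin k) ℤ) l i : ℤ) : ℝ) := by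
        rw [Matrix.mul_apply]; push_cast
        refine e1.trans ?_
        by_cases h : l = i <;> simp [Pi.single_apply, Matrix.one_apply, h]
      exact_mod_cast e3
    have := congrArg Matrix.det hCH
    rw [Matrix.det_mul, Matrix.det_one] at this
    rcases Int.eq_one_or_neg_one_of_mul_eq_one this with h | h <;> simp [h]

lemma relVol_simplex {n k : ℕ} (p : EuclideanSpace ℝ (Fin n))
    (d : Fin k → EuclideanSpace ℝ (Fin n))
    (hd : ∀ j i, ∃ m : ℤ, d j i = m) (t : Fin k → Fin n)
    (htri : ∀ i j, i < j → d j (t i) = 0) (hdiag : ∀ j, d j (t j) ≠ 0) :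
    relVol (intLat n) (convexHull ℝ (insert p (Set.range fun j => p + d j))) p ≤
        (∏ j, |d j (t j)|) / k.factorial ∧
      ∀ i₀ : Fin n, (∀ j, ∑ i, d j i = 0) →
        (∀ i, i = i₀ ∨ (∃ j, i = t j) ∨ ∀ j, d j i = 0) →
        relVol (intLat n) (convexHull ℝ (insert p (Set.range fun j => p + d j))) p =
          (∏ j, |d j (t j)|) / k.factorial := by
  classical
  have hdet : (Matrix.of fun i j => d j (t i)).det = ∏ j, d j (t j) := by
    rw [Matrix.det_of_lowerTriangular]
    · rfl
    · intro i j h; exact htri i j h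
  have hD : (Matrix.of fun i j => d j (t i)).det ≠ 0 := by
    rw [hdet]; exact Finset.prod_ne_zero_iff.2 fun j _ => hdiag j
  obtain ⟨N, hN, h1, h2⟩ := core p d hd t hD _ (dir_eq p d)
  have h3 : relVol (intLat n) (convexHull ℝ (insert p (Set.range fun j => p + d j))) p =
      (∏ j, |d j (t j)|) / (k.factorial * |(N : ℝ)|) := by
    rw [← Finset.abs_prod, ← hdet, ← h1, relVol, ratioIn, ratio, comap_intLat, ← hull_eq]
    rfl
  have hf : (0 : ℝ) < k.factorial := by positivity
  refine ⟨?_, fun i₀ hsum hcov => ?_⟩
  · rw [h3]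
    have : (1 : ℝ) ≤ |(N : ℝ)| := by exact_mod_cast Int.one_le_abs hN
    apply div_le_div_of_nonneg_left (by positivity) hf
    nlinarith
  · have : |N| = 1 := by
      refine h2 fun v hv hint => ?_
      rw [dir_eq] at hv
      obtain ⟨x, rfl⟩ := (Submodule.mem_span_range_iff_exists_fun ℝ).1 hv
      have hne : ∀ i, i ≠ i₀ → ∃ m : ℤ, (∑ j, x j • d j) i = m := by
        intro i hi
        rcases hcov i with h | ⟨j, rfl⟩ | h
        · exact absurd h hi
        · exact hint j
        · exact ⟨0, by simp [h]⟩
      choose! m hm using hne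
      intro i
      by_cases hi : i = i₀
      · subst hi
        have hs : ∑ l, (∑ j, x j • d j) l = 0 := by
          simp only [WithLp.ofLp_sum, WithLp.ofLp_smul, Finset.sum_apply, Pi.smul_apply,
            smul_eq_mul]
          rw [Finset.sum_comm]
          simp [← Finset.mul_sum, hsum]
        rw [← Finset.add_sum_erase _ _ (Finset.mem_univ i),
          Finset.sum_congr rfl fun l hl => hm l (Finset.ne_of_mem_erase hl)] at hs
        exact ⟨-∑ l ∈ Finset.univ.erase i, m l, by push_cast; linarith⟩
      · exact ⟨m i, hm i hi⟩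
    have h4 : |(N : ℝ)| = 1 := by exact_mod_cast this
    rw [h3, h4, mul_one]

end Pool.Agent.StackSort
end

-- part Pool.Agent.P.MP_f1060b_co.Struct
section

namespace Pool.Agent.StackSort

lemma pass_range (m : ℕ) : ∀ (t : ℕ) (st : List ℕ), (∀ y ∈ st, y < t) →
    pass st (List.range' t m) = st ++ List.range' t m := by
  induction m with
  | zero => intro t st _; simp [pass]
  | succ m ih =>
    intro t st h
    rw [List.range'_succ, pass, List.takeWhile_eq_self_iff.2 (by simpa using h),
      List.dropWhile_eq_nil_iff.2 (by simpa using h), ih (t + 1) [t] (by simp)]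
    simp

lemma stackSort_append_range {u : List ℕ} {t : ℕ} (m : ℕ) (h : ∀ y ∈ u, y < t) :
    stackSort (u ++ List.range' t m) = stackSort u ++ List.range' t m := by
  rw [stackSort, pass_append, pass_range, stackSort, pass_eq, List.append_assoc]
  intro y hy
  have : y ∈ pass [] u := by rw [pass_eq]; exact List.mem_append_right _ hy
  exact h y (by simpa using (pass_perm u []).subset this)

lemma stk_last (t : ℕ) (xs : List ℕ) : ∀ st : List ℕ, (∀ y ∈ xs, y ≤ t) → (∀ y ∈ st, y ≤ t) →
    ((∃ r, st = r ++ [t]) ∨ t ∈ xs) → st.Pairwise (· ≤ ·) → ∃ r, stk st xs = r ++ [t] := by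
  induction xs with
  | nil => intro st _ _ h _; simpa [stk] using h
  | cons x xs ih =>
    intro st h1 h2 h3 h4
    rw [stk]
    have hx : x ≤ t := h1 x (by simp)
    refine ih _ (fun y hy => h1 y (by simp [hy])) ?_ ?_ (push_sorted h4 x)
    · intro y hy
      rcases List.mem_cons.1 hy with rfl | hy
      · exact hx
      · exact h2 y ((List.dropWhile_sublist _).subset hy)
    · rw [(take_eq h4 x).2]
      rcases h3 with ⟨r, rfl⟩ | h3
      · left
        exact ⟨x :: r.filter (x ≤ ·), by simp [List.filter_append, hx]⟩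
      · rcases List.mem_cons.1 h3 with rfl | h3
        · left
          rcases List.eq_nil_or_concat' (st.filter (t ≤ ·)) with h0 | ⟨r, y, h0⟩
          · exact ⟨[], by simp [h0]⟩
          · have hy : y ∈ st.filter (t ≤ ·) := by rw [h0]; simp
            have hy2 := List.mem_filter.1 hy
            have : y = t := le_antisymm (h2 y hy2.1) (by simpa using hy2.2)
            exact ⟨t :: r, by rw [h0, this]; simp⟩
        · exact Or.inr h3

lemma split_top (n : ℕ) : ∀ l : List ℕ, l.Perm (List.range' 1 n) → l ≠ List.range' 1 n →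
    ∃ t a w m, t + 1 + m = n ∧ l = a ++ w :: List.range' (t + 2) m ∧
      (a ++ [w]).Perm (List.range' 1 (t + 1)) ∧ w ≠ t + 1 := by
  induction n with
  | zero => intro l h h'; exact absurd (by simpa using h) h'
  | succ n ih =>
    intro l h h'
    rcases List.eq_nil_or_concat' l with rfl | ⟨a, w, rfl⟩
    · simpa using h.length_eq
    by_cases hw : w = n + 1
    · subst hw
      rw [List.range'_concat, one_mul, add_comm 1 n] at h h'
      obtain ⟨t, b, w, m, e1, e2, e3, e4⟩ := ih a ((List.perm_append_right_iff _).1 h)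
        (fun e => h' (by rw [e]))
      refine ⟨t, b, w, m + 1, by omega, ?_, e3, e4⟩
      rw [e2, List.range'_concat, ← e1]
      simp; omega
    · exact ⟨n, a, w, 0, rfl, by simp, h, hw⟩

lemma getD_range {a : List ℕ} {s m i : ℕ} (h1 : a.length ≤ i) (h2 : i < a.length + m) :
    (a ++ List.range' s m).getD i 0 = s + (i - a.length) := by
  rw [List.getD_append_right _ _ _ _ h1, List.getD_eq_getElem _ _ (by simp; omega)]
  simp

lemma length_filter_range (w t : ℕ) (h : 1 ≤ w) (h2 : w ≤ t + 1) :
    ((List.range' 1 t).filter (w ≤ ·)).length = t + 1 - w := by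
  have : List.range' 1 t = List.range' 1 (w - 1) ++ List.range' w (t + 1 - w) := by
    have := @List.range'_append_1 1 (w - 1) (t + 1 - w)
    rw [show 1 + (w - 1) = w by omega, show w - 1 + (t + 1 - w) = t by omega] at this
    exact this.symm
  rw [this, List.filter_append, List.filter_eq_nil_iff.2, List.filter_eq_self.2]
  · simp
  · intro a ha; simp at ha ⊢; omega
  · intro a ha; simp at ha ⊢; omega

lemma structure_lemma {n : ℕ} {l : List ℕ} (h : l.Perm (List.range' 1 n))
    (h' : l ≠ List.range' 1 n) :
    ∃ t w, t < n ∧ w ≤ t ∧ w ∈ l ∧ l.getD t 0 = w ∧ (LL w l).length + w = t + 1 ∧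
      (∀ i, t < i → i < n → l.getD i 0 = i + 1) ∧
      (∀ i, t ≤ i → i < n → (stackSort l).getD i 0 = i + 1) := by
  obtain ⟨t, a, w, m, e1, e2, e3, e4⟩ := split_top n l h h'
  have hlen : a.length = t := by simpa using e3.length_eq
  have hw : 1 ≤ w ∧ w < 1 + (t + 1) := by
    have : w ∈ List.range' 1 (t + 1) := e3.subset (by simp)
    simpa using this
  have hnd : (a ++ [w]).Nodup := e3.nodup_iff.2 List.nodup_range'
  have hwa : w ∉ a := fun hh => (List.nodup_append.1 hnd).2.2 w hh w (by simp) rfl
  have hle : ∀ y ∈ a ++ [w], y ≤ t + 1 := fun y hy => by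
    have := e3.subset hy
    simp at this; omega
  refine ⟨t, w, by omega, by omega, by simp [e2], ?_, ?_, ?_, ?_⟩
  · rw [e2, List.getD_append_right _ _ _ _ hlen.le]; simp [hlen]
  · rw [e2, LL_split _ hwa]
    have := (e3.filter (w ≤ ·)).length_eq
    rw [length_filter_range w (t + 1) hw.1 (by omega)] at this
    simp [List.filter_append] at this
    omega
  · intro i h1 h2
    rw [e2, ← List.singleton_append, ← List.append_assoc, getD_range] <;> simp [hlen] <;> omega
  · intro i h1 h2
    obtain ⟨r, hr⟩ := stk_last (t + 1) (a ++ [w]) [] hle (by simp)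
      (Or.inr (e3.symm.subset (by simp))) List.Pairwise.nil
    have e5 : stackSort l = (outp [] (a ++ [w]) ++ r) ++ List.range' (t + 1) (m + 1) := by
      rw [e2, ← List.singleton_append, ← List.append_assoc,
        stackSort_append_range _ fun y hy => Nat.lt_succ_of_le (hle y hy), stackSort, pass_eq, hr,
        List.range'_succ]
      simp
    have e6 : (outp [] (a ++ [w]) ++ r).length = t := by
      have := ((stackSort_perm l).trans h).length_eq
      rw [e5] at this
      simp only [List.length_append, List.length_range'] at this ⊢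
      omega
    rw [e5, getD_range] <;> omega

lemma getD_id {n i : ℕ} (h : i < n) : (List.range' 1 n).getD i 0 = i + 1 := by
  have := @getD_range [] 1 n i (by simp) (by simpa using h)
  simpa [add_comm] using this

lemma exists_sorted {n : ℕ} (t : ℕ) : ∀ l : List ℕ, l.Perm (List.range' 1 n) →
    (∀ i, t ≤ i → i < n → l.getD i 0 = i + 1) → ∃ j, stackSort^[j] l = List.range' 1 n := by
  induction t with
  | zero =>
    intro l h h2
    by_contra h0
    obtain ⟨t, w, e1, e2, -, e4, -⟩ := structure_lemma h (fun e => h0 ⟨0, e⟩)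
    have := h2 t (Nat.zero_le _) e1
    omega
  | succ t ih =>
    intro l h h2
    by_cases h0 : l = List.range' 1 n
    · exact ⟨0, h0⟩
    obtain ⟨t', w, e1, e2, -, e4, -, -, e7⟩ := structure_lemma h h0
    have ht : t' ≤ t := by
      by_contra hc
      have := h2 t' (by omega) e1
      omega
    obtain ⟨j, hj⟩ := ih _ ((stackSort_perm l).trans h) fun i h1 h3 => e7 i (by omega) h3
    exact ⟨j + 1, hj⟩

lemma passes_spec {n : ℕ} {l : List ℕ} (h : l.Perm (List.range' 1 n)) :
    stackSort^[passes n l] l = List.range' 1 n ∧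
      ∀ j < passes n l, stackSort^[j] l ≠ List.range' 1 n :=
  ⟨Nat.sInf_mem (exists_sorted n l h fun i h1 h2 => by omega),
    fun _ hj => Nat.notMem_of_lt_sInf hj⟩

lemma passes_eq {n k : ℕ} {l : List ℕ} (h1 : stackSort^[k] l = List.range' 1 n)
    (h2 : ∀ j < k, stackSort^[j] l ≠ List.range' 1 n) : passes n l = k := by
  apply le_antisymm (Nat.sInf_le h1)
  by_contra hc
  have : Set.Nonempty {j | stackSort^[j] l = List.range' 1 n} := ⟨k, h1⟩
  exact h2 _ (not_le.1 hc) (Nat.sInf_mem this)

lemma sum_getD {n : ℕ} {l : List ℕ} (h : l.length = n) :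
    ∑ i : Fin n, (l.getD i 0 : ℝ) = (l.sum : ℕ) := by
  subst h
  rw [← Nat.cast_sum]
  congr 1
  conv_rhs => rw [← List.ofFn_getElem (xs := l), List.sum_ofFn]
  refine Finset.sum_congr rfl fun i _ => ?_
  simp

/-- The volume in terms of a triangular choice of columns. -/
lemma vol_tri {n k : ℕ} {l : List ℕ} (h : l.Perm (List.range' 1 n)) (hk : passes n l = k)
    (t w : ℕ → ℕ) (ht : ∀ j < k, t j < n) (hw : ∀ j < k, w j ≤ t j)
    (hv : ∀ j < k, (stackSort^[j] l).getD (t j) 0 = w j)
    (htri : ∀ i j, i < j → j < k → (stackSort^[j] l).getD (t i) 0 = t i + 1) :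
    vol n l ≤ ∏ j ∈ Finset.range k, ((t j + 1 - w j : ℕ) : ℝ) / (k - j : ℕ) ∧
      ∀ i₀ < n, (∀ i < n, i = i₀ ∨ (∃ j < k, i = t j) ∨
          ∀ j < k, (stackSort^[j] l).getD i 0 = i + 1) →
        vol n l = ∏ j ∈ Finset.range k, ((t j + 1 - w j : ℕ) : ℝ) / (k - j : ℕ) := by
  set p := pt n (List.range' 1 n) with hp
  let d : Fin k → EuclideanSpace ℝ (Fin n) := fun j => pt n (stackSort^[j] l) - p
  have hd : ∀ (j : Fin k) (i : Fin n), d j i = ((stackSort^[j] l).getD i 0 : ℝ) - (i + 1 : ℕ) := by
    intro j i
    simp only [d, hp, pt, PiLp.sub_apply, getD_id i.2]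
  have hP : polytope n l = convexHull ℝ (insert p (Set.range fun j => p + d j)) := by
    rw [polytope, hk]
    congr 1
    ext x
    simp only [Set.mem_setOf_eq, Set.mem_insert_iff, Set.mem_range, d, add_sub_cancel]
    have hs := (passes_spec h).1
    rw [hk] at hs
    constructor
    · rintro ⟨j, hj, rfl⟩
      rcases hj.eq_or_lt with rfl | hj
      · left; rw [hs]
      · right; exact ⟨⟨j, hj⟩, rfl⟩
    · rintro (rfl | ⟨j, rfl⟩)
      · exact ⟨k, le_rfl, by rw [hs]⟩
      · exact ⟨j, j.2.le, rfl⟩
  let t' : Fin k → Fin n := fun j => ⟨t j, ht j j.2⟩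
  have hdiag : ∀ j : Fin k, |d j (t' j)| = ((t j + 1 - w j : ℕ) : ℝ) := by
    intro j
    have := hw j j.2
    rw [hd, Nat.cast_sub (by omega), abs_sub_comm]
    simp only [t', hv j j.2]
    exact abs_of_nonneg (sub_nonneg.2 (by exact_mod_cast (by omega : w j ≤ t j + 1)))
  have key := relVol_simplex p d (fun j i => ⟨((stackSort^[j] l).getD i 0 : ℕ) - (i + 1 : ℕ), by
      rw [hd]; push_cast; rfl⟩) t'
    (fun i j hij => by rw [hd]; simp only [t', htri i j hij j.2, sub_self])
    (fun j => by
      rw [← abs_pos, hdiag]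
      have := hw j j.2
      exact Nat.cast_pos.2 (by omega))
  have hprod : (∏ j, |d j (t' j)|) / k.factorial =
      ∏ j ∈ Finset.range k, ((t j + 1 - w j : ℕ) : ℝ) / (k - j : ℕ) := by
    simp only [hdiag]
    rw [Finset.prod_div_distrib, Fin.prod_univ_eq_prod_range (fun j => ((t j + 1 - w j : ℕ) : ℝ)) k,
      ← Nat.descFactorial_self, Nat.descFactorial_eq_prod_range, Nat.cast_prod]
  rw [hprod, ← hP] at key
  refine ⟨key.1, fun i₀ hi₀ hcov => key.2 ⟨i₀, hi₀⟩ (fun j => ?_) fun i => ?_⟩
  · simp only [d, hp, pt, PiLp.sub_apply, Finset.sum_sub_distrib]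
    have e := (iter_perm l j).trans h
    rw [sum_getD (by simpa using e.length_eq), sum_getD (by simp), e.sum_eq, sub_self]
  · rcases hcov i i.2 with e | ⟨j, hj, e⟩ | e
    · exact Or.inl (Fin.ext e)
    · exact Or.inr (Or.inl ⟨⟨j, hj⟩, Fin.ext e⟩)
    · exact Or.inr (Or.inr fun j => by rw [hd, e j j.2, sub_self])

/-- The volume is at most the product of the inversion numbers of the walkers over `k!`. -/
lemma vol_le_LL {n : ℕ} {l : List ℕ} (h : l.Perm (List.range' 1 n)) :
    ∃ w : ℕ → ℕ, (∀ j < passes n l, w j ∈ l) ∧ vol n l ≤ ∏ j ∈ Finset.range (passes n l),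
      ((LL (w j) (stackSort^[j] l)).length : ℝ) / (passes n l - j : ℕ) := by
  set k := passes n l with hk
  have hex : ∀ j, j < k → _ := fun j hj =>
    structure_lemma ((iter_perm l j).trans h) ((passes_spec h).2 j hj)
  choose! t w e1 e2 e3 e4 e5 e6 e7 using hex
  have hstep : ∀ j, j + 1 < k → t (j + 1) < t j := by
    intro j hj
    by_contra hc
    have a1 := e7 j (by omega) (t (j + 1)) (by omega) (e1 _ hj)
    rw [← Function.iterate_succ_apply' stackSort, e4 _ hj] at a1
    have := e2 _ hj
    omega
  have hanti : ∀ i j, i < j → j < k → t j < t i := by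
    intro i j hij
    induction j, hij using Nat.le_induction with
    | base => exact hstep i
    | succ j hj ih => intro hh; exact (hstep j hh).trans (ih (by omega))
  refine ⟨w, fun j hj => (iter_perm l j).subset (e3 j hj), ?_⟩
  refine (vol_tri h hk.symm t w e1 e2 e4 fun i j hij hj =>
    e6 j hj _ (hanti i j hij hj) (e1 i (by omega))).1.trans (le_of_eq ?_)
  refine Finset.prod_congr rfl fun j hj => ?_
  have := e5 j (Finset.mem_range.1 hj)
  rw [show t j + 1 - w j = (LL (w j) (stackSort^[j] l)).length by omega]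

end Pool.Agent.StackSort
end

-- part Pool.Agent.P.MP_f1060b_co.Bounds
section

namespace Pool.Agent.StackSort

section
variable {n w : ℕ} {l : List ℕ}

lemma LL_succ (h : l.Perm (List.range' 1 n)) (hw : w ∈ l) (j : ℕ) :
    LL w (stackSort^[j + 1] l) = outp [] (LL w (stackSort^[j] l)) := by
  rw [Function.iterate_succ_apply', LL_stackSort
    (((iter_perm l j).trans h).nodup_iff.2 List.nodup_range') ((iter_perm l j).symm.subset hw)]

lemma LL_step (h : l.Perm (List.range' 1 n)) (hw : w ∈ l) (j : ℕ) :
    (LL w (stackSort^[j + 1] l)).length + (stk [] (LL w (stackSort^[j] l))).length =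
      (LL w (stackSort^[j] l)).length := by
  rw [LL_succ h hw, length_outp]

lemma sig_anti (h : l.Perm (List.range' 1 n)) (hw : w ∈ l) :
    Antitone fun j => (stk [] (LL w (stackSort^[j] l))).length := by
  refine antitone_nat_of_succ_le fun j => ?_
  simp only [LL_succ h hw]
  exact stk_outp_le (LL_nodup (((iter_perm l j).trans h).nodup_iff.2 List.nodup_range'))

lemma LL_id (hw : w ∈ List.range' 1 n) : LL w (List.range' 1 n) = [] := by
  obtain ⟨a, b, e⟩ := List.append_of_mem hw
  have hp : (a ++ w :: b).Pairwise (· < ·) := e ▸ List.pairwise_lt_range'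
  have hlt : ∀ x ∈ a, x < w := fun x hx => (List.pairwise_append.1 hp).2.2 x hx w (by simp)
  rw [e, LL_split b fun hh => lt_irrefl _ (hlt w hh), List.filter_eq_nil_iff]
  intro x hx
  simpa using hlt x hx

lemma LL_zero (h : l.Perm (List.range' 1 n)) (hw : w ∈ l) : (LL w l).length + 1 ≤ n := by
  obtain ⟨a, b, rfl⟩ := List.append_of_mem hw
  have hn := List.nodup_middle.1 (h.nodup_iff.2 List.nodup_range')
  have hwa : w ∉ a := fun h => (List.nodup_cons.1 hn).1 (List.mem_append_left _ h)
  rw [LL_split b hwa]
  have := h.length_eq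
  have := List.length_filter_le (fun x => decide (w ≤ x)) a
  simp at *
  omega

end

lemma seq_head {L s : ℕ → ℕ} (h : ∀ j, L (j + 1) + s j = L j) (c j : ℕ) (hc : ∀ i < j, c ≤ s i) :
    L j + j * c ≤ L 0 := by
  induction j with
  | zero => simp
  | succ j ih =>
    have := ih fun i hi => hc i (by omega)
    have := hc j (by omega)
    have := h j
    nlinarith

lemma seq_tail {L s : ℕ → ℕ} (h : ∀ j, L (j + 1) + s j = L j) (c j m : ℕ) (hc : ∀ i, j ≤ i → s i ≤ c) :
    L j ≤ L (j + m) + m * c := by
  induction m with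
  | zero => simp
  | succ m ih =>
    have := hc (j + m) (by omega)
    have := h (j + m)
    rw [← add_assoc]
    nlinarith

lemma LL_bound {n w : ℕ} {l : List ℕ} (h : l.Perm (List.range' 1 n)) (hw : w ∈ l) (q j : ℕ)
    (hj : j ≤ passes n l) : (LL w (stackSort^[j] l)).length ≤ (passes n l - j) * q ∨
      (LL w (stackSort^[j] l)).length + j * (q + 1) ≤ (LL w l).length := by
  by_cases hq : (stk [] (LL w (stackSort^[j] l))).length ≤ q
  · left
    have := seq_tail (L := fun j => (LL w (stackSort^[j] l)).length) (LL_step h hw) q j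
      (passes n l - j) fun i hi => (sig_anti h hw hi).trans hq
    simp only [show j + (passes n l - j) = passes n l by omega, (passes_spec h).1,
      LL_id (h.subset hw)] at this
    simpa using this
  · right
    exact seq_head (L := fun j => (LL w (stackSort^[j] l)).length) (LL_step h hw) (q + 1) j
      fun i hi => (Nat.succ_le_of_lt (not_le.1 hq)).trans (sig_anti h hw hi.le)

lemma vol_le_prod {n : ℕ} {l : List ℕ} (h : l.Perm (List.range' 1 n)) (b : ℕ → ℝ)
    (hb : ∀ w ∈ l, ∀ j < passes n l,
      ((LL w (stackSort^[j] l)).length : ℝ) ≤ b j * (passes n l - j : ℕ)) :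
    vol n l ≤ ∏ j ∈ Finset.range (passes n l), b j := by
  obtain ⟨w, hw, hv⟩ := vol_le_LL h
  refine hv.trans (Finset.prod_le_prod (fun _ _ => by positivity) fun j hj => ?_)
  have hj := Finset.mem_range.1 hj
  rw [div_le_iff₀ (Nat.cast_pos.2 (by omega))]
  exact hb _ (hw j hj) j hj

lemma cube_le (m : ℕ) : m ^ 3 ≤ 3 ^ m := by
  rcases Nat.lt_or_ge m 3 with h | h
  · interval_cases m <;> norm_num
  · induction m, h using Nat.le_induction with
    | base => norm_num
    | succ m hm ih => rw [pow_succ 3 m]; nlinarith [Nat.zero_le m, mul_le_mul hm hm (by omega) (by omega : 0 ≤ m)]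

lemma vol_le_three {n : ℕ} {l : List ℕ} (h : l.Perm (List.range' 1 n)) (B : ℕ)
    (hB : ∀ w ∈ l, (LL w l).length ≤ B) : vol n l ≤ (3 : ℝ) ^ ((B : ℝ) / 3) := by
  set k := passes n l with hk
  let m : ℕ → ℕ := fun j => B / k + if j < B % k then 1 else 0
  have h1 : vol n l ≤ ∏ j ∈ Finset.range k, (m j : ℝ) := by
    refine vol_le_prod h _ fun w hw j hj => ?_
    rw [← hk] at hj ⊢
    have e := Nat.div_add_mod B k
    have e2 := Nat.mod_lt B (by omega : 0 < k)
    have e3 := hB w hw
    obtain ⟨c, hc⟩ : ∃ c, k = j + c := ⟨k - j, by omega⟩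
    have e4 := LL_bound h hw (B / k) j hj.le
    rw [← hk] at e4
    norm_cast
    simp only [m]
    generalize B / k = q at *
    generalize B % k = r at *
    rw [show k - j = c by omega] at *
    rw [hc] at e e2
    split_ifs <;> rcases e4 with e4 | e4 <;> nlinarith
  have h2 : ∑ j ∈ Finset.range k, m j ≤ B := by
    simp only [m, Finset.sum_add_distrib, Finset.sum_const, Finset.card_range, smul_eq_mul,
      Finset.sum_boole]
    have : ((Finset.range k).filter (· < B % k)).card ≤ B % k := by
      conv_rhs => rw [← Finset.card_range (B % k)]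
      exact Finset.card_le_card fun x hx => by simpa using (Finset.mem_filter.1 hx).2
    have e := Nat.div_add_mod B k
    simp only [Nat.cast_id]
    omega
  have h3 : (∏ j ∈ Finset.range k, m j) ^ 3 ≤ 3 ^ B := by
    rw [← Finset.prod_pow]
    refine (Finset.prod_le_prod' fun j _ => cube_le (m j)).trans ?_
    rw [Finset.prod_pow_eq_pow_sum]
    exact Nat.pow_le_pow_right (by norm_num) h2
  refine h1.trans ?_
  rw [← Nat.cast_prod, ← pow_le_pow_iff_left₀ (by positivity) (by positivity) three_ne_zero,
    ← Real.rpow_natCast ((3 : ℝ) ^ _), ← Real.rpow_mul (by norm_num)]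
  rw [show (B : ℝ) / 3 * (3 : ℕ) = B by push_cast; ring, Real.rpow_natCast]
  exact_mod_cast h3

lemma vol_le_one {n : ℕ} {l : List ℕ} (h : l.Perm (List.range' 1 n))
    (hB : ∀ w ∈ l, (LL w l).length ≤ passes n l) : vol n l ≤ 1 := by
  refine (vol_le_prod h (fun _ => 1) fun w hw j hj => ?_).trans (by simp)
  rw [one_mul]
  norm_cast
  have := hB w hw
  rcases LL_bound h hw 0 j hj.le with e | e <;> omega

end Pool.Agent.StackSort
end
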