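import Pool.Agent.K.MP_f1060b_co.C0

-- part Pool.Agent.P.MP_f1060b_co.QDefs
section

namespace Pool.Agent.StackSort

open Finset

/-- All rearrangements of `1 2 ... n`. -/
def Sn (n : ℕ) : Finset (List ℕ) := (List.range' 1 n).permutations.toFinset

lemma mem_Sn {n : ℕ} {l : List ℕ} : l ∈ Sn n ↔ l.Perm (List.range' 1 n) := by
  simp [Sn]

lemma card_Sn (n : ℕ) : (Sn n).card = n.factorial := by
  rw [Sn, List.toFinset_card_of_nodup (List.nodup_permutations _ List.nodup_range'),
    List.length_permutations, List.length_range']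

/-- The place of a letter. -/
def px (l : List ℕ) (u : ℕ) : ℕ := l.idxOf u

/-- Skip the value `v`. -/
def gs (v a : ℕ) : ℕ := if a < v then a else a + 1

/-- Insert the letter `v` at place `p`, raising the letters `≥ v`. -/
def ins (p v : ℕ) (r : List ℕ) : List ℕ :=
  (r.map (gs v)).take p ++ v :: (r.map (gs v)).drop p

/-- The number of rounds until the word is used up. -/
noncomputable def life (W : List ℕ) : ℕ := sInf {t | (outp [])^[t] W = []}

/-- The number of larger letters to the left of `u` at time `t`. -/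
def el (n : ℕ) (p : ℕ → ℕ → ℕ) (t u : ℕ) : ℕ :=
  ((Ioc u n).filter fun a => p t a < p t u).card

/-- The orbit as a family of places `p t u`, letters `v t i`, last moving places `P t` and the
letters `w t` standing there. -/
structure Dyn (n k : ℕ) (p v : ℕ → ℕ → ℕ) (P w : ℕ → ℕ) : Prop where
  lt : ∀ t u, 1 ≤ u → u ≤ n → p t u < n
  vp : ∀ t u, 1 ≤ u → u ≤ n → v t (p t u) = u
  pv : ∀ t i, i < n → 1 ≤ v t i ∧ v t i ≤ n ∧ p t (v t i) = i
  rule : ∀ t a b, 1 ≤ b → b < a → a ≤ n → (p (t + 1) a < p (t + 1) b ↔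
    ∃ c, a < c ∧ c ≤ n ∧ p t a < p t c ∧ p t c < p t b)
  conv : ∀ t u, 1 ≤ u → u ≤ n → 2 * el n p (t + 1) u ≤ el n p t u + el n p (t + 2) u
  fin : ∀ u, 1 ≤ u → u ≤ n → p k u + 1 = u
  walk : ∀ t, t < k → 1 ≤ w t ∧ w t < P t ∧ P t ≤ n ∧ p t (w t) + 1 = P t
  fix : ∀ t, t < k → ∀ a, P t < a → a ≤ n → p t a + 1 = a
  dec : ∀ t, t + 1 < k → P (t + 1) < P t

/-- Every column is an integer combination of the pivot columns. -/
def LP (n k : ℕ) (v : ℕ → ℕ → ℕ) (P : ℕ → ℕ) : Prop :=
  ∀ a < n, ∃ c : ℕ → ℤ, ∀ t < k,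
    (v t a : ℤ) - (a + 1) = ∑ i ∈ range k, c i * ((v t (P i - 1) : ℤ) - P i)

/-- The product of the first `i` factors of the upper bound for the volume. -/
noncomputable def FF (k : ℕ) (P w : ℕ → ℕ) (i : ℕ) : ℝ :=
  ∏ t ∈ range i, ((P t - w t : ℕ) : ℝ) / (k - t : ℕ)

/-- Right-to-left maxima among the letters above `u` at the places below `p`. -/
def rcd (n : ℕ) (π : ℕ → ℕ) (p u : ℕ) : ℕ :=
  ((Ioc u n).filter fun a => π a < p ∧ ∀ c ∈ Ioc a n, ¬(π a < π c ∧ π c < p)).card

/-- The letters `a, a+1, a+2` are not in increasing order. -/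
def NI (π : ℕ → ℕ) (a : ℕ) : Prop := π (a + 1) < π a ∨ π (a + 2) < π (a + 1)

instance (π : ℕ → ℕ) : DecidablePred (NI π) := fun _ => by unfold NI; infer_instance

/-- The number of windows of `3 s` values above `v` without an increasing triple. -/
def badW (n s : ℕ) (π : ℕ → ℕ) (v : ℕ) : ℕ :=
  ((range n).filter fun i => v ≤ 3 * s * i ∧ 3 * s * (i + 1) ≤ n ∧
    ∀ r < s, NI π (3 * s * i + 1 + 3 * r)).card

def G1 (n x : ℕ) (π : ℕ → ℕ) : Prop := ∀ p ≤ n, ∀ u ≤ n, rcd n π p u ≤ x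

def G2 (n x : ℕ) (π : ℕ → ℕ) : Prop :=
  ∀ a b c d, b ≤ n → 1 ≤ c → d ≤ n + 1 → x * n ≤ (b - a) * (d - c) →
    ∃ u, c ≤ u ∧ u < d ∧ a ≤ π u ∧ π u < b

def G3 (n q x : ℕ) (π : ℕ → ℕ) : Prop :=
  ∀ v ≤ n, badW n (28 * q) π v ≤ (n - v) / x ^ 5 + 760

def G4 (n x : ℕ) (π : ℕ → ℕ) : Prop :=
  ∀ b m, 1 ≤ b → 2 ≤ m → b + 2 * m * x + 2 ≤ n →
    ∃ i < x, π (b + 2 * m * i) < π (b + 2 * m * i + 1)

/-- The range of the parameters. -/
structure Par (q x n : ℕ) : Prop where
  hq : 10000 ≤ q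
  hx : x = 2 ^ q
  lo : x ^ 250 ≤ n
  hi : n ≤ x ^ 251

/-- An extreme letter at an extreme place. -/
def Spec (n S : ℕ) (π : ℕ → ℕ) (u : ℕ) : Prop :=
  1 ≤ u ∧ u ≤ n ∧ (u ≤ S ∨ n < u + S) ∧ (π u < S ∨ n ≤ π u + S)

/-- A top letter near the end. -/
def TE (n S : ℕ) (π : ℕ → ℕ) (z : ℕ) : Prop := 2 ≤ z ∧ z ≤ n ∧ n < z + S ∧ n ≤ π z + S

def Three (n S : ℕ) (π : ℕ → ℕ) : Prop :=
  ∃ a b c, a ≠ b ∧ a ≠ c ∧ b ≠ c ∧ Spec n S π a ∧ Spec n S π b ∧ Spec n S π c

/-- The letter `y` near the end, right of `u`, is fixed up to `S` by `T u`. -/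
def Pin (n S : ℕ) (π T : ℕ → ℕ) (u y : ℕ) : Prop :=
  u < y ∧ y ≤ n ∧ π u < π y ∧ n ≤ π y + S ∧ y + T u ≤ n ∧ n ≤ y + T u + S

def Eps (n S N : ℕ) (π T : ℕ → ℕ) : Prop :=
  ∃ u y z, (u = 1 ∨ u = 2) ∧ Pin n S π T u y ∧ TE n S π z ∧ z ≠ y ∧ (π 1 < N ∨ n ≤ π 1 + N)

def Del (n S A B : ℕ) (π T : ℕ → ℕ) : Prop :=
  ∃ y u z, Pin n S π T 1 y ∧ TE n S π z ∧ z ≠ y ∧ z ≠ u ∧ u ≠ y ∧ 1 < u ∧ u ≤ n ∧ π 1 < π u ∧
    n ≤ π u + A ∧ u ≤ y + B ∧ y ≤ u + B

def MainP (n : ℕ) (π : ℕ → ℕ) : Prop := π 1 + 1 = n ∧ π (n - 1) + 2 = n ∧ π n < π (n - 2)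

lemma Par.sq {q x n : ℕ} (h : Par q x n) : 10000 * q ≤ x := by
  have h1 : ∀ m, 4 ≤ m → m * m ≤ 2 ^ m := by
    intro m hm
    induction m, hm using Nat.le_induction with
    | base => norm_num
    | succ m hm ih => rw [pow_succ]; nlinarith
  have := h1 q (by have := h.hq; omega)
  rw [h.hx]
  nlinarith [h.hq]

lemma Par.big {q x n : ℕ} (h : Par q x n) : 100000000 ≤ x := by
  have := h.sq; have := h.hq; omega

/-- A constant times a smaller power is below a larger power. -/
lemma Par.pw {q x n : ℕ} (h : Par q x n) (c a b : ℕ) (hc : c ≤ 100000000) (hab : a < b) :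
    c * x ^ a ≤ x ^ b := by
  have := h.big
  calc c * x ^ a ≤ x * x ^ a := Nat.mul_le_mul_right _ (by omega)
    _ = x ^ (a + 1) := by ring
    _ ≤ x ^ b := Nat.pow_le_pow_right (by omega) hab

end Pool.Agent.StackSort
end

-- part Pool.Agent.P.MP_f1060b_co.QStep
section

namespace Pool.Agent.StackSort

open Finset

variable {n k : ℕ} {p v : ℕ → ℕ → ℕ} {P w : ℕ → ℕ}

lemma mem_el {t u a : ℕ} : a ∈ (Ioc u n).filter (fun a => p t a < p t u) ↔
    u < a ∧ a ≤ n ∧ p t a < p t u := by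
  simp [and_assoc]

namespace Dyn

variable (D : Dyn n k p v P w)
include D

lemma inj {t a b : ℕ} (a1 : 1 ≤ a) (a2 : a ≤ n) (b1 : 1 ≤ b) (b2 : b ≤ n) (h : p t a = p t b) :
    a = b := by
  rw [← D.vp t a a1 a2, h, D.vp t b b1 b2]

lemma tri (t : ℕ) {a b : ℕ} (a1 : 1 ≤ a) (a2 : a ≤ n) (b1 : 1 ≤ b) (b2 : b ≤ n) (h : a ≠ b) :
    p t a < p t b ∨ p t b < p t a := by
  have : p t a ≠ p t b := fun e => h (D.inj a1 a2 b1 b2 e)
  omega

lemma inv_le {s t a b : ℕ} (hst : s ≤ t) (hb : 1 ≤ b) (hab : b < a) (ha : a ≤ n)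
    (h : p t a < p t b) : p s a < p s b := by
  induction t, hst using Nat.le_induction with
  | base => exact h
  | succ t _ ih =>
    obtain ⟨c, -, -, h1, h2⟩ := (D.rule t a b hb hab ha).1 h
    exact ih (by omega)

lemma ninv_le {s t a b : ℕ} (hst : s ≤ t) (hb : 1 ≤ b) (hab : b < a) (ha : a ≤ n)
    (h : p s b < p s a) : p t b < p t a := by
  rcases D.tri t (a := a) (b := b) (by omega) ha hb (by omega) (by omega) with e | e
  · have := D.inv_le hst hb hab ha e
    omega
  · exact e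

lemma el_anti {s t u : ℕ} (hst : s ≤ t) (hu : 1 ≤ u) : el n p t u ≤ el n p s u :=
  card_le_card fun a ha => by
    rw [mem_el] at ha ⊢
    exact ⟨ha.1, ha.2.1, D.inv_le hst hu ha.1 ha.2.1 ha.2.2⟩

lemma el_zero {t u : ℕ} (h1 : 1 ≤ u) (h2 : u ≤ n) :
    el n p t u = 0 ↔ ∀ a, u < a → a ≤ n → p t u < p t a := by
  rw [el, card_eq_zero, filter_eq_empty_iff]
  constructor
  · intro h a a1 a2
    have := h (mem_Ioc.2 ⟨a1, a2⟩)
    rcases D.tri t (a := a) (b := u) (by omega) a2 h1 h2 (by omega) with e | e <;> omega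
  · intro h a ha
    have := h a (mem_Ioc.1 ha).1 (mem_Ioc.1 ha).2
    omega

lemma el_lt {t u : ℕ} (h1 : 1 ≤ u) (h : el n p t u ≠ 0) : el n p (t + 1) u < el n p t u := by
  obtain ⟨a, ha, hm⟩ := exists_max_image _ (p t) (card_ne_zero.1 h)
  refine card_lt_card ⟨fun b hb => ?_, fun hs => ?_⟩
  · rw [mem_el] at hb ⊢
    exact ⟨hb.1, hb.2.1, D.inv_le (Nat.le_succ t) h1 hb.1 hb.2.1 hb.2.2⟩
  · have := mem_el.1 (hs ha)
    obtain ⟨c, c1, c2, c3, c4⟩ := (D.rule t a u h1 this.1 this.2.1).1 this.2.2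
    have := hm c (mem_el.2 ⟨by omega, c2, c4⟩)
    omega

lemma el_fin {u : ℕ} (h1 : 1 ≤ u) (h2 : u ≤ n) : el n p k u = 0 :=
  (D.el_zero h1 h2).2 fun a a1 a2 => by
    have := D.fin u h1 h2
    have := D.fin a (by omega) a2
    omega

lemma el_drop {s u : ℕ} (h1 : 1 ≤ u) (m : ℕ) : el n p (s + m) u = 0 ∨
    el n p (s + m) u + m ≤ el n p s u := by
  induction m with
  | zero => simp
  | succ m ih =>
    by_cases h : el n p (s + m) u = 0
    · left
      have := D.el_anti (Nat.le_succ (s + m)) h1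
      rw [← add_assoc]
      simp only [Nat.succ_eq_add_one] at this
      omega
    · have := D.el_lt h1 h
      rw [← add_assoc]
      omega

lemma sig_le {s t u c : ℕ} (h1 : 1 ≤ u) (h2 : u ≤ n) (hst : s ≤ t)
    (h : el n p s u ≤ el n p (s + 1) u + c) : el n p t u ≤ el n p (t + 1) u + c := by
  induction t, hst using Nat.le_induction with
  | base => exact h
  | succ t _ ih =>
    have := D.conv t u h1 h2
    rw [show t + 1 + 1 = t + 2 from rfl]
    omega

lemma el_le_add {s t u c : ℕ} (h1 : 1 ≤ u) (h2 : u ≤ n) (hst : s ≤ t)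
    (h : el n p s u ≤ el n p (s + 1) u + c) : el n p s u ≤ el n p t u + c * (t - s) := by
  induction t, hst using Nat.le_induction with
  | base => simp
  | succ t ht ih =>
    have := D.sig_le h1 h2 ht h
    rw [show t + 1 - s = t - s + 1 by omega, mul_add]
    omega

lemma el_le_mul {s u c : ℕ} (h1 : 1 ≤ u) (h2 : u ≤ n) (hs : s ≤ k)
    (h : el n p s u ≤ el n p (s + 1) u + c) : el n p s u ≤ c * (k - s) := by
  have := D.el_le_add h1 h2 hs h
  rwa [D.el_fin h1 h2, zero_add] at this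

lemma pos_eq {t u : ℕ} (h1 : 1 ≤ u) (h2 : u ≤ n) :
    p t u = ((Icc 1 n).filter fun a => p t a < p t u).card := by
  conv_lhs => rw [← card_range (p t u)]
  have := D.lt t u h1 h2
  refine card_nbij' (v t) (p t) (fun i hi => ?_) (fun a ha => ?_) (fun i hi => ?_) fun a ha => ?_
  · have hi : i < p t u := by simpa using hi
    have := D.pv t i (by omega)
    simp only [coe_filter, mem_Icc, Set.mem_setOf_eq]
    omega
  · simp only [coe_filter, mem_Icc, Set.mem_setOf_eq] at ha
    simpa using ha.2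
  · have hi : i < p t u := by simpa using hi
    exact (D.pv t i (by omega)).2.2
  · simp only [coe_filter, mem_Icc, Set.mem_setOf_eq] at ha
    exact D.vp t a ha.1.1 ha.1.2

lemma el_le_pos {t u : ℕ} (h1 : 1 ≤ u) (h2 : u ≤ n) : el n p t u ≤ p t u := by
  rw [D.pos_eq h1 h2]
  exact card_le_card (filter_subset_filter _ fun a ha => by simp at ha ⊢; omega)

lemma pos_le {t u : ℕ} (h1 : 1 ≤ u) (h2 : u ≤ n) : p t u + 1 ≤ el n p t u + u := by
  rw [D.pos_eq h1 h2]
  have : ((Icc 1 n).filter fun a => p t a < p t u) ⊆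
      ((Ioc u n).filter fun a => p t a < p t u) ∪ Ico 1 u := fun a ha => by
    simp only [mem_filter, mem_Icc, mem_union, mem_Ioc, mem_Ico] at ha ⊢
    have : a ≠ u := by rintro rfl; omega
    omega
  have h := (card_le_card this).trans (card_union_le _ _)
  rw [Nat.card_Ico] at h
  unfold el
  omega

/-- A letter in the first `t + 1` places has no larger letter on its left at time `t`. -/
lemma dead {t d : ℕ} (h1 : 1 ≤ d) (h2 : d ≤ n) (h : p 0 d ≤ t) : el n p t d = 0 := by
  have := D.el_drop (s := 0) h1 t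
  have := D.el_le_pos (t := 0) h1 h2
  simp only [zero_add] at *
  omega

/-- The number of larger letters on the right is at most the number of places there. -/
lemma el_ge {t u : ℕ} (h1 : 1 ≤ u) (h2 : u ≤ n) : p t u + 1 ≤ el n p t u + u := D.pos_le h1 h2

lemma el_ge' {t u : ℕ} (h1 : 1 ≤ u) (h2 : u ≤ n) : el n p t u + u ≤ n := by
  have : el n p t u ≤ (Ioc u n).card := card_filter_le _ _
  rw [Nat.card_Ioc] at this
  omega

lemma below {t a : ℕ} (ht : t < k) (a1 : 1 ≤ a) (a2 : a ≤ P t) : p t a < P t := by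
  have W := D.walk t ht
  by_contra hc
  have := D.lt t a a1 (by omega)
  have e := D.fix t ht (p t a + 1) (by omega) (by omega)
  have := D.inj (t := t) (a := p t a + 1) (b := a) (by omega) (by omega) a1 (by omega) (by omega)
  omega

lemma last {t a : ℕ} (ht : t < k) (a1 : 1 ≤ a) (a2 : a ≤ P t) (h : a ≠ w t) :
    p t a < p t (w t) := by
  have W := D.walk t ht
  have := D.below ht a1 a2
  rcases D.tri t (a := a) (b := w t) a1 (by omega) W.1 (by omega) h with e | e <;> omega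

lemma lt_fix {t a b : ℕ} (ht : t < k) (a1 : 1 ≤ a) (a2 : a ≤ P t) (b1 : P t < b) (b2 : b ≤ n) :
    p t a < p t b := by
  have := D.below ht a1 a2
  have := D.fix t ht b b1 b2
  omega

/-- A letter left of a moving letter is moving. -/
lemma le_P {t a b : ℕ} (ht : t < k) (a2 : a ≤ n) (b1 : 1 ≤ b) (b2 : b ≤ P t)
    (h : p t a < p t b) : a ≤ P t := by
  by_contra hc
  have := D.lt_fix ht b1 b2 (not_le.1 hc) a2
  omega

lemma el_walk {t : ℕ} (ht : t < k) : el n p t (w t) = P t - w t := by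
  have W := D.walk t ht
  rw [el, ← Nat.card_Ioc]
  congr 1
  ext a
  rw [mem_el, mem_Ioc]
  constructor
  · rintro ⟨a1, a2, a3⟩
    exact ⟨a1, D.le_P ht a2 W.1 W.2.1.le a3⟩
  · rintro ⟨a1, a2⟩
    exact ⟨a1, by omega, D.last ht (by omega) a2 (by omega)⟩

lemma P_add {s : ℕ} (m : ℕ) (h : s + m < k) : P (s + m) + m ≤ P s := by
  induction m with
  | zero => simp
  | succ m ih =>
    have := ih (by omega)
    have := D.dec (s + m) (by omega)
    show P (s + m + 1) + (m + 1) ≤ P s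
    omega

lemma P_le {s t : ℕ} (hst : s ≤ t) (h : t < k) : P t + (t - s) ≤ P s := by
  have := D.P_add (s := s) (t - s) (by omega)
  rwa [show s + (t - s) = t by omega] at this

lemma reset {t : ℕ} (ht : t + 1 < k) (h : P (t + 1) < w t) : el n p (t + 1) (w t) = 0 := by
  have W := D.walk t (by omega)
  refine (D.el_zero W.1 (by omega)).2 fun a a1 a2 => ?_
  have := D.fix _ ht a (by omega) a2
  have := D.fix _ ht (w t) h (by omega)
  omega

lemma step_w {t : ℕ} (ht : t + 1 < k) (h : w t ≤ P (t + 1)) : w t ≤ w (t + 1) := by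
  have W := D.walk t (by omega)
  have W' := D.walk _ ht
  have hd := D.dec t ht
  by_contra hc
  have h1 := D.last ht W.1 h (by omega)
  obtain ⟨c, c1, c2, c3, c4⟩ := (D.rule t _ _ W'.1 (not_le.1 hc) (by omega)).1 h1
  have h2 := D.le_P (t := t) (by omega) c2 W'.1 (by omega) c4
  have := D.last (t := t) (a := c) (by omega) (by omega) h2 (by omega)
  omega

lemma step_block {t a : ℕ} (ht : t + 1 < k) (h : w t ≤ P (t + 1)) (a1 : P (t + 1) < a)
    (a2 : a < P t) : p t (a + 1) < p t a := by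
  have W := D.walk t (by omega)
  rcases D.tri t (a := a + 1) (b := a) (by omega) (by omega) (by omega) (by omega) (by omega)
    with e | e
  · exact e
  have h1 := (D.rule t a (w t) W.1 (by omega) (by omega)).2
    ⟨a + 1, by omega, by omega, e, D.last (by omega) (by omega) (by omega) (by omega)⟩
  have := D.lt_fix ht W.1 h a1 (by omega)
  omega

lemma step_sig {t : ℕ} (ht : t + 1 < k) :
    el n p (t + 1) (w (t + 1)) ≤ el n p (t + 2) (w (t + 1)) + (P t - P (t + 1)) := by
  classical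
  have W := D.walk t (by omega)
  have W' := D.walk _ ht
  have hd := D.dec t ht
  set y := w (t + 1) with hy
  set A := (Ioc y n).filter fun a => p (t + 1) a < p (t + 1) y with hA
  set B := (Ioc y n).filter fun a => p (t + 2) a < p (t + 2) y with hB
  have hrm : ∀ a ∈ A \ B, ∀ c, a < c → c ≤ n → p (t + 1) a < p (t + 1) c →
      ¬p (t + 1) c < p (t + 1) y := by
    intro a ha c c1 c2 c3 c4
    obtain ⟨a1, a2⟩ := mem_sdiff.1 ha
    rw [hA, mem_el] at a1
    exact a2 (mem_el.2 ⟨a1.1, a1.2.1, (D.rule (t + 1) a y W'.1 a1.1 a1.2.1).2 ⟨c, c1, c2, c3, c4⟩⟩)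
  have hex : ∀ a ∈ A \ B, ∃ c, a < c ∧ c ≤ n ∧ p t a < p t c ∧ p t c < p t y ∧
      ∀ d, a < d → d ≤ n → p t a < p t d → p t c ≤ p t d := by
    intro a ha
    have a1 := mem_el.1 (mem_sdiff.1 ha).1
    obtain ⟨c, c1, c2, c3, c4⟩ := (D.rule t a y W'.1 a1.1 a1.2.1).1 a1.2.2
    obtain ⟨d, hd, hm⟩ := exists_min_image ((Ioc a n).filter fun c => p t a < p t c) (p t)
      ⟨c, by simp [c1, c2, c3]⟩
    simp only [mem_filter, mem_Ioc] at hd hm
    have := hm c ⟨⟨c1, c2⟩, c3⟩
    exact ⟨d, hd.1.1, hd.1.2, hd.2, by omega, fun e e1 e2 e3 => hm e ⟨⟨e1, e2⟩, e3⟩⟩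
  choose! c c1 c2 c3 c4 c5 using hex
  have key : ∀ a ∈ A \ B, ∀ b ∈ A \ B, a < b → p t (c b) < p t (c a) := by
    intro a ha b hb hab
    have a1 := mem_el.1 (mem_sdiff.1 ha).1
    have b1 := mem_el.1 (mem_sdiff.1 hb).1
    have h1 : p (t + 1) b < p (t + 1) a := by
      rcases D.tri (t + 1) (a := a) (b := b) (by omega) a1.2.1 (by omega) b1.2.1 hab.ne with e | e
      · exact absurd b1.2.2 (hrm a ha b hab b1.2.1 e)
      · exact e
    obtain ⟨d, d1, d2, d3, d4⟩ := (D.rule t b a (by omega) hab b1.2.1).1 h1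
    have := c5 b hb d d1 d2 d3
    have := c3 a ha
    omega
  have hcard : (A \ B).card ≤ (Ioc (P (t + 1)) (P t)).card := by
    refine card_le_card_of_injOn c (fun a ha => ?_) fun a ha b hb e => ?_
    · have ha : a ∈ A \ B := ha
      have a1 := mem_el.1 (mem_sdiff.1 ha).1
      have h1 := D.le_P (t := t) (by omega) (c2 a ha) W'.1 (by omega) (c4 a ha)
      refine mem_coe.2 (mem_Ioc.2 ⟨?_, h1⟩)
      by_contra hc
      have h2 := c1 a ha
      refine hrm a ha (c a) h2 (c2 a ha)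
        (D.ninv_le (Nat.le_succ t) (by omega) h2 (c2 a ha) (c3 a ha)) ?_
      exact D.last ht (by omega) (not_lt.1 hc) (by omega)
    · rcases lt_trichotomy a b with h | h | h
      · have := key a ha b hb h
        rw [e] at this
        omega
      · exact h
      · have := key b hb a ha h
        rw [e] at this
        omega
  rw [Nat.card_Ioc] at hcard
  have := card_le_card_sdiff_add_card (s := A) (t := B)
  unfold el
  rw [← hA, ← hB]
  omega

/-- What stands left of `b` and above it stays left of `u`, once this holds. -/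
lemma inc {s t u b : ℕ} (hst : s ≤ t) (h1 : 1 ≤ u) (hub : u < b) (h : p s b < p s u) :
    ∀ c, b < c → c ≤ n → p t c < p t b → p t c < p t u := by
  induction t, hst using Nat.le_induction with
  | base => intro c _ _ _; omega
  | succ t _ ih =>
    intro c c1 c2 c3
    obtain ⟨d, d1, d2, d3, d4⟩ := (D.rule t c b (by omega) c1 c2).1 c3
    exact (D.rule t c u h1 (by omega) c2).2 ⟨d, d1, d2, d3, ih d (by omega) d2 d4⟩

lemma sig_rcd {u : ℕ} (h1 : 1 ≤ u) : el n p 0 u ≤ el n p 1 u + rcd n (p 0) (p 0 u) u := by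
  refine le_trans (card_le_card fun a ha => ?_) (card_union_le _ _)
  rw [mem_el] at ha
  rw [mem_union, mem_el, mem_filter, mem_Ioc]
  by_cases h : p 1 a < p 1 u
  · exact Or.inl ⟨ha.1, ha.2.1, h⟩
  · refine Or.inr ⟨⟨ha.1, ha.2.1⟩, ha.2.2, fun c hc hh => h ?_⟩
    exact (D.rule 0 a u h1 ha.1 ha.2.1).2 ⟨c, (mem_Ioc.1 hc).1, (mem_Ioc.1 hc).2, hh.1, hh.2⟩

lemma sig_G1 {x : ℕ} (h : G1 n x (p 0)) (t u : ℕ) (h1 : 1 ≤ u) (h2 : u ≤ n) :
    el n p t u ≤ el n p (t + 1) u + x := by
  refine D.sig_le h1 h2 (Nat.zero_le t) ((D.sig_rcd h1).trans ?_)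
  exact Nat.add_le_add_left (h _ (D.lt 0 u h1 h2).le u h2) _

end Dyn

end Pool.Agent.StackSort
end

-- part Pool.Agent.P.MP_f1060b_co.QRun
section

namespace Pool.Agent.StackSort

open Finset

variable {n k : ℕ} {p v : ℕ → ℕ → ℕ} {P w : ℕ → ℕ}

lemma G2.many {x M a c d : ℕ} {π : ℕ → ℕ} (h : G2 n x π) (hc : 1 ≤ c) (hd : d ≤ n + 1)
    (hM : x * n ≤ M * (d - c)) (r : ℕ) (hr : a + r * M ≤ n) :
    r ≤ ((Ico c d).filter fun u => a ≤ π u ∧ π u < a + r * M).card := by
  induction r with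
  | zero => simp
  | succ r ih =>
    rw [add_mul, one_mul, ← add_assoc] at hr ⊢
    obtain ⟨u, u1, u2, u3, u4⟩ := h (a + r * M) (a + r * M + M) c d hr hc hd
      (by rwa [Nat.add_sub_cancel_left])
    refine (ih (by omega)).trans_lt (card_lt_card ⟨fun b hb => ?_, fun hs => ?_⟩)
    · simp only [mem_filter] at hb ⊢
      exact ⟨hb.1, hb.2.1, by omega⟩
    · have := hs (mem_filter.2 ⟨mem_Ico.2 ⟨u1, u2⟩, by omega, u4⟩)
      simp only [mem_filter] at this
      omega

namespace Dyn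

variable (D : Dyn n k p v P w)
include D

lemma top_last {t a : ℕ} (ht : t < k) (h : el n p t (w t) ≤ el n p (t + 1) (w t) + 1)
    (a1 : w t < a) (a2 : a < P t) : p t a < p t (P t) := by
  have W := D.walk t ht
  by_contra hc
  obtain ⟨b, hb, hm⟩ := exists_max_image ((Ioc (w t) n).filter fun a => p t a < p t (w t)) (p t)
    ⟨a, mem_el.2 ⟨a1, by omega, D.last ht (by omega) a2.le (by omega)⟩⟩
  have ha := hm a (mem_el.2 ⟨a1, by omega, D.last ht (by omega) a2.le (by omega)⟩)
  have hP : P t ∈ (Ioc (w t) n).filter fun a => p t a < p t (w t) :=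
    mem_el.2 ⟨W.2.1, W.2.2.1, D.last ht (by omega) le_rfl (by omega)⟩
  have hne : b ≠ P t := by
    rintro rfl
    have := D.inj (t := t) (a := a) (b := P t) (by omega) (by omega) (by omega) W.2.2.1 (by omega)
    omega
  have hsub : ((Ioc (w t) n).filter fun a => p (t + 1) a < p (t + 1) (w t)) ⊆
      (((Ioc (w t) n).filter fun a => p t a < p t (w t)).erase (P t)).erase b := by
    intro c hc
    rw [mem_el] at hc
    obtain ⟨d, d1, d2, d3, d4⟩ := (D.rule t c _ W.1 hc.1 hc.2.1).1 hc.2.2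
    have := D.le_P ht d2 W.1 W.2.1.le d4
    have := hm d (mem_el.2 ⟨by omega, d2, d4⟩)
    refine mem_erase.2 ⟨by rintro rfl; omega, mem_erase.2 ⟨by omega, ?_⟩⟩
    exact mem_el.2 ⟨hc.1, hc.2.1, by omega⟩
  have h1 := card_le_card hsub
  rw [card_erase_of_mem (mem_erase.2 ⟨hne, hb⟩), card_erase_of_mem hP] at h1
  have h2 : 1 < ((Ioc (w t) n).filter fun a => p t a < p t (w t)).card :=
    one_lt_card.2 ⟨b, hb, _, hP, hne⟩
  unfold el at h
  omega

lemma sig_of_last {t u c : ℕ} (h1 : 1 ≤ u) (c2 : c ≤ n) (c3 : p t c < p t u)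
    (h : ∀ a, u < a → a ≤ n → p t a < p t u → a ≠ c → a < c ∧ p t a < p t c) :
    el n p t u ≤ el n p (t + 1) u + 1 := by
  refine le_trans (card_le_card fun a ha => ?_) (card_insert_le c _)
  rw [mem_el] at ha
  rw [mem_insert, mem_el]
  by_cases e : a = c
  · exact Or.inl e
  · have := h a ha.1 ha.2.1 ha.2.2 e
    exact Or.inr ⟨ha.1, ha.2.1, (D.rule t a u h1 ha.1 ha.2.1).2 ⟨c, this.1, c2, this.2, c3⟩⟩

lemma crun {s : ℕ} (hs : s < k) (h : el n p s (w s) ≤ el n p (s + 1) (w s) + 1) (m : ℕ)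
    (hm : m < P s - w s) : s + m < k ∧ w (s + m) = w s ∧ P (s + m) + m = P s := by
  have W := D.walk s hs
  induction m with
  | zero => simpa using hs
  | succ m ih =>
    obtain ⟨i1, i2, i3⟩ := ih (by omega)
    have h1 := D.el_le_add W.1 (by omega) (by omega : s ≤ s + m + 1) h
    rw [D.el_walk hs] at h1
    have hk : s + m + 1 < k := by
      by_contra hc
      rw [show s + m + 1 = k by omega, D.el_fin W.1 (by omega)] at h1
      omega
    have W' := D.walk _ hk
    have hd := D.dec _ hk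
    have hy : w s ≤ P (s + m + 1) := by
      by_contra hc
      have := D.reset hk (by omega)
      rw [i2] at this
      omega
    have h2 := D.step_w hk (by omega)
    have hsub : ((Ioc (w s) n).filter fun a => p (s + m + 1) a < p (s + m + 1) (w s)) ⊆
        (Ioc (w s) (P (s + m + 1))).erase (w (s + m + 1)) := fun a ha => by
      rw [mem_el] at ha
      refine mem_erase.2 ⟨?_, mem_Ioc.2 ⟨ha.1, D.le_P hk ha.2.1 W.1 hy ha.2.2⟩⟩
      rintro rfl
      have := D.last hk W.1 hy (by omega)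
      omega
    have h3 := card_le_card hsub
    have h4 : ((Ioc (w s) (P (s + m + 1))).erase (w (s + m + 1))).card ≤ P (s + m + 1) - w s := by
      rw [← Nat.card_Ioc]; exact card_erase_le
    refine ⟨hk, ?_, ?_⟩
    · by_contra hc
      rw [card_erase_of_mem (mem_Ioc.2 ⟨by rw [← add_assoc] at hc; omega, W'.2.1.le⟩),
        Nat.card_Ioc] at h3
      unfold el at h1
      omega
    · unfold el at h1
      show P (s + m + 1) + (m + 1) = P s
      omega

lemma rset_aux {s r : ℕ} (hs : s < k) (h : el n p s (w s) ≤ el n p (s + 1) (w s) + 1)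
    (r1 : 1 ≤ r) (hr : r < w s) (hp : p s (P s) < p s r) (m : ℕ) (hm : m < P s - w s) :
    p (s + m) (P (s + m)) < p (s + m) r ∧
      (((Ioc r n).filter fun a => p (s + m) (P (s + m)) < p (s + m) a ∧
          p (s + m) a < p (s + m) r).card = 0 ∨
        ((Ioc r n).filter fun a => p (s + m) (P (s + m)) < p (s + m) a ∧
          p (s + m) a < p (s + m) r).card + m ≤
        ((Ioc r n).filter fun a => p s (P s) < p s a ∧ p s a < p s r).card) := by
  have W := D.walk s hs
  induction m with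
  | zero => simpa using hp
  | succ m ih =>
    obtain ⟨i1, i2⟩ := ih (by omega)
    obtain ⟨a1, a2, a3⟩ := D.crun hs h m (by omega)
    obtain ⟨b1, b2, b3⟩ : s + m + 1 < k ∧ w (s + m + 1) = w s ∧ P (s + m + 1) + (m + 1) = P s :=
      D.crun hs h (m + 1) hm
    rw [← add_assoc s m 1]
    set t := s + m with ht
    have hσ : el n p t (w t) ≤ el n p (t + 1) (w t) + 1 := by
      rw [a2]; exact D.sig_le W.1 (by omega) (by omega) h
    have hl := D.top_last (a := P (t + 1)) a1 hσ (by omega) (by omega)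
    have hsub : ∀ a, r < a → a ≤ n → p (t + 1) (P (t + 1)) < p (t + 1) a →
        p (t + 1) a < p (t + 1) r → p t (P t) < p t a ∧ p t a < p t r ∧
          ∃ c, a < c ∧ c ≤ n ∧ p t a < p t c ∧ p t c < p t r := by
      intro a c1 c2 c3 c4
      have e1 := D.le_P b1 c2 r1 (by omega) c4
      have e2 : a ≠ P (t + 1) := by rintro rfl; omega
      obtain ⟨c, d1, d2, d3, d4⟩ := (D.rule t (P (t + 1)) a (by omega) (by omega) (by omega)).1 c3
      have e3 := D.le_P a1 d2 (by omega : 1 ≤ a) (by omega) d4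
      obtain rfl : c = P t := by omega
      exact ⟨d4, D.inv_le (Nat.le_succ t) r1 c1 c2 c4, (D.rule t a r r1 c1 c2).1 c4⟩
    refine ⟨(D.rule t _ r r1 (by omega) (by omega)).2 ⟨P t, by omega, by omega, hl, i1⟩, ?_⟩
    by_cases h0 : ((Ioc r n).filter fun a => p t (P t) < p t a ∧ p t a < p t r).card = 0
    · left
      rw [card_eq_zero, filter_eq_empty_iff] at h0 ⊢
      intro a ha hh
      have := hsub a (mem_Ioc.1 ha).1 (mem_Ioc.1 ha).2 hh.1 hh.2
      exact h0 ha ⟨this.1, this.2.1⟩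
    · right
      obtain ⟨b, hb, hm⟩ := exists_max_image _ (p t) (card_ne_zero.1 h0)
      have : ((Ioc r n).filter fun a => p (t + 1) (P (t + 1)) < p (t + 1) a ∧
          p (t + 1) a < p (t + 1) r) ⊆
          ((Ioc r n).filter fun a => p t (P t) < p t a ∧ p t a < p t r).erase b := by
        intro a ha
        simp only [mem_filter, mem_Ioc] at ha
        obtain ⟨e1, e2, c, d1, d2, d3, d4⟩ := hsub a ha.1.1 ha.1.2 ha.2.1 ha.2.2
        refine mem_erase.2 ⟨?_, mem_filter.2 ⟨mem_Ioc.2 ha.1, e1, e2⟩⟩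
        rintro rfl
        have := hm c (mem_filter.2 ⟨mem_Ioc.2 ⟨by omega, d2⟩, by omega, d4⟩)
        omega
      have := card_le_card this
      rw [card_erase_of_mem hb] at this
      omega

lemma end_of_inv {x M t r c d : ℕ} (h : G2 n x (p 0)) (r1 : 1 ≤ r) (hc : r ≤ c) (hd : d ≤ n)
    (hM : x * n ≤ M * (d - c)) (hi : ∀ a, c < a → a ≤ d → p t a < p t r) : n ≤ p 0 r + M := by
  by_contra hn
  obtain ⟨u, u1, u2, u3, u4⟩ := h (p 0 r + 1) (p 0 r + 1 + M) (c + 1) (d + 1) (by omega) (by omega)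
    (by omega) (by rwa [Nat.add_sub_cancel_left, Nat.add_sub_add_right])
  have := D.inv_le (Nat.zero_le t) r1 (by omega : r < u) (by omega) (hi u (by omega) (by omega))
  omega

lemma card_end (M : ℕ) : ((Icc 1 n).filter fun a => n ≤ p 0 a + M).card ≤ M := by
  have : ((Icc 1 n).filter fun a => n ≤ p 0 a + M).card ≤ (Ico (n - M) n).card := by
    refine card_le_card_of_injOn (p 0) (fun a ha => ?_) fun a ha b hb e => ?_
    · simp only [coe_filter, mem_Icc, Set.mem_setOf_eq] at ha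
      have := D.lt 0 a ha.1.1 ha.1.2
      simp only [coe_Ico, Set.mem_Ico]
      omega
    · simp only [coe_filter, mem_Icc, Set.mem_setOf_eq] at ha hb
      exact D.inj ha.1.1 ha.1.2 hb.1.1 hb.1.2 e
  rw [Nat.card_Ico] at this
  omega

/-- A letter between the top letter and the walker soon loses one larger letter per round. -/
lemma rset {x M s r : ℕ} (G : G2 n x (p 0)) (hs : s < k)
    (h : el n p s (w s) ≤ el n p (s + 1) (w s) + 1) (hM : x * n ≤ M * (P s - w s))
    (hδ : M < P s - w s) (r1 : 1 ≤ r) (hr : r < w s) (hp : p s (P s) < p s r) :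
    el n p (s + M) r ≤ el n p (s + M + 1) r + 1 := by
  have W := D.walk s hs
  obtain ⟨i1, i2⟩ := D.rset_aux hs h r1 hr hp M hδ
  obtain ⟨a1, a2, a3⟩ := D.crun hs h M hδ
  have h1 : ((Ioc r n).filter fun a => p s (P s) < p s a ∧ p s a < p s r).card ≤ M := by
    refine le_trans (card_le_card fun a ha => ?_) (D.card_end M)
    simp only [mem_filter, mem_Ioc, mem_Icc] at ha ⊢
    have e1 := D.le_P hs ha.1.2 r1 (by omega) ha.2.2
    have e2 : a ≠ P s := by rintro rfl; omega
    have e3 : a ≤ w s := by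
      by_contra hc
      have := D.top_last hs h (not_le.1 hc) (by omega)
      omega
    refine ⟨⟨by omega, ha.1.2⟩, D.end_of_inv (t := s) G (by omega) e3 W.2.2.1 hM fun b b1 b2 => ?_⟩
    rcases b2.eq_or_lt with rfl | b2
    · exact ha.2.1
    · exact (D.top_last hs h b1 b2).trans ha.2.1
  have h2 : ((Ioc r n).filter fun a => p (s + M) (P (s + M)) < p (s + M) a ∧
      p (s + M) a < p (s + M) r).card = 0 := by omega
  rw [card_eq_zero, filter_eq_empty_iff] at h2
  refine D.sig_of_last r1 (by omega) i1 fun a c1 c2 c3 c4 => ?_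
  have e1 := D.le_P a1 c2 r1 (by omega) c3
  have := h2 (mem_Ioc.2 ⟨c1, c2⟩)
  have := D.tri (s + M) (a := a) (b := P (s + M)) (by omega) c2 (by omega) (by omega) c4
  omega

lemma piv_zero {t i : ℕ} (hi : i < t) (ht : t < k) : v t (P i - 1) = P i := by
  have W := D.walk i (by omega)
  have := D.P_le hi.le ht
  have e := D.fix t ht (P i) (by omega) W.2.2.1
  rw [show P i - 1 = p t (P i) by omega, D.vp t _ (by omega) W.2.2.1]

lemma piv_diag {t : ℕ} (ht : t < k) : v t (P t - 1) = w t := by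
  have W := D.walk t ht
  rw [show P t - 1 = p t (w t) by omega, D.vp t _ W.1 (by omega)]

lemma row {t : ℕ} (c : ℕ → ℤ) (ht : t < k) (hc : ∀ j, t < j → j < k → c j = 0) :
    ∑ i ∈ range k, c i * ((v t (P i - 1) : ℤ) - P i) = -(c t * ((P t - w t : ℕ) : ℤ)) := by
  have W := D.walk t ht
  rw [sum_eq_single t, D.piv_diag ht, Nat.cast_sub W.2.1.le]
  · ring
  · intro i hi hne
    rcases lt_or_gt_of_ne hne with h | h
    · rw [D.piv_zero h ht, sub_self, mul_zero]
    · rw [hc i h (mem_range.1 hi), zero_mul]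
  · intro h
    exact absurd (mem_range.2 ht) h

lemma div (L : LP n k v P) {t a : ℕ} (ht : t < k) (ha : a < n)
    (h : ∀ s, t < s → s < k → v s a = a + 1) :
    ((P t - w t : ℕ) : ℤ) ∣ (v t a : ℤ) - (a + 1) := by
  obtain ⟨c, hc⟩ := L a ha
  have key : ∀ m j, t < j → j < k → k - j ≤ m → c j = 0 := by
    intro m
    induction m with
    | zero => intro j _ _ _; omega
    | succ m ih =>
      intro j j1 j2 j3
      have e := hc j j2
      rw [D.row c j2 fun i i1 i2 => ih i (by omega) i2 (by omega), h j j1 j2] at e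
      have W := D.walk j j2
      have : P j - w j ≠ 0 := by omega
      push_cast at e
      simpa [this] using e
  rw [hc t ht, D.row c ht fun j j1 j2 => key _ j j1 j2 le_rfl]
  exact (dvd_neg).2 (Dvd.intro_left _ rfl)

end Dyn

end Pool.Agent.StackSort
end

-- part Pool.Agent.P.MP_f1060b_co.QProd
section

namespace Pool.Agent.StackSort

open Finset

variable {n k : ℕ} {p v : ℕ → ℕ → ℕ} {P w : ℕ → ℕ}

lemma badW_anti (s : ℕ) (π : ℕ → ℕ) {a b : ℕ} (h : a ≤ b) : badW n s π b ≤ badW n s π a :=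
  card_le_card fun i hi => by
    simp only [mem_filter] at hi ⊢
    exact ⟨hi.1, by omega, hi.2.2⟩

lemma win_bound {s lo hi : ℕ} {π : ℕ → ℕ} (hs : 0 < s) (h1 : lo ≤ hi) (h2 : hi ≤ n)
    (h : ∀ a, lo < a → a < hi → NI π a) :
    hi - lo + 3 * s * badW n s π hi ≤ 3 * s * (badW n s π lo + 2) := by
  have hl : 0 < 3 * s := by omega
  have key : badW n s π hi + (hi / (3 * s) - (lo / (3 * s) + 1)) ≤ badW n s π lo := by
    rw [← Nat.card_Ico, badW, ← card_union_of_disjoint]
    · refine card_le_card fun i hi' => ?_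
      simp only [mem_union, mem_filter, mem_Ico, mem_range] at hi' ⊢
      rcases hi' with hi' | hi'
      · exact ⟨hi'.1, by omega, hi'.2.2⟩
      · have e1 : 3 * s * (lo / (3 * s) + 1) ≤ 3 * s * i := Nat.mul_le_mul_left _ hi'.1
        have e2 : 3 * s * (i + 1) ≤ 3 * s * (hi / (3 * s)) := Nat.mul_le_mul_left _ hi'.2
        have e3 := Nat.mul_div_le hi (3 * s)
        have e4 := Nat.lt_mul_div_succ lo hl
        have e5 : i + 1 ≤ 3 * s * (i + 1) := Nat.le_mul_of_pos_left _ hl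
        rw [mul_add, mul_one] at e2 e5
        refine ⟨by omega, by omega, by rw [mul_add]; omega, fun r hr => h _ (by omega) (by omega)⟩
    · refine disjoint_left.2 fun i h3 h4 => ?_
      simp only [mem_filter, mem_Ico] at h3 h4
      have e2 : 3 * s * (i + 1) ≤ 3 * s * (hi / (3 * s)) := Nat.mul_le_mul_left _ h4.2
      have e3 := Nat.mul_div_le hi (3 * s)
      rw [mul_add, mul_one] at e2
      omega
  have e1 := Nat.mul_div_le lo (3 * s)
  have e2 := Nat.lt_mul_div_succ hi hl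
  have e3 := Nat.mul_le_mul_left (3 * s) key
  have e4 : 3 * s * (hi / (3 * s) + 1) ≤
      3 * s * (lo / (3 * s) + (hi / (3 * s) - (lo / (3 * s) + 1)) + 2) :=
    Nat.mul_le_mul_left _ (by omega)
  simp only [mul_add] at *
  omega

lemma FF_succ (i : ℕ) :
    FF k P w (i + 1) = FF k P w i * (((P i - w i : ℕ) : ℝ) / (k - i : ℕ)) := prod_range_succ _ _

lemma FF_nonneg (i : ℕ) : 0 ≤ FF k P w i := prod_nonneg fun _ _ => by positivity

lemma FF_add_le {c : ℝ} (a b : ℕ)
    (h : ∀ t, a ≤ t → t < a + b → ((P t - w t : ℕ) : ℝ) / (k - t : ℕ) ≤ c) :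
    FF k P w (a + b) ≤ FF k P w a * c ^ b := by
  rw [FF, prod_range_add]
  refine mul_le_mul_of_nonneg_left ?_ (FF_nonneg a)
  rw [← card_range b, ← prod_const, card_range]
  exact prod_le_prod (fun _ _ => by positivity) fun t ht =>
    h _ (by omega) (by have := mem_range.1 ht; omega)

lemma big_two {H j d : ℕ} (hH : 2 ≤ H) (h : H * j < H * d + j) : j ≤ 2 * d := by
  by_contra hc
  obtain ⟨a, rfl⟩ : ∃ a, H = a + 2 := ⟨H - 2, by omega⟩
  nlinarith [Nat.mul_le_mul_left a (by omega : d ≤ j)]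

lemma two_mul_le_pow (b : ℕ) : 2 * b ≤ 2 ^ b := by
  rcases b with _ | b
  · simp
  · have := Nat.lt_two_pow_self (n := b)
    rw [pow_succ]
    omega

lemma crun_prod (j d : ℕ) : ∏ m ∈ range d, ((d - m : ℕ) : ℝ) / (d + j - m : ℕ) =
    d.factorial * j.factorial / (d + j).factorial := by
  induction d with
  | zero =>
    have : (j.factorial : ℝ) ≠ 0 := by positivity
    simp [this]
  | succ d ih =>
    rw [prod_range_succ']
    simp only [Nat.add_sub_add_right, show ∀ m, d + 1 + j - (m + 1) = d + j - m from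
      fun m => by omega, ih, Nat.sub_zero]
    rw [show d + 1 + j = d + j + 1 by ring, Nat.factorial_succ, Nat.factorial_succ]
    push_cast
    field_simp

lemma crun_bound {K j d : ℕ} (h : 2 * K * j ≤ d) :
    (d.factorial * j.factorial / (d + j).factorial : ℝ) * K ^ j ≤ (1 / 2) ^ j := by
  have h1 : d.factorial * j.factorial * K ^ j * 2 ^ j ≤ (d + j).factorial := by
    refine le_trans ?_ Nat.factorial_mul_pow_le_factorial
    rw [mul_assoc, mul_assoc]
    refine Nat.mul_le_mul_left _ ?_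
    calc j.factorial * (K ^ j * 2 ^ j) ≤ j ^ j * (K ^ j * 2 ^ j) :=
          Nat.mul_le_mul_right _ (Nat.factorial_le_pow j)
      _ = (2 * K * j) ^ j := by ring
      _ ≤ (d + 1) ^ j := Nat.pow_le_pow_left (by omega) _
  have h2 : (0 : ℝ) < (d + j).factorial := by positivity
  rw [div_mul_eq_mul_div, one_div, inv_pow, div_le_iff₀ h2, inv_mul_eq_div,
    le_div_iff₀ (by positivity)]
  exact_mod_cast h1

namespace Dyn

variable (D : Dyn n k p v P w)
include D

lemma f_le {t c : ℕ} (ht : t < k) (h : el n p t (w t) ≤ el n p (t + 1) (w t) + c) :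
    ((P t - w t : ℕ) : ℝ) / (k - t : ℕ) ≤ c := by
  have W := D.walk t ht
  have := D.el_le_mul W.1 (by omega) ht.le h
  rw [D.el_walk ht] at this
  rw [div_le_iff₀ (Nat.cast_pos.2 (by omega))]
  exact_mod_cast this

lemma tail {K s : ℕ} (hK : ∀ t u, 1 ≤ u → u ≤ n → el n p t u ≤ el n p (t + 1) u + K) (hs : s < k)
    (h : el n p s (w s) ≤ el n p (s + 1) (w s) + 1) {j : ℕ} (hj : s + (P s - w s) + j = k)
    (h2 : 2 * K * j ≤ P s - w s) : FF k P w k ≤ FF k P w s * (1 / 2) ^ j := by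
  have e1 : FF k P w (s + (P s - w s) + j) ≤ FF k P w (s + (P s - w s)) * (K : ℝ) ^ j :=
    FF_add_le _ _ fun t _ t2 => by
      have W := D.walk t (by omega)
      exact D.f_le (by omega) (hK t _ W.1 (by omega))
  have e2 : FF k P w (s + (P s - w s)) = FF k P w s *
      ((P s - w s).factorial * j.factorial / (P s - w s + j).factorial) := by
    rw [FF, prod_range_add, ← crun_prod]
    congr 1
    refine prod_congr rfl fun m hm => ?_
    obtain ⟨a1, a2, a3⟩ := D.crun hs h m (mem_range.1 hm)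
    rw [a2, show P (s + m) - w s = P s - w s - m by omega,
      show k - (s + m) = P s - w s + j - m by omega]
  rw [hj, e2, mul_assoc] at e1
  exact e1.trans (mul_le_mul_of_nonneg_left (crun_bound h2) (FF_nonneg s))

lemma big_end {x K M js t : ℕ} (hK : ∀ t u, 1 ≤ u → u ≤ n → el n p t u ≤ el n p (t + 1) u + K)
    (G : G2 n x (p 0)) (hM : 2 * x * n ≤ M * js) (ht : t < k) (h : js ≤ 2 * (P t - w t)) :
    n ≤ p 0 (w t) + M ∧ n ≤ P t + K * t + M := by
  have W := D.walk t ht
  have h1 : n ≤ p 0 (w t) + M := by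
    refine D.end_of_inv (t := t) G W.1 le_rfl W.2.2.1 ?_ fun a a1 a2 =>
      D.last ht (by omega) a2 (by omega)
    have := Nat.mul_le_mul_left M h
    nlinarith
  refine ⟨h1, ?_⟩
  have h2 := D.el_le_add W.1 (by omega) (Nat.zero_le t) (hK 0 _ W.1 (by omega))
  rw [D.el_walk ht, Nat.sub_zero] at h2
  have h3 : n - w t ≤ el n p 0 (w t) + M := by
    rw [← Nat.card_Ioc]
    refine le_trans (card_le_card fun a ha => ?_) ((card_union_le _ _).trans
      (Nat.add_le_add_left (D.card_end M) _))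
    rw [mem_Ioc] at ha
    rw [mem_union, mem_el, mem_filter, mem_Icc]
    have := D.tri 0 (a := a) (b := w t) (by omega) ha.2 W.1 (by omega) (by omega)
    omega
  omega

lemma pb {x K H M js s : ℕ} (hK : ∀ t u, 1 ≤ u → u ≤ n → el n p t u ≤ el n p (t + 1) u + K)
    (G : G2 n x (p 0)) (hK1 : 1 ≤ K) (hH : 2 ≤ H) (hM : 2 * x * n ≤ M * js) (hs : 0 < s)
    (hD : 4 * K ^ 2 * 2 ^ (6 * s) ≤ js) (i : ℕ)
    (hi : ∀ t ≤ i, js ≤ k - t ∧ (H * (k - t) < H * (P t - w t) + (k - t) →
      el n p (t + 1) (w t) + 1 < el n p t (w t))) :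
    (∃ u, P i ≤ u ∧ u ≤ n ∧ n ≤ u + K * i + M ∧ FF k P w (i + 1) ≤ (1 - 1 / H) ^ (i + 1) *
      (2 * K * 2 ^ (6 * s) * 2 ^ (3 * s * badW n s (p 0) u)) *
        if P (i + 1) < w i then 2 * K / (js : ℝ) else 1) ∧
    (H * (k - i) < H * (P i - w i) + (k - i) → ∃ u, P i ≤ u ∧ u ≤ n ∧ FF k P w (i + 1) ≤
      (1 - 1 / H) ^ (i + 1) * (2 * K * 2 ^ (3 * s * badW n s (p 0) u) * 2 ^ (u - P i)) ∧
      (∀ a, P i < a → a < u → NI (p 0) a) ∧ (P i < u → p 0 (P i + 2) < p 0 (P i + 1))) := by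
  have hp1 : 1 ≤ 2 ^ (6 * s) := Nat.one_le_two_pow
  have hjs : 4 * K ≤ js := by nlinarith
  have hH' : (2 : ℝ) ≤ H := by exact_mod_cast hH
  have hK' : (1 : ℝ) ≤ K := by exact_mod_cast hK1
  have hjs' : (0 : ℝ) < js := Nat.cast_pos.2 (by omega)
  set c : ℝ := 1 - 1 / H with hc
  have hc1 : 1 / 2 ≤ c := by
    have : (1 : ℝ) / H ≤ 1 / 2 := one_div_le_one_div_of_le (by norm_num) hH'
    linarith
  have he : 2 * K * 2 ^ (6 * s) * (2 * K / (js : ℝ)) ≤ 1 := by
    rw [← mul_div_assoc, div_le_one hjs']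
    have : ((4 * K ^ 2 * 2 ^ (6 * s) : ℕ) : ℝ) ≤ js := by exact_mod_cast hD
    push_cast at this
    linarith
  have he1 : 2 * K / (js : ℝ) ≤ 1 := by
    rw [div_le_one hjs']
    exact_mod_cast (by omega : 2 * K ≤ js)
  have small : ∀ t, t < k → js ≤ k - t → ¬H * (k - t) < H * (P t - w t) + (k - t) →
      ((P t - w t : ℕ) : ℝ) / (k - t : ℕ) ≤ c * if P (t + 1) < w t then 2 * K / (js : ℝ) else 1 := by
    intro t ht h1 h2
    have W := D.walk t ht
    have hj : (0 : ℝ) < (k - t : ℕ) := Nat.cast_pos.2 (by omega)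
    split_ifs with hr
    · have e := hK t _ W.1 (by omega)
      rw [D.reset (by omega) hr, D.el_walk ht, zero_add] at e
      calc ((P t - w t : ℕ) : ℝ) / (k - t : ℕ) ≤ K / js := by
            gcongr
        _ = 1 / 2 * (2 * K / js) := by ring
        _ ≤ c * (2 * K / js) := by gcongr
    · rw [mul_one, div_le_iff₀ hj, hc]
      have : ((H * (P t - w t) + (k - t) : ℕ) : ℝ) ≤ (H * (k - t) : ℕ) := by
        exact_mod_cast not_lt.1 h2
      rw [Nat.cast_add, Nat.cast_mul, Nat.cast_mul] at this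
      have h0 : (0 : ℝ) < H := by linarith
      field_simp
      linarith
  have anyf : ∀ t, t < k → ((P t - w t : ℕ) : ℝ) / (k - t : ℕ) ≤ c * (2 * K) := by
    intro t ht
    have W := D.walk t ht
    have := D.f_le ht (hK t _ W.1 (by omega))
    nlinarith
  have BA : ∀ t, t < k → js ≤ k - t → H * (k - t) < H * (P t - w t) + (k - t) →
      (∃ u, P t ≤ u ∧ u ≤ n ∧ FF k P w (t + 1) ≤
      c ^ (t + 1) * (2 * K * 2 ^ (3 * s * badW n s (p 0) u) * 2 ^ (u - P t)) ∧
      (∀ a, P t < a → a < u → NI (p 0) a) ∧ (P t < u → p 0 (P t + 2) < p 0 (P t + 1))) →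
      ∃ u, P t ≤ u ∧ u ≤ n ∧ n ≤ u + K * t + M ∧ FF k P w (t + 1) ≤ c ^ (t + 1) *
      (2 * K * 2 ^ (6 * s) * 2 ^ (3 * s * badW n s (p 0) u)) *
        if P (t + 1) < w t then 2 * K / (js : ℝ) else 1 := by
    rintro t ht h1 h2 ⟨u, u1, u2, u3, u4, -⟩
    have W := D.walk t ht
    have hb := big_two hH h2
    refine ⟨P t, le_rfl, W.2.2.1, (D.big_end hK G hM ht (by omega)).2, ?_⟩
    rw [if_neg, mul_one]
    · refine u3.trans (mul_le_mul_of_nonneg_left ?_ (by positivity))
      rw [mul_assoc, mul_assoc (2 * K : ℝ), ← pow_add, ← pow_add]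
      have := win_bound hs u1 u2 u4
      refine mul_le_mul_of_nonneg_left (pow_le_pow_right₀ (by norm_num) ?_) (by positivity)
      rw [mul_add] at this
      omega
    · intro hr
      have e := hK t _ W.1 (by omega)
      rw [D.reset (by omega) hr, D.el_walk ht, zero_add] at e
      omega
  induction i with
  | zero =>
    obtain ⟨h1, -⟩ := hi 0 le_rfl
    have hk : 0 < k := by omega
    have W := D.walk 0 hk
    have hB : H * (k - 0) < H * (P 0 - w 0) + (k - 0) → ∃ u, P 0 ≤ u ∧ u ≤ n ∧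
        FF k P w (0 + 1) ≤
        c ^ (0 + 1) * (2 * K * 2 ^ (3 * s * badW n s (p 0) u) * 2 ^ (u - P 0)) ∧
        (∀ a, P 0 < a → a < u → NI (p 0) a) ∧ (P 0 < u → p 0 (P 0 + 2) < p 0 (P 0 + 1)) := by
      refine fun _ => ⟨P 0, le_rfl, W.2.2.1, ?_, fun a _ _ => by omega, fun _ => by omega⟩
      rw [FF_succ, FF, prod_range_zero, one_mul, zero_add, pow_one, Nat.sub_self, pow_zero, mul_one]
      refine (anyf 0 hk).trans (mul_le_mul_of_nonneg_left ?_ (by linarith))
      exact le_mul_of_one_le_right (by positivity) (one_le_pow₀ (by norm_num))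
    refine ⟨?_, hB⟩
    by_cases hb : H * (k - 0) < H * (P 0 - w 0) + (k - 0)
    · exact BA 0 hk h1 hb (hB hb)
    · refine ⟨n, W.2.2.1, le_rfl, by omega, ?_⟩
      rw [FF_succ, FF, prod_range_zero, one_mul, zero_add, pow_one]
      refine (small 0 hk h1 hb).trans (mul_le_mul_of_nonneg_right ?_ (by split_ifs <;> positivity))
      refine le_mul_of_one_le_right (by linarith) (one_le_mul_of_one_le_of_one_le
        (one_le_mul_of_one_le_of_one_le (by linarith) ?_) ?_) <;> exact one_le_pow₀ (by norm_num)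
  | succ t ih =>
    obtain ⟨⟨u, u1, u2, u3, u4⟩, iB⟩ := ih fun r hr => hi r (by omega)
    obtain ⟨h1, h2⟩ := hi (t + 1) le_rfl
    have hk : t + 1 < k := by omega
    have W := D.walk t (by omega)
    have W' := D.walk _ hk
    have hd := D.dec t hk
    have hB : H * (k - (t + 1)) < H * (P (t + 1) - w (t + 1)) + (k - (t + 1)) →
        ∃ u, P (t + 1) ≤ u ∧ u ≤ n ∧ FF k P w (t + 1 + 1) ≤ c ^ (t + 1 + 1) *
        (2 * K * 2 ^ (3 * s * badW n s (p 0) u) * 2 ^ (u - P (t + 1))) ∧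
        (∀ a, P (t + 1) < a → a < u → NI (p 0) a) ∧
        (P (t + 1) < u → p 0 (P (t + 1) + 2) < p 0 (P (t + 1) + 1)) := by
      intro hb
      by_cases hr : P (t + 1) < w t
      · refine ⟨P (t + 1), le_rfl, W'.2.2.1, ?_, fun a _ _ => by omega, fun _ => by omega⟩
        rw [if_pos hr] at u4
        have e1 : (2 : ℝ) ^ (3 * s * badW n s (p 0) u) ≤ 2 ^ (3 * s * badW n s (p 0) (P (t + 1))) :=
          pow_le_pow_right₀ (by norm_num) (Nat.mul_le_mul_left _ (badW_anti s _ (by omega)))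
        have e2 : FF k P w (t + 1) ≤ c ^ (t + 1) * 2 ^ (3 * s * badW n s (p 0) (P (t + 1))) := by
          refine u4.trans ?_
          rw [mul_assoc]
          refine mul_le_mul_of_nonneg_left ?_ (by positivity)
          rw [mul_right_comm]
          exact (mul_le_of_le_one_left (by positivity) he).trans e1
        rw [FF_succ, Nat.sub_self, pow_zero, mul_one]
        calc _ ≤ c ^ (t + 1) * 2 ^ (3 * s * badW n s (p 0) (P (t + 1))) * (c * (2 * K)) :=
              mul_le_mul e2 (anyf _ hk) (by positivity) (by positivity)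
          _ = _ := by ring
      · have hw := D.step_w hk (not_lt.1 hr)
        have hbt : H * (k - t) < H * (P t - w t) + (k - t) := by
          have a1 : H * (P (t + 1) - w (t + 1) + 1) ≤ H * (P t - w t) :=
            Nat.mul_le_mul_left _ (by omega)
          rw [show k - t = k - (t + 1) + 1 by omega]
          rw [mul_add] at a1 ⊢
          omega
        obtain ⟨z, z1, z2, z3, z4, z5⟩ := iB hbt
        have hsig := D.step_sig hk
        have h3 := h2 hb
        have hb2 : P (t + 1) + 2 ≤ P t := by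
          rw [show t + 1 + 1 = t + 2 from rfl] at h3
          omega
        have blk : ∀ a, P (t + 1) < a → a < P t → p 0 (a + 1) < p 0 a := fun a a1 a2 =>
          D.inv_le (Nat.zero_le t) (by omega) (by omega) (by omega)
            (D.step_block hk (not_lt.1 hr) a1 a2)
        refine ⟨z, by omega, z2, ?_, fun a a1 a2 => ?_, fun _ => blk _ (by omega) (by omega)⟩
        · have e1 := D.f_le hk hsig
          have e2 : ((2 * (P t - P (t + 1)) : ℕ) : ℝ) ≤ (2 ^ (P t - P (t + 1)) : ℕ) := by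
            exact_mod_cast two_mul_le_pow _
          rw [Nat.cast_mul, Nat.cast_pow, Nat.cast_ofNat] at e2
          have e3 : ((P (t + 1) - w (t + 1) : ℕ) : ℝ) / (k - (t + 1) : ℕ) ≤
              c * 2 ^ (P t - P (t + 1)) := by
            have : (0 : ℝ) < 2 ^ (P t - P (t + 1)) := by positivity
            nlinarith
          rw [FF_succ, show z - P (t + 1) = z - P t + (P t - P (t + 1)) by omega]
          calc _ ≤ _ := mul_le_mul z3 e3 (by positivity) (by positivity)
            _ = _ := by ring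
        · rcases lt_trichotomy a (P t) with e | e | e
          · exact Or.inl (blk a a1 e)
          · exact Or.inr (e ▸ z5 (by omega))
          · exact z4 a e a2
    refine ⟨?_, hB⟩
    by_cases hb : H * (k - (t + 1)) < H * (P (t + 1) - w (t + 1)) + (k - (t + 1))
    · exact BA _ hk h1 hb (hB hb)
    · refine ⟨u, by omega, u2, by rw [mul_add]; omega, ?_⟩
      have e2 : FF k P w (t + 1) ≤ c ^ (t + 1) *
          (2 * K * 2 ^ (6 * s) * 2 ^ (3 * s * badW n s (p 0) u)) := by
        refine u4.trans (mul_le_of_le_one_right (by positivity) ?_)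
        split_ifs
        · exact he1
        · exact le_rfl
      rw [FF_succ]
      calc _ ≤ _ := mul_le_mul e2 (small _ hk h1 hb) (by positivity) (by positivity)
        _ = _ := by ring

end Dyn

end Pool.Agent.StackSort
end
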