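import Pool.Agent.K.MP_f1060b_co.C2

namespace Pool.Agent.StackSort

open Finset

variable {q x n k : ℕ} {p v : ℕ → ℕ → ℕ} {P w : ℕ → ℕ}

lemma Par.js (h : Par q x n) : x ^ 244 ≤ n / x ^ 6 ∧ n / x ^ 6 * x ^ 6 ≤ n ∧
    n ≤ 2 * (n / x ^ 6) * x ^ 6 := by
  have hx := h.big
  have h0 : 0 < x ^ 6 := by positivity
  have h1 : x ^ 244 ≤ n / x ^ 6 := (Nat.le_div_iff_mul_le h0).2 (by rw [← pow_add]; exact h.lo)
  have h2 : 1 ≤ x ^ 244 := Nat.one_le_pow _ _ (by omega)
  have h3 := Nat.lt_div_mul_add (a := n) h0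
  refine ⟨h1, Nat.div_mul_le_self _ _, ?_⟩
  have := Nat.mul_le_mul_right (x ^ 6) (h2.trans h1)
  rw [mul_assoc]
  omega

lemma Par.hM (h : Par q x n) : 2 * x * n ≤ x ^ 8 * (n / x ^ 6) := by
  have h1 := Nat.mul_le_mul_left (2 * x) h.js.2.2
  have h2 := Nat.mul_le_mul_right (n / x ^ 6) (h.pw 4 7 8 (by norm_num) (by norm_num))
  calc 2 * x * n ≤ _ := h1
    _ = 4 * x ^ 7 * (n / x ^ 6) := by ring
    _ ≤ _ := h2

lemma two_pow_le_exp (m : ℕ) : (2 : ℝ) ^ m ≤ Real.exp m := by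
  rw [← mul_one (m : ℝ), Real.exp_nat_mul]
  refine pow_le_pow_left₀ (by norm_num) ?_ _
  have := Real.add_one_le_exp 1
  linarith

namespace Dyn

variable (D : Dyn n k p v P w)
include D

lemma FF_exp (h : Par q x n) (g1 : G1 n x (p 0)) (g2 : G2 n x (p 0)) (g3 : G3 n q x (p 0)) (i : ℕ)
    (hi : ∀ t < i, n / x ^ 6 ≤ k - t ∧ (x ^ 2 * (k - t) < x ^ 2 * (P t - w t) + (k - t) →
      el n p (t + 1) (w t) + 1 < el n p t (w t))) :
    FF k P w i ≤ Real.exp (2 * x ^ 4 - i / (2 * x ^ 2)) := by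
  have hx := h.big
  have hq := h.sq
  have hX : (100000000 : ℝ) ≤ x := by exact_mod_cast hx
  rcases i with _ | i
  · rw [FF, prod_range_zero]
    exact Real.one_le_exp (by simp)
  have e0 : 2 ^ (6 * (28 * q)) = x ^ 168 := by rw [h.hx, ← pow_mul]; congr 1; ring
  have hD : 4 * x ^ 2 * 2 ^ (6 * (28 * q)) ≤ n / x ^ 6 := by
    rw [e0, mul_assoc, ← pow_add]
    exact (h.pw 4 _ _ (by norm_num) (by norm_num)).trans h.js.1
  obtain ⟨u, -, u2, u3, u4⟩ := (D.pb (D.sig_G1 g1) g2 (by omega) (by nlinarith : 2 ≤ x ^ 2) h.hM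
    (by have := h.hq; omega) hD i fun t ht => hi t (by omega)).1
  have e1 : (if P (i + 1) < w i then 2 * x / ((n / x ^ 6 : ℕ) : ℝ) else 1) ≤ 1 := by
    split_ifs
    · have := (h.pw 2 1 244 (by norm_num) (by norm_num)).trans h.js.1
      rw [pow_one] at this
      rw [div_le_one (Nat.cast_pos.2 (by omega))]
      exact_mod_cast this
    · exact le_rfl
  have e2 : (1 - 1 / ((x ^ 2 : ℕ) : ℝ)) ^ (i + 1) ≤ Real.exp (-((i + 1 : ℕ) / (x : ℝ) ^ 2)) := by
    rw [show -((i + 1 : ℕ) / (x : ℝ) ^ 2) = (i + 1 : ℕ) * -(1 / (x : ℝ) ^ 2) by ring,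
      Real.exp_nat_mul, Nat.cast_pow]
    refine pow_le_pow_left₀ ?_ (by linarith [Real.add_one_le_exp (-(1 / (x : ℝ) ^ 2))]) _
    rw [sub_nonneg, div_le_one (by positivity)]
    nlinarith
  have e3 : (2 * x * 2 ^ (6 * (28 * q)) * 2 ^ (3 * (28 * q) * badW n (28 * q) (p 0) u) : ℝ) ≤
      Real.exp ((x : ℝ) + x * badW n (28 * q) (p 0) u) := by
    have a1 : (2 * x * 2 ^ (6 * (28 * q)) * 2 ^ (3 * (28 * q) * badW n (28 * q) (p 0) u) : ℝ) =
        2 ^ (1 + q + 6 * (28 * q) + 3 * (28 * q) * badW n (28 * q) (p 0) u) := by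
      rw [pow_add, pow_add, pow_add, pow_one]
      congr 3
      rw [h.hx]; push_cast; rfl
    rw [a1]
    refine (two_pow_le_exp _).trans (Real.exp_le_exp.2 ?_)
    have := Nat.mul_le_mul_right (badW n (28 * q) (p 0) u) (by omega : 3 * (28 * q) ≤ x)
    have := h.hq
    exact_mod_cast (by omega : 1 + q + 6 * (28 * q) + 3 * (28 * q) * badW n (28 * q) (p 0) u ≤
      x + x * badW n (28 * q) (p 0) u)
  have e4 : (badW n (28 * q) (p 0) u : ℝ) ≤ (x * i + x ^ 8) / x ^ 5 + 760 := by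
    have a1 : (badW n (28 * q) (p 0) u : ℝ) ≤ (((n - u) / x ^ 5 : ℕ) : ℝ) + 760 := by
      exact_mod_cast g3 u u2
    refine a1.trans (add_le_add_left (Nat.cast_div_le.trans ?_) _)
    rw [Nat.cast_pow]
    refine div_le_div_of_nonneg_right ?_ (by positivity)
    exact_mod_cast (by omega : n - u ≤ x * i + x ^ 8)
  refine u4.trans ((mul_le_of_le_one_right ?_ e1).trans ?_)
  · refine mul_nonneg (pow_nonneg ?_ _) (by positivity)
    rw [sub_nonneg, div_le_one (by positivity), Nat.cast_pow]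
    nlinarith
  refine (mul_le_mul e2 e3 (by positivity) (by positivity)).trans ?_
  rw [← Real.exp_add, Real.exp_le_exp]
  have a1 : (x : ℝ) * ((x * i + x ^ 8) / x ^ 5 + 760) = i / x ^ 3 + x ^ 4 + 760 * x := by
    field_simp
  have a2 := mul_le_mul_of_nonneg_left e4 (by positivity : (0 : ℝ) ≤ x)
  have a3 : (i : ℝ) / x ^ 3 ≤ (i + 1 : ℕ) / (2 * x ^ 2) := by
    push_cast
    gcongr
    · linarith
    · nlinarith
  have a4 : ((i + 1 : ℕ) : ℝ) / x ^ 2 = 2 * ((i + 1 : ℕ) / (2 * x ^ 2)) := by field_simp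
  have a5 : (761 : ℝ) * x ≤ x ^ 4 := by
    have := h.pw 761 1 4 (by norm_num) (by norm_num)
    rw [pow_one] at this
    exact_mod_cast this
  linarith

lemma k_ge (h : Par q x n) (g1 : G1 n x (p 0)) (g2 : G2 n x (p 0)) : n ≤ 2 * x * k := by
  have hx := h.big
  have h1 := (h.pw 64 1 250 (by norm_num) (by norm_num)).trans h.lo
  rw [pow_one] at h1
  obtain ⟨u, u1, u2, u3, u4⟩ := g2 (n - n / 4) n 1 (n / 4 + 1) le_rfl le_rfl (by omega) (by
    rw [show n - (n - n / 4) = n / 4 by omega, Nat.add_sub_cancel]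
    have a1 : n ≤ 8 * (n / 4) := by omega
    have a2 : 8 * x ≤ n / 4 := by omega
    calc x * n ≤ x * (8 * (n / 4)) := Nat.mul_le_mul_left _ a1
      _ = 8 * x * (n / 4) := by ring
      _ ≤ _ := Nat.mul_le_mul_right _ a2)
  have a1 := D.pos_le (t := 0) u1 (by omega)
  have a2 := D.el_le_mul u1 (by omega) (Nat.zero_le k) (D.sig_G1 g1 0 u u1 (by omega))
  rw [mul_assoc, Nat.sub_zero] at *
  omega

lemma exists_long (h : Par q x n) (g1 : G1 n x (p 0)) (g2 : G2 n x (p 0)) (g3 : G3 n q x (p 0))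
    (hF : 1 < FF k P w k) : ∃ t, n / x ^ 6 ≤ k - t ∧
      x ^ 2 * (k - t) < x ^ 2 * (P t - w t) + (k - t) ∧ el n p t (w t) ≤ el n p (t + 1) (w t) + 1 := by
  by_contra hc
  have hx := h.big
  have hk := D.k_ge h g1 g2
  obtain ⟨j1, j2, -⟩ := h.js
  generalize hj : n / x ^ 6 = js at *
  have h1 : js * x ^ 5 ≤ 2 * k := by
    refine Nat.le_of_mul_le_mul_left (c := x) ?_ (by omega)
    calc x * (js * x ^ 5) = js * x ^ 6 := by ring
      _ ≤ 2 * x * k := j2.trans hk
      _ = _ := by ring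
  have h2 := Nat.mul_le_mul_left js (h.pw 8 3 5 (by norm_num) (by norm_num))
  have h3 : js ≤ js * x ^ 3 := Nat.le_mul_of_pos_right _ (by positivity)
  have h4 : 5 * x ^ 6 ≤ js * x ^ 3 :=
    ((h.pw 5 6 244 (by norm_num) (by norm_num)).trans j1).trans h3
  have h5 : 0 < x ^ 6 := by positivity
  obtain ⟨i, hi⟩ : ∃ i, k = i + js := ⟨k - js, by nlinarith [Nat.sub_add_cancel (by nlinarith : js ≤ k)]⟩
  have h6 : 4 * x ^ 6 + 2 * (js * x ^ 3) < i := by nlinarith
  have e1 := D.FF_exp h g1 g2 g3 i fun t ht => ⟨by omega, fun hb => by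
    by_contra hh
    exact hc ⟨t, by omega, hb, not_lt.1 hh⟩⟩
  have e2 : FF k P w (i + js) ≤ FF k P w i * (x : ℝ) ^ js := FF_add_le _ _ fun t _ t2 => by
    have W := D.walk t (by omega)
    exact D.f_le (by omega) (D.sig_G1 g1 t _ W.1 (by omega))
  have e3 : (x : ℝ) ^ js ≤ Real.exp (js * x) := by
    rw [Real.exp_nat_mul]
    exact pow_le_pow_left₀ (by positivity) (by linarith [Real.add_one_le_exp (x : ℝ)]) _
  rw [← hi] at e2
  have e4 := hF.trans_le (e2.trans (mul_le_mul e1 e3 (by positivity) (by positivity)))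
  rw [← Real.exp_add, Real.one_lt_exp_iff] at e4
  have hX : (0 : ℝ) < x := Nat.cast_pos.2 (by omega)
  have h7 : (4 * x ^ 6 + 2 * (js * x ^ 3) : ℝ) < i := by exact_mod_cast h6
  have : (2 * x ^ 4 + js * x : ℝ) < i / (2 * x ^ 2) := by
    rw [lt_div_iff₀ (by positivity)]
    linarith
  linarith

theorem stage1 (h : Par q x n) (g1 : G1 n x (p 0)) (g2 : G2 n x (p 0)) (g3 : G3 n q x (p 0))
    (hF : 1 < FF k P w k) : ∃ i, i ≤ x ^ 7 ∧ i < k ∧ el n p i (w i) ≤ el n p (i + 1) (w i) + 1 ∧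
      i + (P i - w i) = k ∧ n / x ^ 6 ≤ 2 * (P i - w i) ∧ (∀ t < i, w t ≤ w i) ∧
      FF k P w k < 2 := by
  classical
  have hx := h.big
  have hex := D.exists_long h g1 g2 g3 hF
  obtain ⟨i1, i2, i3⟩ := Nat.find_spec hex
  have hmin := fun t => Nat.find_min hex (m := t)
  generalize Nat.find hex = i at *
  obtain ⟨j1, j2, j3⟩ := h.js
  have hM := h.hM
  have e1 := D.FF_exp h g1 g2 g3 i fun t ht => ⟨by omega, fun hb => by
    by_contra hh
    exact hmin t ht ⟨by omega, hb, not_lt.1 hh⟩⟩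
  generalize hj : n / x ^ 6 = js at *
  have p1 := h.pw 100 17 244 (by norm_num) (by norm_num)
  have p0 : 0 < x ^ 17 := by positivity
  have hk : i < k := by omega
  have W := D.walk i hk
  have hb := big_two (by nlinarith : 2 ≤ x ^ 2) i2
  have hδ := D.el_le_mul W.1 (by omega) hk.le i3
  rw [D.el_walk hk, one_mul] at hδ
  obtain ⟨j, hj⟩ : ∃ j, i + (P i - w i) + j = k := ⟨k - i - (P i - w i), by omega⟩
  have hj2 : 2 * x * j ≤ P i - w i := by
    rw [show k - i = P i - w i + j by omega, mul_add] at i2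
    have : (2 * x + 1) * j ≤ x ^ 2 * j := Nat.mul_le_mul_right _ (by nlinarith)
    rw [add_mul] at this
    omega
  have e2 := D.tail (D.sig_G1 g1) hk i3 hj hj2
  have e3 : FF k P w k ≤ FF k P w i :=
    e2.trans (mul_le_of_le_one_right (FF_nonneg i) (pow_le_one₀ (by norm_num) (by norm_num)))
  have hX : (100000000 : ℝ) ≤ x := by exact_mod_cast hx
  have hI : i ≤ x ^ 7 := by
    by_contra hc
    have a1 := hF.trans_le (e3.trans e1)
    rw [Real.one_lt_exp_iff, sub_pos, div_lt_iff₀ (by positivity)] at a1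
    have a2 : i < 4 * x ^ 6 := by
      have : (i : ℝ) < 4 * x ^ 6 := by linarith
      exact_mod_cast this
    have := h.pw 4 6 7 (by norm_num) (by norm_num)
    omega
  have p2 := h.pw 1 8 17 (by norm_num) (by norm_num)
  have p3 := h.pw 1 7 8 (by norm_num) (by norm_num)
  have p4 : x * i ≤ x ^ 8 := (Nat.mul_le_mul_left x hI).trans (le_of_eq (by ring))
  have p5 := h.pw 1 8 9 (by norm_num) (by norm_num)
  have hM2 : x * n ≤ x ^ 8 * (P i - w i) := by
    have := Nat.mul_le_mul_left (x ^ 8) (by omega : js ≤ 2 * (P i - w i))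
    nlinarith
  have up : ∀ t < i, w i < w t → P t - w t ≤ x ^ 8 := by
    intro t ht hw
    have W' := D.walk t (by omega)
    have hP := D.P_le ht.le hk
    have a1 := D.ninv_le ht.le W.1 hw (by omega) (D.last (by omega) W.1 (by omega) (by omega))
    have a2 : P i < w t := by
      by_contra hc
      have := D.last hk W'.1 (not_lt.1 hc) (by omega)
      omega
    have a3 : el n p i (w t) = 0 := (D.el_zero W'.1 (by omega)).2 fun a b1 b2 => by
      have := D.fix i hk a (by omega) b2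
      have := D.fix i hk _ a2 (by omega)
      omega
    have a4 := D.el_le_add W'.1 (by omega) ht.le (D.sig_G1 g1 t _ W'.1 (by omega))
    rw [a3, D.el_walk (by omega)] at a4
    have := Nat.mul_le_mul_left x (Nat.sub_le i t)
    omega
  have all : ∀ t < i, P t - w t ≤ k - t + 2 * x ^ 9 := by
    intro t ht
    have W' := D.walk t (by omega)
    have hP := D.P_le ht.le hk
    rcases lt_trichotomy (w t) (w i) with hw | hw | hw
    · have a1 := D.inc ht.le W'.1 hw (D.last (by omega) W.1 (by omega) (by omega)) (P i) W.2.1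
        W.2.2.1 (D.last hk (by omega) le_rfl (by omega))
      have a2 := D.rset g2 hk i3 hM2 (by omega) W'.1 hw a1
      have a3 := D.el_le_mul W'.1 (by omega) (by omega) a2
      have a4 := D.el_le_add W'.1 (by omega) (by omega : t ≤ i + x ^ 8)
        (D.sig_G1 g1 t _ W'.1 (by omega))
      rw [D.el_walk (by omega)] at a4
      have a5 : x * (i + x ^ 8 - t) ≤ x * (2 * x ^ 8) := Nat.mul_le_mul_left x (by omega)
      have a6 : x * (2 * x ^ 8) = 2 * x ^ 9 := by ring
      omega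
    · have a4 := D.el_le_add W'.1 (by omega) ht.le (D.sig_G1 g1 t _ W'.1 (by omega))
      rw [D.el_walk (by omega), hw, D.el_walk hk] at a4
      have := Nat.mul_le_mul_left x (Nat.sub_le i t)
      omega
    · have := up t ht hw
      omega
  have hjs : (0 : ℝ) < js := Nat.cast_pos.2 (by omega)
  have fle : ∀ t < i, ((P t - w t : ℕ) : ℝ) / (k - t : ℕ) ≤ 1 + 2 * x ^ 9 / js := by
    intro t ht
    have a0 : (js : ℝ) ≤ (k - t : ℕ) := by exact_mod_cast (by omega : js ≤ k - t)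
    have a1 : ((P t - w t : ℕ) : ℝ) ≤ (k - t : ℕ) + 2 * x ^ 9 := by exact_mod_cast all t ht
    calc _ ≤ (((k - t : ℕ) : ℝ) + 2 * x ^ 9) / (k - t : ℕ) := by gcongr
      _ = 1 + 2 * x ^ 9 / (k - t : ℕ) := by rw [add_div, div_self (by linarith)]
      _ ≤ _ := by gcongr
  have pw : ∀ m ≤ i, (1 + 2 * x ^ 9 / js : ℝ) ^ m ≤ 3 / 2 := by
    intro m hm
    have a1 : (m : ℝ) * (2 * x ^ 9 / js) ≤ 1 / 3 := by
      rw [← mul_div_assoc, div_le_div_iff₀ hjs (by norm_num)]
      have b1 : m * (2 * x ^ 9) * 3 ≤ 1 * js := by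
        have := Nat.mul_le_mul_right (2 * x ^ 9 * 3) (hm.trans hI)
        have := h.pw 6 16 17 (by norm_num) (by norm_num)
        nlinarith
      exact_mod_cast b1
    calc _ ≤ Real.exp (2 * x ^ 9 / js) ^ m :=
          pow_le_pow_left₀ (by positivity) (by linarith [Real.add_one_le_exp (2 * x ^ 9 / js : ℝ)]) _
      _ = Real.exp (m * (2 * x ^ 9 / js)) := (Real.exp_nat_mul _ _).symm
      _ ≤ Real.exp (1 / 3) := Real.exp_le_exp.2 a1
      _ ≤ 1 / (1 - 1 / 3) := Real.exp_bound_div_one_sub_of_interval (by norm_num) (by norm_num)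
      _ = 3 / 2 := by norm_num
  have e4 : FF k P w i ≤ 3 / 2 := by
    have := FF_add_le (k := k) (P := P) (w := w) 0 i fun t _ t2 => fle t (by omega)
    rw [zero_add, FF, FF, prod_range_zero, one_mul] at this
    exact this.trans (pw i le_rfl)
  refine ⟨i, hI, hk, i3, ?_, by omega, fun t ht => ?_, by linarith⟩
  · rcases j with _ | j
    · exact hj
    · have a1 : (1 / 2 : ℝ) ^ (j + 1) ≤ 1 / 2 := by
        rw [pow_succ]
        exact mul_le_of_le_one_left (by norm_num) (pow_le_one₀ (by norm_num) (by norm_num))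
      have := mul_le_mul e4 a1 (by positivity) (by norm_num)
      linarith
  · by_contra hc
    have a1 : ((P t - w t : ℕ) : ℝ) / (k - t : ℕ) ≤ 1 / 2 := by
      rw [div_le_div_iff₀ (Nat.cast_pos.2 (by omega)) (by norm_num)]
      have := up t ht (not_le.1 hc)
      exact_mod_cast (by omega : (P t - w t) * 2 ≤ 1 * (k - t))
    have a2 : ∏ s ∈ (range i).erase t, ((P s - w s : ℕ) : ℝ) / (k - s : ℕ) ≤ 3 / 2 := by
      refine le_trans (prod_le_prod (fun _ _ => by positivity) fun s hs =>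
        fle s (mem_range.1 (mem_of_mem_erase hs))) ?_
      rw [prod_const]
      exact pw _ (card_erase_le.trans (card_range i).le)
    have a3 := mul_le_mul a1 a2 (prod_nonneg fun _ _ => by positivity) (by norm_num)
    rw [mul_prod_erase (range i) (fun s => ((P s - w s : ℕ) : ℝ) / (k - s : ℕ))
      (mem_range.2 ht)] at a3
    have : FF k P w i ≤ 1 / 2 * (3 / 2) := a3
    linarith

end Dyn

end Pool.Agent.StackSort
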