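import Pool.Agent.K.MP_f1060b_co.C2
import Pool.Agent.K.MP_f1060b_co.C3
import Pool.Agent.K.MP_f1060b_co.C0

-- part Pool.Agent.P.MP_f1060b_co.QDesc
section

namespace Pool.Agent.StackSort

open Finset

variable {n k : ℕ} {p v : ℕ → ℕ → ℕ} {P w : ℕ → ℕ}

/-- The first descent at time `t` is at place `a`. -/
def Desc (n : ℕ) (v : ℕ → ℕ → ℕ) (t a : ℕ) : Prop :=
  a + 1 < n ∧ v t (a + 1) < v t a ∧ ∀ b < a, v t b < v t (b + 1)

lemma Desc.mono {t a b c : ℕ} (h : Desc n v t a) (hbc : b < c) (hc : c ≤ a) : v t b < v t c := by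
  induction c, hbc using Nat.le_induction with
  | base => exact h.2.2 b (by omega)
  | succ c _ ih => exact (ih (by omega)).trans (h.2.2 c (by omega))

lemma Desc.mono' {t a b c : ℕ} (h : Desc n v t a) (hbc : b ≤ c) (hc : c ≤ a) : v t b ≤ v t c := by
  rcases hbc.eq_or_lt with rfl | e
  · exact le_rfl
  · exact (h.mono e hc).le

lemma run_exists {U : ℕ → ℕ} {L b lam r : ℕ} (h1 : ∀ m, m + 1 ≤ L → U (m + 1) ≤ U m)
    (h2 : ∀ m, m + 2 ≤ L → U (m + 2) < U (m + 1) → U (m + 2) + b ≤ U m)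
    (h3 : r * (lam + 2) ≤ L) (h4 : U 0 < r * b) :
    ∃ m, m + lam ≤ L ∧ ∀ s ≤ lam, U (m + s) = U m := by
  by_contra hc
  have anti : ∀ a c, a ≤ c → c ≤ L → U c ≤ U a := by
    intro a c hac
    induction c, hac using Nat.le_induction with
    | base => intro _; exact le_rfl
    | succ c _ ih => intro h; exact (h1 c h).trans (ih (by omega))
  have chg : ∀ m, m + lam ≤ L → ∃ s < lam, U (m + s + 1) < U (m + s) := by
    intro m hm
    by_contra hn
    refine hc ⟨m, hm, fun s hs => ?_⟩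
    induction s with
    | zero => rfl
    | succ s ih =>
      have := h1 (m + s) (by omega)
      have : ¬U (m + s + 1) < U (m + s) := fun e => hn ⟨s, by omega, e⟩
      have := ih (by omega)
      show U (m + s + 1) = U m
      omega
  have key : ∀ i ≤ r, U (i * (lam + 2)) + i * b ≤ U 0 := by
    intro i
    induction i with
    | zero => simp
    | succ i ih =>
      intro hi
      have e := (Nat.mul_le_mul_right (lam + 2) hi).trans h3
      rw [add_mul, one_mul] at e ⊢
      obtain ⟨s, s1, s2⟩ := chg (i * (lam + 2) + 1) (by omega)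
      rw [show i * (lam + 2) + 1 + s = i * (lam + 2) + s + 1 by ring] at s2
      have a1 := h2 (i * (lam + 2) + s) (by omega) s2
      have a2 := anti (i * (lam + 2)) (i * (lam + 2) + s) (by omega) (by omega)
      have a3 := anti (i * (lam + 2) + s + 2) (i * (lam + 2) + (lam + 2)) (by omega) e
      have := ih (by omega)
      rw [add_mul, one_mul]
      omega
  have := key r le_rfl
  omega

lemma mu_eq {j g a b : ℕ} (h1 : b * j < a * (j + 1)) (h2 : a * (j + 1) ≤ b * j + g) (hg : g ≤ j)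
    (ha : a ≤ j) (ha1 : 1 ≤ a) : b = a := by
  rcases lt_trichotomy b a with h | h | h
  · nlinarith [Nat.mul_le_mul_right j (by omega : b + 1 ≤ a)]
  · exact h
  · nlinarith [Nat.mul_le_mul_right j (by omega : a + 1 ≤ b)]

namespace Dyn

variable (D : Dyn n k p v P w)
include D

lemma exists_desc {t : ℕ} (hn : 1 ≤ n) (h : 0 < p t 1) : ∃ a, a < p t 1 ∧ Desc n v t a := by
  classical
  have h1 := D.lt t 1 le_rfl hn
  have hw : v t (p t 1 - 1 + 1) < v t (p t 1 - 1) := by
    have a1 := D.pv t (p t 1 - 1) (by omega)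
    rw [show p t 1 - 1 + 1 = p t 1 by omega, D.vp t 1 le_rfl hn]
    by_contra hc
    have : v t (p t 1 - 1) = 1 := by omega
    rw [this] at a1
    omega
  have hex : ∃ a, v t (a + 1) < v t a := ⟨_, hw⟩
  have hle := Nat.find_min' hex hw
  refine ⟨Nat.find hex, by omega, by omega, Nat.find_spec hex, fun b hb => ?_⟩
  have a1 := Nat.find_min hex hb
  have a2 := D.pv t b (by omega)
  have a3 := D.pv t (b + 1) (by omega)
  by_contra hc
  have : v t b = v t (b + 1) := by omega
  rw [this] at a2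
  omega

lemma d1 {t a b : ℕ} (h : Desc n v t a) (hb : b < a) : p (t + 1) (v t b) = b := by
  have h1 := h.1
  have e := D.pv t b (by omega)
  refine (D.pos_eq e.1 e.2.1).trans (Eq.trans ?_ ((D.pos_eq e.1 e.2.1).symm.trans e.2.2))
  refine congrArg card (filter_congr fun c hc => ?_)
  rw [mem_Icc] at hc
  have pre : p t c < p t (v t b) → c < v t b := fun hh => by
    have := h.mono (b := p t c) (c := b) (by omega) hb.le
    rwa [D.vp t c hc.1 hc.2] at this
  rcases lt_trichotomy c (v t b) with l | l | l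
  · refine ⟨fun hh => ?_, D.ninv_le (Nat.le_succ t) hc.1 l e.2.1⟩
    by_contra hn
    have f := D.pv t (b + 1) (by omega)
    have f2 := h.2.2 b hb
    have a1 := D.tri t hc.1 hc.2 e.1 e.2.1 l.ne
    have a2 := D.tri t hc.1 hc.2 f.1 f.2.1 (by omega)
    have := (D.rule t (v t b) c hc.1 l e.2.1).2 ⟨v t (b + 1), f2, f.2.1, by omega, by omega⟩
    omega
  · subst l; simp
  · refine ⟨fun hh => D.inv_le (Nat.le_succ t) e.1 l hc.2 hh, fun hh => ?_⟩
    have := pre hh
    omega

lemma d1' {t a b : ℕ} (h : Desc n v t a) (hb : b < a) : v (t + 1) b = v t b := by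
  have e := D.pv t b (by have := h.1; omega)
  conv_lhs => rw [← D.d1 h hb]
  exact D.vp _ _ e.1 e.2.1

/-- Letters outside the increasing prefix stay outside. -/
lemma out {t a c : ℕ} (h : Desc n v t a) (c1 : 1 ≤ c) (c2 : c ≤ n) :
    a ≤ p (t + 1) c ↔ a ≤ p t c := by
  have h1 := h.1
  constructor
  · intro hh
    by_contra hc
    have := D.d1 h (not_le.1 hc)
    rw [D.vp t c c1 c2] at this
    omega
  · intro hh
    by_contra hc
    have e := D.d1' h (not_le.1 hc)
    rw [D.vp _ c c1 c2] at e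
    have := (D.pv t (p (t + 1) c) (by omega)).2.2
    rw [← e] at this
    omega

lemma d2 {t a : ℕ} (h : Desc n v t a) : a < p t (v (t + 1) a) ∧ v (t + 1) a ≤ v t (a + 1) ∧
    (a + 2 < n → v (t + 1) a ≤ v t (a + 2) ∧
      (v t (a + 1) < v t (a + 2) → v (t + 1) a = v t (a + 1))) := by
  have h1 := h.1
  have U := D.pv (t + 1) a (by omega)
  have A := D.pv t a (by omega)
  have B := D.pv t (a + 1) h1
  have u1 := (D.out h U.1 U.2.1).1 U.2.2.ge
  have b1 := (D.out h B.1 B.2.1).2 (by omega)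
  have u2 : a < p t (v (t + 1) a) := by
    by_contra hc
    have e : v (t + 1) a = v t a := D.inj U.1 U.2.1 A.1 A.2.1 (t := t) (by omega)
    have a1 := D.tri (t + 1) A.1 A.2.1 B.1 B.2.1 (by have := h.2.1; omega)
    rw [e] at U
    obtain ⟨c, -, -, c3, c4⟩ := (D.rule t _ _ B.1 h.2.1 A.2.1).1 (by omega)
    omega
  have le : ∀ i, a < i → i ≤ a + 2 → i < n → v (t + 1) a ≤ v t i := by
    intro i i1 i2 i3
    have C := D.pv t i i3
    have c1 := (D.out h C.1 C.2.1).2 (by omega)
    by_contra hc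
    have a1 := D.tri (t + 1) U.1 U.2.1 C.1 C.2.1 (by omega)
    obtain ⟨c, -, -, c3, c4⟩ := (D.rule t _ _ C.1 (not_le.1 hc) U.2.1).1 (by omega)
    omega
  refine ⟨u2, le _ (by omega) (by omega) h1, fun h2 => ⟨le _ (by omega) le_rfl h2, fun h3 => ?_⟩⟩
  have C := D.pv t (a + 2) h2
  have l1 := le _ (by omega) (by omega) h1
  by_contra hc
  have a1 := D.tri t U.1 U.2.1 B.1 B.2.1 hc
  have a2 := D.tri t U.1 U.2.1 C.1 C.2.1 (by omega)
  have := (D.rule t _ _ U.1 (lt_of_le_of_ne l1 hc) B.2.1).2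
    ⟨v t (a + 2), h3, C.2.1, by omega, by omega⟩
  omega

lemma dead_pre {t a d : ℕ} (ha : a < n) (d1 : 1 ≤ d) (hd : el n p t d = 0) (h2 : d < v t a) :
    p t d < a := by
  have A := D.pv t a ha
  have := (D.el_zero d1 (by omega)).1 hd _ h2 A.2.1
  omega

lemma gap {t a g c : ℕ} (h : Desc n v t a)
    (dense : ∀ c, 1 ≤ c → c + g ≤ n + 1 → ∃ d, c ≤ d ∧ d < c + g ∧ el n p t d = 0)
    {b : ℕ} (hb : b ≤ a) (hc : c + g < v t b) : 0 < b ∧ c < v t (b - 1) := by
  have h1 := h.1
  have A := D.pv t b (by omega)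
  obtain ⟨d, d1, d2, d3⟩ := dense (c + 1) (by omega) (by omega)
  have e := D.dead_pre (a := b) (by omega) (by omega) d3 (by omega)
  have := h.mono' (b := p t d) (c := b - 1) (by omega) (by omega)
  rw [D.vp t d (by omega) (by omega)] at this
  omega

lemma pre_le {t a g : ℕ} (h : Desc n v t a)
    (dense : ∀ c, 1 ≤ c → c + g ≤ n + 1 → ∃ d, c ≤ d ∧ d < c + g ∧ el n p t d = 0)
    (b : ℕ) (hb : b ≤ a) : v t b ≤ (b + 1) * g := by
  induction b with
  | zero =>
    by_contra hc
    have := (D.gap (c := 0) h dense hb (by omega)).1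
    omega
  | succ b ih =>
    by_contra hc
    rw [add_mul, one_mul] at hc
    have := (D.gap h dense hb (not_le.1 hc)).2
    have := ih (by omega)
    rw [Nat.add_sub_cancel] at *
    omega

lemma desc_step {t a g j : ℕ} (h : Desc n v t a) (hg : g < j)
    (dense : ∀ c, 1 ≤ c → c + g ≤ n + 1 → ∃ d, c ≤ d ∧ d < c + g ∧ el n p t d = 0)
    (cong : (j : ℤ) ∣ (v t a : ℤ) - v (t + 1) a) :
    0 < a ∧ Desc n v (t + 1) (a - 1) ∧ v (t + 1) (a - 1) = v t (a - 1) ∧
      v t (a - 1) < v t a ∧ v t a ≤ v t (a - 1) + g := by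
  have h1 := h.1
  have h2 := h.2.1
  have e := (D.d2 h).2.1
  have e2 := Int.le_of_dvd (by omega) cong
  obtain ⟨a1, a2⟩ := D.gap (c := v (t + 1) a) h dense le_rfl (by omega)
  have e3 := D.d1' h (by omega : a - 1 < a)
  refine ⟨a1, ⟨by omega, ?_, fun b hb => ?_⟩, e3, h.mono (by omega) le_rfl, ?_⟩
  · rw [e3, show a - 1 + 1 = a by omega]
    exact a2
  · rw [D.d1' h (by omega), D.d1' h (by omega)]
    exact h.2.2 b (by omega)
  · by_contra hc
    have := (D.gap h dense le_rfl (not_le.1 hc)).2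
    omega

/-- The walk of the first descent. -/
lemma descent {x s L g b lam r B N : ℕ} (g2 : G2 n x (p 0)) (g4 : G4 n x (p 0)) (hn : 1 ≤ n)
    (alive : ∀ m ≤ L, el n p (s + m) 1 ≠ 0) (hB : el n p s 1 * g ≤ B) (hg : g < b)
    (hb : s + L + b ≤ k) (hr : B < r * b) (hr2 : r ≤ b) (hL : r * (lam + 2) ≤ L)
    (hlam : 2 * x ≤ lam) (hx : 1 ≤ x) (hB2 : 3 * B + 2 ≤ n) (hN : x * n ≤ N * lam)
    (dense : ∀ t, s ≤ t → ∀ c, 1 ≤ c → c + g ≤ n + 1 → ∃ d, c ≤ d ∧ d < c + g ∧ el n p t d = 0)
    (cong : ∀ t, s ≤ t → t ≤ s + L → ∀ a < n, ((k - t : ℕ) : ℤ) ∣ (v t a : ℤ) - v (t + 1) a) :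
    n ≤ p 0 1 + N := by
  have pos1 : ∀ m ≤ L, 0 < p (s + m) 1 := fun m hm => by
    have := alive m hm
    have := D.el_le_pos (t := s + m) le_rfl hn
    omega
  obtain ⟨a, a1, a2⟩ := D.exists_desc hn (pos1 0 (Nat.zero_le L))
  rw [add_zero] at a1 a2
  have wk : ∀ m ≤ L + 1, Desc n v (s + m) (a - m) ∧ m ≤ a := by
    intro m
    induction m with
    | zero => exact fun _ => ⟨a2, Nat.zero_le a⟩
    | succ m ih =>
      intro hm
      obtain ⟨i1, i2⟩ := ih (by omega)
      have := D.desc_step (j := k - (s + m)) i1 (by omega) (dense _ (by omega))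
        (cong _ (by omega) (by omega) _ (by have := i1.1; omega))
      exact ⟨this.2.1, by omega⟩
  set V : ℕ → ℕ := fun m => v (s + m) (a - m) with hV
  set U : ℕ → ℕ := fun m => v (s + m + 1) (a - m) with hU
  have st : ∀ m ≤ L, V (m + 1) = v (s + m) (a - m - 1) ∧ V (m + 1) < V m ∧ V m ≤ V (m + 1) + g := by
    intro m hm
    obtain ⟨i1, i2⟩ := wk m (by omega)
    have := D.desc_step (j := k - (s + m)) i1 (by omega) (dense _ (by omega))
      (cong _ (by omega) (by omega) _ (by have := i1.1; omega))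
    have e : V (m + 1) = v (s + m) (a - m - 1) := this.2.2.1
    exact ⟨e, e ▸ this.2.2.2.1, e ▸ this.2.2.2.2⟩
  have V0 : V 0 ≤ B := by
    have e1 := D.pre_le a2 (dense s le_rfl) a le_rfl
    have e2 := D.pos_le (t := s) le_rfl hn
    exact (e1.trans (Nat.mul_le_mul_right g (by omega))).trans hB
  have VB : ∀ m ≤ L, V m ≤ B := by
    intro m
    induction m with
    | zero => exact fun _ => V0
    | succ m ih => intro hm; exact (st m (by omega)).2.1.le.trans (ih (by omega))
  have UV : ∀ m ≤ L, 1 ≤ U m ∧ U m < V m := fun m hm => by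
    have i1 := (wk m (by omega)).1
    exact ⟨(D.pv _ _ (by have := i1.1; omega)).1, (D.d2 i1).2.1.trans_lt i1.2.1⟩
  have U1 : ∀ m, m + 1 ≤ L → U (m + 1) ≤ U m := by
    intro m hm
    obtain ⟨i1, i2⟩ := wk (m + 1) (by omega)
    have := (D.d2 i1).2.1
    rwa [show a - (m + 1) + 1 = a - m by omega] at this
  have U2 : ∀ m, m + 2 ≤ L → U (m + 2) < U (m + 1) → U (m + 2) + b ≤ U m := by
    intro m hm hlt
    obtain ⟨i1, i2⟩ := wk (m + 2) (by omega)
    have i0 := (wk m (by omega)).1.1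
    obtain ⟨e1, e2⟩ := (D.d2 i1).2.2 (by omega)
    rw [show a - (m + 2) + 2 = a - m by omega] at e1 e2
    rw [show a - (m + 2) + 1 = a - (m + 1) by omega] at e2
    have e1 : U (m + 2) ≤ v (s + m + 1 + 1) (a - m) := e1
    have e2 : U (m + 1) < v (s + m + 1 + 1) (a - m) → U (m + 2) = U (m + 1) := e2
    have e3 : U (m + 1) ≠ v (s + m + 1 + 1) (a - m) := fun e => by
      have f1 : p (s + m + 1 + 1) (U (m + 1)) = a - (m + 1) := (D.pv _ _ (by omega)).2.2
      rw [e, (D.pv _ _ (by omega)).2.2] at f1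
      omega
    have e4 := U1 m (by omega)
    have e5 : ((k - (s + m + 1) : ℕ) : ℤ) ∣ (U m : ℤ) - v (s + m + 1 + 1) (a - m) :=
      cong (s + m + 1) (by omega) (by omega) (a - m) (by omega)
    have := Int.le_of_dvd (by omega) e5
    omega
  obtain ⟨m, m1, m2⟩ := run_exists U1 U2 hL ((UV 0 (Nat.zero_le L)).2.trans (V0.trans_lt hr))
  have mu : ∀ i ≤ L, ∃ c, 1 ≤ c ∧ c < r ∧ V i = U i + c * (k - (s + i)) := by
    intro i hi
    have e := cong (s + i) (by omega) (by omega) (a - i) (by have := (wk i (by omega)).1.1; omega)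
    have e1 := UV i hi
    have e : ((k - (s + i) : ℕ) : ℤ) ∣ (V i : ℤ) - U i := e
    rw [← Nat.cast_sub e1.2.le, Int.natCast_dvd_natCast] at e
    obtain ⟨c, hc⟩ := e
    rw [mul_comm] at hc
    refine ⟨c, ?_, ?_, by omega⟩
    · rcases c with _ | c <;> omega
    · by_contra hh
      have := Nat.mul_le_mul (not_lt.1 hh) (by omega : b ≤ k - (s + i))
      have := VB i hi
      omega
  obtain ⟨c, c1, c2, c3⟩ := mu m (by omega)
  have lin : ∀ i ≤ lam, V (m + i) = U m + c * (k - (s + (m + i))) := by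
    intro i
    induction i with
    | zero => exact fun _ => c3
    | succ i ih =>
      intro hi
      obtain ⟨d, -, -, d3⟩ := mu (m + (i + 1)) (by omega)
      have e := ih (by omega)
      obtain ⟨-, f1, f2⟩ := st (m + i) (by omega)
      rw [m2 _ hi] at d3
      rw [show k - (s + (m + i)) = k - (s + (m + (i + 1))) + 1 by omega] at e
      rw [add_assoc m i 1] at f1 f2
      rw [d3, mu_eq (j := k - (s + (m + (i + 1)))) (g := g) (a := c) (b := d) (by omega) (by omega)
        (by omega) (by omega) c1]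
  have lin2 : ∀ i ≤ lam, V (m + i) + c * i = V m := fun i hi => by
    rw [lin i hi, c3, add_assoc, ← mul_add]
    congr 2
    omega
  have hm0 := UV m (by omega)
  have hmB := VB m (by omega)
  rcases c1.eq_or_lt with rfl | c1
  · have e0 := UV (m + lam) m1
    have e1 := lin2 lam le_rfl
    rw [m2 lam le_rfl] at e0
    have e2 : n ≤ p 0 (U m) + N := by
      refine D.end_of_inv (t := 0) (c := V m - lam - 1) (d := V m) g2 hm0.1 (by omega) (by omega)
        (hN.trans (Nat.mul_le_mul_left _ (by omega))) fun z z1 z2 => ?_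
      have f1 := lin2 (V m - z) (by omega)
      have f2 : V (m + (V m - z)) = z := by omega
      have i1 := (wk (m + (V m - z)) (by omega)).1
      have f3 : a - (m + (V m - z)) < p _ (U (m + (V m - z))) := (D.d2 i1).1
      have f4 : p _ (V (m + (V m - z))) = _ := (D.pv _ _ (by have := i1.1; omega)).2.2
      rw [m2 _ (by omega)] at f3
      rw [f2] at f4
      exact D.inv_le (Nat.zero_le (s + (m + (V m - z)))) hm0.1 (by omega) (by omega) (by omega)
    rcases hm0.1.eq_or_lt with e | e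
    · rwa [← e] at e2
    · have i1 := (wk m (by omega)).1
      have f1 : a - m ≤ p (s + m) 1 := by
        by_contra hc
        have := i1.mono (pos1 m (by omega)) (not_le.1 hc).le
        rw [D.vp _ 1 le_rfl hn] at this
        have := (D.pv (s + m) 0 hn).1
        omega
      have f2 := (D.out i1 le_rfl hn).2 f1
      have f3 : p (s + m + 1) (U m) = a - m := (D.pv _ _ (by have := i1.1; omega)).2.2
      have f4 := D.tri (s + m + 1) le_rfl hn hm0.1 (by omega) e.ne
      have := D.inv_le (Nat.zero_le (s + m + 1)) le_rfl e (by omega) (by omega)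
      omega
  · exfalso
    obtain ⟨y, rfl⟩ : ∃ y, x = y + 1 := ⟨x - 1, by omega⟩
    have e0 := UV (m + 2 * y) (by omega)
    have e1 := lin2 (2 * y) (by omega)
    have e2 := lin2 1 (by omega)
    obtain ⟨i, i1, i2⟩ := g4 (V (m + 2 * y) - 1) c (by omega) c1 (by
      have : 2 * c * (y + 1) = c * (2 * y) + 2 * c := by ring
      omega)
    obtain ⟨z, rfl⟩ : ∃ z, y = i + z := ⟨y - i, by omega⟩
    have e3 := lin2 (2 * z) (by omega)
    have e4 := lin2 (2 * z + 1) (by omega)
    have e5 : c * (2 * (i + z)) = 2 * c * i + c * (2 * z) := by ring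
    rw [show V (m + 2 * (i + z)) - 1 + 2 * c * i = V (m + 2 * z) - 1 by omega,
      show V (m + 2 * z) - 1 + 1 = V (m + 2 * z) by omega] at i2
    have e6 := (st (m + 2 * z) (by omega)).1
    rw [add_assoc m, ← Nat.sub_add_eq] at e6
    rw [mul_add, mul_one] at e4
    obtain ⟨j1, j2⟩ := wk (m + 2 * z) (by omega)
    have f4 : p _ (V (m + 2 * z)) = _ := (D.pv _ _ (by have := j1.1; omega)).2.2
    have f1 : ¬p (s + (m + 2 * z)) (V (m + 2 * z) - 1) < a - (m + 2 * z) := fun hc => by
      have := j1.mono' (b := p (s + (m + 2 * z)) (V (m + 2 * z) - 1)) (c := a - (m + 2 * z + 1))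
        (by omega) (by omega)
      rw [D.vp _ _ (by omega) (by omega)] at this
      omega
    have f2 := D.tri (s + (m + 2 * z)) (a := V (m + 2 * z) - 1) (b := V (m + 2 * z)) (by omega)
      (by omega) (by omega) (by omega) (by omega)
    have := D.inv_le (a := V (m + 2 * z)) (b := V (m + 2 * z) - 1)
      (Nat.zero_le (s + (m + 2 * z))) (by omega) (by omega) (by omega) (by omega)
    omega

end Dyn

end Pool.Agent.StackSort
end

-- part Pool.Agent.P.MP_f1060b_co.QCases
section

namespace Pool.Agent.StackSort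

open Finset

variable {q x n k i : ℕ} {p v : ℕ → ℕ → ℕ} {P w : ℕ → ℕ}

/-- What the first stage gives. -/
structure St (n k x : ℕ) (p : ℕ → ℕ → ℕ) (P w : ℕ → ℕ) (i : ℕ) : Prop where
  hI : i ≤ x ^ 7
  hk : i < k
  sig : el n p i (w i) ≤ el n p (i + 1) (w i) + 1
  len : i + (P i - w i) = k
  le : ∀ t < i, w t ≤ w i
  fin : n ≤ p 0 (w i) + x ^ 8
  top : n ≤ P i + 2 * x ^ 8
  sum : k + w i ≤ n
  big : x ^ 244 ≤ 2 * (P i - w i)
  area : ∀ z, P i - w i ≤ 4 * z → x * n ≤ x ^ 8 * z
  run : ∀ t, i ≤ t → t < k → w t = w i ∧ P t + t = w i + k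

namespace Dyn

variable (D : Dyn n k p v P w)
include D

lemma exists_St (h : Par q x n) (g1 : G1 n x (p 0)) (g2 : G2 n x (p 0)) (g3 : G3 n q x (p 0))
    (hF : 1 < FF k P w k) : ∃ i, St n k x p P w i ∧ FF k P w k < 2 := by
  obtain ⟨i, h1, h2, h3, h4, h5, h6, h7⟩ := D.stage1 h g1 g2 g3 hF
  have W := D.walk i h2
  have W0 := D.walk 0 (by omega)
  have e1 := D.big_end (D.sig_G1 g1) g2 h.hM h2 h5
  have e2 : x * i ≤ x ^ 8 := (Nat.mul_le_mul_left x h1).trans (le_of_eq (by ring))
  have e3 := D.P_le (Nat.zero_le i) h2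
  obtain ⟨j1, -, j3⟩ := h.js
  refine ⟨i, ⟨h1, h2, h3, h4, h6, e1.1, by omega, by omega, by omega, fun z hz => ?_,
    fun t t1 t2 => ?_⟩, h7⟩
  · calc x * n ≤ x * (2 * (n / x ^ 6) * x ^ 6) := Nat.mul_le_mul_left _ j3
      _ ≤ x * (2 * (8 * z) * x ^ 6) := by gcongr; omega
      _ = 16 * x ^ 7 * z := by ring
      _ ≤ _ := Nat.mul_le_mul_right _ (h.pw 16 7 8 (by norm_num) (by norm_num))
  · have := D.crun h2 h3 (t - i) (by omega)
    rw [show i + (t - i) = t by omega] at this
    omega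

lemma top_end (h : Par q x n) (S : St n k x p P w i) (g1 : G1 n x (p 0)) (g2 : G2 n x (p 0)) :
    ∃ z, z ≤ n ∧ n < z + x ^ 17 ∧ n ≤ p 0 z + x ^ 17 ∧ p 0 z < p 0 (w i) := by
  by_contra hc
  have W := D.walk i S.hk
  have p1 := h.pw 8 17 244 (by norm_num) (by norm_num)
  have p2 := h.pw 1 16 17 (by norm_num) (by norm_num)
  have p3 := h.pw 3 8 16 (by norm_num) (by norm_num)
  have p4 := h.pw 2 16 17 (by norm_num) (by norm_num)
  have p5 : (x ^ 8 + 1) * x ^ 8 = x ^ 16 + x ^ 8 := by ring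
  have p6 : 0 < x ^ 8 := by have := h.big; positivity
  have s1 := S.fin
  have s2 := S.top
  have s3 := S.big
  have h1 := g2.many (a := n - x ^ 17) (c := w i + 1) (d := n - x ^ 17 + 1) (by omega) (by omega)
    (S.area _ (by omega)) (x ^ 8 + 1) (by omega)
  set V := (Ico (w i + 1) (n - x ^ 17 + 1)).filter fun u =>
    n - x ^ 17 ≤ p 0 u ∧ p 0 u < n - x ^ 17 + (x ^ 8 + 1) * x ^ 8 with hV
  have hm : ∀ u ∈ V, w i < u ∧ u + x ^ 17 ≤ n ∧ n ≤ p 0 u + x ^ 17 ∧ p 0 u < p 0 (w i) := by
    intro u hu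
    simp only [hV, mem_filter, mem_Ico] at hu
    omega
  have inv : ∀ t z, z ≤ n → n < z + x ^ 17 → p t z < p t (w i) → ∀ u ∈ V, p t z < p t u := by
    intro t
    induction t with
    | zero =>
      intro z z1 z2 z3 u hu
      have := hm u hu
      by_contra hh
      exact hc ⟨z, z1, z2, by omega, z3⟩
    | succ t ih =>
      intro z z1 z2 z3 u hu
      have := hm u hu
      obtain ⟨c, c1, c2, c3, c4⟩ := (D.rule t z _ W.1 (by omega) z1).1 z3
      exact (D.rule t z u (by omega) (by omega) z1).2 ⟨c, c1, c2, c3, ih c c2 (by omega) c4 u hu⟩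
  have h2 : el n p i (w i) + V.card ≤ el n p 0 (w i) := by
    rw [el, ← card_union_of_disjoint]
    · refine card_le_card fun a ha => ?_
      rw [mem_union, mem_el] at ha
      rw [mem_el]
      rcases ha with ha | ha
      · exact ⟨ha.1, ha.2.1, D.inv_le (Nat.zero_le i) W.1 ha.1 ha.2.1 ha.2.2⟩
      · have := hm a ha
        omega
    · refine disjoint_left.2 fun a a1 a2 => ?_
      rw [mem_el] at a1
      have e1 := hm a a2
      have e2 := inv i (P i) W.2.2.1 (by omega) (D.last S.hk (by omega) le_rfl (by omega)) a a2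
      have e3 := D.le_P S.hk a1.2.1 W.1 W.2.1.le a1.2.2
      have := D.top_last S.hk S.sig a1.1 (by omega)
      omega
  have h3 := D.el_le_add W.1 (by omega) (Nat.zero_le i) (D.sig_G1 g1 0 _ W.1 (by omega))
  have e2 : x * i ≤ x ^ 8 := (Nat.mul_le_mul_left x S.hI).trans (le_of_eq (by ring))
  rw [Nat.sub_zero] at h3
  omega

lemma fixed_of_dead {t u : ℕ} (h1 : 1 ≤ u) (h2 : u ≤ n)
    (h : ∀ a, 1 ≤ a → a < u → el n p t a = 0) : p t u + 1 = el n p t u + u := by
  refine le_antisymm (D.pos_le h1 h2) ?_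
  rw [D.pos_eq h1 h2]
  have : ((Ioc u n).filter fun a => p t a < p t u).card + (Ico 1 u).card ≤
      ((Icc 1 n).filter fun a => p t a < p t u).card := by
    rw [← card_union_of_disjoint]
    · refine card_le_card fun a ha => ?_
      simp only [mem_union, mem_filter, mem_Ioc, mem_Ico, mem_Icc] at ha ⊢
      rcases ha with ha | ha
      · omega
      · exact ⟨by omega, (D.el_zero ha.1 (by omega)).1 (h a ha.1 ha.2) u ha.2 h2⟩
    · refine disjoint_left.2 fun a a1 a2 => ?_
      simp only [mem_filter, mem_Ioc, mem_Ico] at a1 a2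
      omega
  rw [Nat.card_Ico] at this
  unfold el
  omega

lemma early_late (h : Par q x n) (S : St n k x p P w i) (L : LP n k v P) (g2 : G2 n x (p 0))
    {u : ℕ} (u1 : 1 ≤ u) (u2 : u ≤ n) (hu : ∀ a, 1 ≤ a → a < u → el n p (x ^ 8) a = 0) :
    el n p (x ^ 8) u = 0 ∨ el n p (k - x ^ 8) u ≠ 0 := by
  classical
  by_contra hc
  have hex : ∃ s, el n p s u = 0 := ⟨k, D.el_fin u1 u2⟩
  have t1 := Nat.find_spec hex
  have t2 := Nat.find_min' hex (m := k - x ^ 8) (by omega)
  have t3 := fun m => Nat.find_min hex (m := m)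
  have t4 : x ^ 8 < Nat.find hex := by
    by_contra hh
    have := D.el_anti (not_lt.1 hh) u1
    omega
  obtain ⟨t, ht⟩ : ∃ t, Nat.find hex = t + 1 := ⟨Nat.find hex - 1, by omega⟩
  rw [ht] at t1 t2 t3 t4
  have p3 := h.pw 1 7 8 (by norm_num) (by norm_num)
  have s1 := S.hI
  have s2 := S.len
  have s3 := S.sum
  have dead : ∀ s, t ≤ s → ∀ a, 1 ≤ a → a < u → el n p s a = 0 := fun s hs a a1 a2 => by
    have := D.el_anti (by omega : x ^ 8 ≤ s) a1
    have := hu a a1 a2
    omega
  have fx : ∀ a, 1 ≤ a → a < u → p t a + 1 = a := fun a a1 a2 => by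
    have := D.fixed_of_dead (t := t) a1 (by omega) fun b b1 b2 => dead t le_rfl b b1 (by omega)
    have := dead t le_rfl a a1 a2
    omega
  have hd := D.div L (t := t) (a := u - 1) (by omega) (by omega) fun s s1 s2 => by
    have e1 := D.fixed_of_dead (t := s) u1 u2 (dead s s1.le)
    have e2 := D.el_anti (by omega : t + 1 ≤ s) u1
    rw [show u - 1 = p s u by omega, D.vp s u u1 u2]
    omega
  have H := D.pv t (u - 1) (by omega)
  have h1 : u < v t (u - 1) := by
    rcases lt_trichotomy (v t (u - 1)) u with e | e | e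
    · have := fx _ H.1 e
      omega
    · have := D.fixed_of_dead (t := t) u1 u2 (dead t le_rfl)
      have := t3 t (by omega)
      rw [e] at H
      omega
    · exact e
  have h2 := Int.le_of_dvd (by omega) hd
  have h3 := S.run t (by omega) (by omega)
  obtain ⟨d, d1, d2, d3, d4⟩ := g2 0 (t + 1) u (u + (k - t)) (by omega) u1 (by omega) (by
    rw [Nat.sub_zero, Nat.add_sub_cancel_left]
    rcases le_total (t + 1) (k - t) with e | e
    · exact (S.area (k - t) (by omega)).trans (Nat.mul_le_mul_right _ (by omega))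
    · rw [mul_comm (t + 1)]
      exact (S.area (t + 1) (by omega)).trans (Nat.mul_le_mul_right _ (by omega)))
  have h4 := D.dead_pre (a := u - 1) (by omega) (by omega)
    (D.dead (t := t) (d := d) (by omega) (by omega) (by omega)) (by omega)
  have h5 := fx (p t d + 1) (by omega) (by omega)
  have := D.inj (t := t) (a := p t d + 1) (b := d) (by omega) (by omega) (by omega) (by omega)
    (by omega)
  omega

lemma left_of (h : Par q x n) (S : St n k x p P w i) (g1 : G1 n x (p 0)) (g2 : G2 n x (p 0))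
    (hy : x ^ 10 < w i) {u : ℕ} (u1 : 1 ≤ u) (u2 : u ≤ 2) : p 0 u < p 0 (w i) := by
  have W := D.walk i S.hk
  have p1 := h.pw 8 9 10 (by norm_num) (by norm_num)
  have p2 := h.pw 1 8 9 (by norm_num) (by norm_num)
  have p3 := h.pw 1 7 8 (by norm_num) (by norm_num)
  have p4 := h.pw 4 8 244 (by norm_num) (by norm_num)
  have p6 : 0 < x ^ 8 := by have := h.big; positivity
  have s1 := S.hI
  have s2 := S.len
  have s3 := S.sum
  have s4 := S.big
  have s5 := S.fin
  rcases D.tri 0 (a := u) (b := w i) u1 (by omega) W.1 (by omega) (by omega) with e | e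
  · exact e
  have a1 := D.inc (Nat.zero_le i) u1 (by omega) e (P i) W.2.1 W.2.2.1
    (D.last S.hk (by omega) le_rfl (by omega))
  have a2 := D.rset g2 S.hk S.sig (S.area _ (by omega)) (by omega) u1 (by omega) a1
  have a3 := D.el_le_mul u1 (by omega) (by omega) a2
  have a4 := D.el_le_add u1 (by omega) (Nat.zero_le (i + x ^ 8)) (D.sig_G1 g1 0 _ u1 (by omega))
  have a5 : x * (i + x ^ 8 - 0) ≤ x * (2 * x ^ 8) := Nat.mul_le_mul_left x (by omega)
  have a6 : x * (2 * x ^ 8) = 2 * x ^ 9 := by ring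
  have a7 := D.pos_le (t := 0) u1 (by omega)
  omega

lemma one_case {S : ℕ} (L : LP n k v P) (hw : ∀ t < k, w t = 1) (hk : 3 ≤ k) (hS : 4 ≤ S)
    (hn : 2 * S < n) (hF : 1 < FF k P w k) {z : ℕ} (z1 : z ≤ n) (z2 : n < z + S)
    (z3 : n ≤ p 0 z + S) (z4 : p 0 z < p 0 1) : MainP n (p 0) ∨ Three n S (p 0) := by
  have W0 := D.walk 0 (by omega)
  have W1 := D.walk 1 (by omega)
  have W2 := D.walk 2 (by omega)
  have E0 := D.el_walk (t := 0) (by omega)
  have E1 := D.el_walk (t := 1) (by omega)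
  have E2 := D.el_walk (t := 2) (by omega)
  rw [hw _ (by omega)] at W0 W1 W2 E0 E1 E2
  have sp1 : Spec n S (p 0) 1 := ⟨le_rfl, by omega, by omega, by omega⟩
  rcases W0.2.2.1.eq_or_lt with h0 | h0
  swap
  · have := D.fix 0 (by omega) n h0 le_rfl
    exact Or.inr ⟨z, n, 1, by rintro rfl; omega, by omega, by omega,
      ⟨by omega, z1, by omega, by omega⟩, ⟨by omega, le_rfl, by omega, by omega⟩, sp1⟩
  have h1 : P 1 + 2 ≤ n := by
    by_contra hc
    have := FF_add_le (k := k) (P := P) (w := w) (c := ((1 : ℕ) : ℝ)) 0 k fun t _ t2 =>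
      D.f_le (by omega) (by
        rw [hw t (by omega)]
        exact D.sig_le le_rfl (by omega) (Nat.zero_le t) (by rw [zero_add]; omega))
    rw [zero_add, FF, FF, prod_range_zero] at this
    simp only [Nat.cast_one, one_pow, mul_one] at this
    exact absurd (hF.trans_le this) (lt_irrefl _)
  have col : ∀ a, a + 1 < n → 1 ≤ a → (∀ s, 0 < s → s < k → p s (a + 1) = a) → p 0 (a + 1) = a := by
    intro a a1 a2 ha
    have hd := D.div L (t := 0) (a := a) (by omega) (by omega) fun s s1 s2 => by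
      conv_lhs => rw [← ha s s1 s2]
      exact D.vp s _ (by omega) (by omega)
    have H := D.pv 0 a (by omega)
    rw [hw 0 (by omega)] at hd
    have h3 : v 0 a ≠ 1 := fun e => by rw [e] at H; omega
    have := Int.eq_zero_of_abs_lt_dvd hd (by rw [abs_lt]; omega)
    rw [show a + 1 = v 0 a by omega]
    exact H.2.2
  have h2 : p 0 (n - 1) = n - 2 := by
    have := col (n - 2) (by omega) (by omega) fun s s1 s2 => by
      have := D.P_le (s := 1) s1 s2
      have := D.fix s s2 (n - 2 + 1) (by omega) (by omega)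
      omega
    rwa [show n - 2 + 1 = n - 1 by omega] at this
  have lo : ∀ a, 2 ≤ a → a ≤ n → a ≠ n - 1 → p 0 a < n - 2 := fun a a1 a2 a3 => by
    have := D.lt 0 a (by omega) a2
    have := D.tri 0 (a := a) (b := 1) (by omega) a2 le_rfl (by omega) (by omega)
    have := D.tri 0 (a := a) (b := n - 1) (by omega) a2 (by omega) (by omega) a3
    omega
  have inl : ∀ a, 2 ≤ a → a + 2 ≤ n → p 1 a < p 1 1 := fun a a1 a2 =>
    (D.rule 0 a 1 le_rfl a1 (by omega)).2 ⟨n - 1, by omega, by omega,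
      by have := lo a a1 (by omega) (by omega); omega, by omega⟩
  have h3 : P 1 + 2 = n := by
    have := D.le_P (t := 1) (a := n - 2) (by omega) (by omega) le_rfl (by omega)
      (inl _ (by omega) (by omega))
    omega
  have sp2 : Spec n S (p 0) (n - 1) := ⟨by omega, by omega, by omega, by omega⟩
  rcases D.tri 0 (a := n) (b := n - 2) (by omega) le_rfl (by omega) (by omega) (by omega)
    with e | e
  · exact Or.inl ⟨by omega, by omega, e⟩
  right
  by_cases h4 : p 0 n = n - 3
  · exact ⟨n, n - 1, 1, by omega, by omega, by omega, ⟨by omega, le_rfl, by omega, by omega⟩,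
      sp2, sp1⟩
  have l1 := lo n (by omega) le_rfl (by omega)
  have B := D.pv 0 (n - 3) (by omega)
  have b1 : v 0 (n - 3) ≠ 1 := fun e => by rw [e] at B; omega
  have b2 : v 0 (n - 3) ≠ n - 1 := fun e => by rw [e] at B; omega
  have b3 : v 0 (n - 3) ≠ n - 2 := fun e => by rw [e] at B; omega
  have b4 : v 0 (n - 3) ≠ n := fun e => by rw [e] at B; omega
  have b5 := (D.rule 0 (n - 2) _ B.1 (by omega) (by omega)).2 ⟨n, by omega, le_rfl, e, by omega⟩
  have b6 := inl (v 0 (n - 3)) (by omega) (by omega)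
  rw [zero_add] at b5
  have H := D.pv 1 (n - 4) (by omega)
  have c1 : v 1 (n - 4) ≠ 1 := fun e => by rw [e] at H; omega
  have c2 : v 1 (n - 4) ≠ n - 2 := fun e => by rw [e] at H; omega
  have c3 := D.le_P (t := 1) (by omega) H.2.1 le_rfl (by omega) (by omega : p 1 _ < p 1 1)
  have c4 : P 2 < v 1 (n - 4) := by
    by_contra hc
    have := D.last (t := 2) (by omega) H.1 (not_lt.1 hc) (by rw [hw 2 (by omega)]; exact c1)
    rw [hw 2 (by omega)] at this
    obtain ⟨c, -, -, _, _⟩ := (D.rule 1 _ 1 le_rfl (by omega) H.2.1).1 this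
    omega
  have c5 := D.conv 0 1 le_rfl (by omega)
  simp only [zero_add] at c5
  have h5 := col (n - 4) (by omega) (by omega) fun s s1 s2 => by
    rcases (show s = 1 ∨ 2 ≤ s by omega) with rfl | s3
    · rw [show n - 4 + 1 = v 1 (n - 4) by omega]
      exact H.2.2
    · have := D.P_le s3 s2
      have := D.fix s s2 (n - 4 + 1) (by omega) (by omega)
      omega
  exact ⟨n - 4 + 1, n - 1, 1, by omega, by omega, by omega,
    ⟨by omega, by omega, by omega, by omega⟩, sp2, sp1⟩

lemma clean_pos {J : ℕ} (S : St n k x p P w i) (g1 : G1 n x (p 0)) (hx : 1 ≤ x) (hJ : i + J ≤ k)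
    (hc : ∀ u, 1 ≤ u → u ≤ n → u ≠ w i → u ≤ w i + x * J → w i ≤ u + x * J →
      el n p (k - J) u = 0) {t c : ℕ} (t1 : k - J ≤ t) (t2 : t < k) (c1 : w i < c)
    (c2 : c ≤ P t) : p t c + 2 = c := by
  have W := D.walk t t2
  obtain ⟨r1, r2⟩ := S.run t (by omega) t2
  have hJ2 : J ≤ x * J := Nat.le_mul_of_pos_left _ hx
  have dead : ∀ u, 1 ≤ u → u ≤ n → u ≠ w i → u ≤ w i + x * J → w i ≤ u + x * J →
      el n p t u = 0 := fun u a1 a2 a3 a4 a5 => by
    have := D.el_anti t1 a1
    have := hc u a1 a2 a3 a4 a5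
    omega
  have low : ∀ m u, 1 ≤ u → u < w i → w i - u ≤ m → ∀ b, w i < b → b ≤ n → p t u < p t b := by
    intro m
    induction m with
    | zero => intro u _ _ _; omega
    | succ m ih =>
      intro u a1 a2 a3 b b1 b2
      by_contra hh
      have e0 := D.tri t a1 (by omega) (by omega : 1 ≤ b) b2 (by omega)
      have e1 : insert b (Ioo u (w i)) ⊆ (Ioc u n).filter fun a => p t a < p t u := by
        intro a ha
        rw [mem_insert, mem_Ioo] at ha
        rw [mem_el]
        rcases ha with rfl | ha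
        · omega
        · have := ih a (by omega) ha.2 (by omega) b b1 b2
          omega
      have e2 := card_le_card e1
      rw [card_insert_of_notMem (by simp; omega), Nat.card_Ioo] at e2
      have e3 := D.el_le_mul a1 (by omega) t2.le (D.sig_G1 g1 t u a1 (by omega))
      have e4 := Nat.mul_le_mul_left x (by omega : k - t ≤ J)
      have := dead u a1 (by omega) (by omega) (by omega) (by unfold el at e3; omega)
      unfold el at this
      omega
  have : ((Icc 1 n).filter fun a => p t a < p t c) = (Ico 1 c).erase (w i) := by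
    ext a
    simp only [mem_filter, mem_Icc, mem_erase, mem_Ico]
    constructor
    · rintro ⟨⟨a1, a2⟩, a3⟩
      have e1 := D.last t2 (by omega : 1 ≤ c) c2 (by omega)
      refine ⟨by rintro rfl; rw [r1] at e1; omega, a1, ?_⟩
      by_contra hh
      have e2 : a ≠ c := by rintro rfl; omega
      have := (D.el_zero (by omega) (by omega)).1
        (dead c (by omega) (by omega) (by omega) (by omega) (by omega)) a (by omega) a2
      omega
    · rintro ⟨a1, a2, a3⟩
      refine ⟨⟨a2, by omega⟩, ?_⟩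
      rcases lt_or_gt_of_ne a1 with e | e
      · exact low _ a a2 e le_rfl c c1 (by omega)
      · exact (D.el_zero a2 (by omega)).1
          (dead a a2 (by omega) a1 (by omega) (by omega)) c a3 (by omega)
  rw [D.pos_eq (by omega) (by omega), this, card_erase_of_mem (mem_Ico.2 ⟨by omega, c1⟩),
    Nat.card_Ico]
  omega

lemma clean_cong {s : ℕ} (S : St n k x p P w i) (L : LP n k v P) (hs : i ≤ s)
    (hc : ∀ t c, s ≤ t → t < k → w i < c → c ≤ P t → p t c + 2 = c) {t a : ℕ} (t1 : s ≤ t)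
    (t2 : t + 1 < k) (ha : a < n) : ((k - t : ℕ) : ℤ) ∣ (v t a : ℤ) - v (t + 1) a := by
  obtain ⟨c, h⟩ := L a ha
  have row : ∀ t, s ≤ t → t < k → ∑ j ∈ range k, c j * ((v t (P j - 1) : ℤ) - P j) =
      -(c t * (k - t : ℕ)) + ∑ j ∈ Ico (t + 1) k, c j := by
    intro t t1 t2
    have W := D.walk t t2
    obtain ⟨r1, r2⟩ := S.run t (by omega) t2
    rw [← sum_range_add_sum_Ico _ (by omega : t + 1 ≤ k), sum_range_succ, sum_eq_zero, zero_add,
      D.piv_diag t2]
    · congr 1
      · rw [show (w t : ℤ) - P t = -((k - t : ℕ) : ℤ) by omega, mul_neg]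
      · refine sum_congr rfl fun j hj => ?_
        rw [mem_Ico] at hj
        have W' := D.walk j hj.2
        obtain ⟨r3, r4⟩ := S.run j (by omega) hj.2
        have := hc t (P j + 1) t1 t2 (by omega) (by omega)
        rw [show P j - 1 = p t (P j + 1) by omega, D.vp t _ (by omega) (by omega)]
        simp
    · intro j hj
      rw [D.piv_zero (mem_range.1 hj) t2, sub_self, mul_zero]
  have e1 := h t (by omega)
  have e2 := h (t + 1) t2
  rw [row t t1 (by omega), sum_eq_sum_Ico_succ_bot t2] at e1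
  rw [row _ (by omega) t2] at e2
  refine ⟨c (t + 1) - c t, ?_⟩
  rw [show ((k - t : ℕ) : ℤ) = (k - (t + 1) : ℕ) + 1 by omega] at e1 ⊢
  linear_combination e1 - e2

lemma unclean (h : Par q x n) (S : St n k x p P w i) (g2 : G2 n x (p 0)) {u : ℕ} (u1 : 1 ≤ u)
    (u3 : u ≤ w i + x ^ 83) (u4 : w i ≤ u + x ^ 83) (hu : el n p (k - x ^ 82) u ≠ 0) :
    n ≤ p 0 u + x ^ 92 := by
  by_contra hc
  have W := D.walk i S.hk
  have p1 := h.pw 3 91 92 (by norm_num) (by norm_num)
  have p2 := h.pw 8 83 244 (by norm_num) (by norm_num)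
  have p3 := h.pw 2 82 83 (by norm_num) (by norm_num)
  have p4 := h.pw 4 8 83 (by norm_num) (by norm_num)
  have p5 : 3 * x ^ 83 * x ^ 8 = 3 * x ^ 91 := by ring
  have s2 := S.len
  have s3 := S.top
  have s4 := S.big
  have h1 := g2.many (a := p 0 u + 1) (c := u + 1) (d := n + 1) (by omega) le_rfl
    (S.area _ (by omega)) (3 * x ^ 83) (by omega)
  have h2 : el n p 0 u + ((Ico (u + 1) (n + 1)).filter fun b =>
      p 0 u + 1 ≤ p 0 b ∧ p 0 b < p 0 u + 1 + 3 * x ^ 83 * x ^ 8).card ≤ (Ioc u n).card := by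
    rw [el, ← card_union_of_disjoint]
    · refine card_le_card fun a ha => ?_
      simp only [mem_union, mem_filter, mem_Ioc, mem_Ico] at ha ⊢
      omega
    · refine disjoint_left.2 fun a a1 a2 => ?_
      simp only [mem_filter] at a1 a2
      omega
  have h3 := D.el_drop (s := 0) u1 (k - x ^ 82)
  rw [Nat.card_Ioc] at h2
  rw [zero_add] at h3
  omega

theorem outcome (h : Par q x n) (g1 : G1 n x (p 0)) (g2 : G2 n x (p 0)) (g3 : G3 n q x (p 0))
    (g4 : G4 n x (p 0)) (T : ℕ → ℕ)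
    (hT : ∀ u t, 1 ≤ u → u ≤ n → (el n p t u = 0 ↔ T u ≤ t)) (hF : 1 < FF k P w k)
    (hL : FF k P w k < 2 → LP n k v P) :
    MainP n (p 0) ∨ Three n (x ^ 17) (p 0) ∨ Eps n (x ^ 17) (n / x ^ 70 + 1) (p 0) T ∨
      Del n (x ^ 17) (x ^ 92) (x ^ 83) (p 0) T := by
  obtain ⟨i, S, h2⟩ := D.exists_St h g1 g2 g3 hF
  have L := hL h2
  obtain ⟨z, z1, z2, z3, z4⟩ := D.top_end h S g1 g2
  have W := D.walk i S.hk
  have hx := h.big
  have p0 : 4 ≤ x ^ 7 := by
    have := h.pw 4 0 7 (by norm_num) (by norm_num)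
    rwa [pow_zero] at this
  have p1 := h.pw 8 7 8 (by norm_num) (by norm_num)
  have p2 := h.pw 8 8 9 (by norm_num) (by norm_num)
  have p3 := h.pw 8 9 10 (by norm_num) (by norm_num)
  have p4 := h.pw 8 10 17 (by norm_num) (by norm_num)
  have p5 := h.pw 8 17 81 (by norm_num) (by norm_num)
  have p6 := h.pw 8000 81 82 (by norm_num) (by norm_num)
  have p7 := h.pw 8 82 83 (by norm_num) (by norm_num)
  have p8 := h.pw 8 83 91 (by norm_num) (by norm_num)
  have p9 := h.pw 8 91 92 (by norm_num) (by norm_num)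
  have p10 := h.pw 8 92 244 (by norm_num) (by norm_num)
  have p11 : x ^ 92 ≤ n / x ^ 70 := (Nat.le_div_iff_mul_le (by positivity)).2 (by
    rw [← pow_add]
    exact (Nat.pow_le_pow_right (by omega) (by norm_num)).trans h.lo)
  have p12 : x * x ^ 8 = x ^ 9 := by ring
  have p13 : x * x ^ 82 = x ^ 83 := by ring
  have s1 := S.hI
  have s2 := S.len
  have s3 := S.sum
  have s4 := S.big
  have s5 := S.fin
  have s6 := S.top
  have hn : 2 ≤ n := by omega
  have early : ∀ u, 1 ≤ u → u ≤ 2 → el n p (x ^ 8) u = 0 → p 0 u ≤ x ^ 9 + 1 := by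
    intro u a1 a2 a3
    have := D.el_le_add a1 (by omega) (Nat.zero_le (x ^ 8)) (D.sig_G1 g1 0 u a1 (by omega))
    have := D.pos_le (t := 0) a1 (by omega)
    rw [Nat.sub_zero] at *
    omega
  have spz : Spec n (x ^ 17) (p 0) z := ⟨by omega, z1, Or.inr z2, Or.inr z3⟩
  have tez : TE n (x ^ 17) (p 0) z := ⟨by omega, z1, z2, z3⟩
  have zy : z ≠ w i := by rintro rfl; omega
  rcases W.1.eq_or_lt with y1 | y1
  · have hw : ∀ t < k, w t = 1 := fun t ht => by
      have := (D.walk t ht).1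
      rcases lt_or_ge t i with e | e
      · have := S.le t e
        omega
      · have := (S.run t e ht).1
        omega
    rw [← y1] at z4
    rcases D.one_case L hw (by omega) (by omega) (by omega) hF z1 z2 z3 z4 with e | e
    · exact Or.inl e
    · exact Or.inr (Or.inl e)
  right
  have el1 := D.early_late h S L g2 (u := 1) le_rfl (by omega) fun a _ _ => by omega
  rcases le_or_gt (w i) (x ^ 10) with y2 | y2
  · refine Or.inl ⟨z, w i, 1, zy, by omega, by omega, spz,
      ⟨W.1, by omega, by omega, by omega⟩, le_rfl, by omega, by omega, ?_⟩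
    rcases el1 with e | e
    · have := early 1 le_rfl (by omega) e
      omega
    · have := D.el_drop (s := 0) (u := 1) le_rfl (k - x ^ 8)
      have := D.el_le_pos (t := 0) (u := 1) le_rfl (by omega)
      rw [zero_add] at *
      omega
  have pin : ∀ u, 1 ≤ u → u ≤ 2 → el n p (k - x ^ 8) u ≠ 0 → Pin n (x ^ 17) (p 0) T u (w i) := by
    intro u a1 a2 a3
    have b1 := (hT u k a1 (by omega)).1 (D.el_fin a1 (by omega))
    have b2 := mt (hT u (k - x ^ 8) a1 (by omega)).2 a3
    exact ⟨by omega, by omega, D.left_of h S g1 g2 y2 a1 a2, by omega, by omega, by omega⟩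
  rcases el1 with e | e
  · have a1 := early 1 le_rfl (by omega) e
    rcases D.early_late h S L g2 (u := 2) (by omega) hn fun a _ _ => by
      rwa [show a = 1 by omega] with e2 | e2
    · have a2 := early 2 (by omega) le_rfl e2
      exact Or.inl ⟨z, 1, 2, by omega, by omega, by omega, spz,
        ⟨le_rfl, by omega, by omega, by omega⟩, ⟨by omega, hn, by omega, by omega⟩⟩
    · exact Or.inr (Or.inl ⟨2, w i, z, Or.inr rfl, pin 2 (by omega) le_rfl e2, tez, zy, by omega⟩)
  right
  have pn := pin 1 le_rfl (by omega) e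
  by_cases hc : ∀ u, 1 ≤ u → u ≤ n → u ≠ w i → u ≤ w i + x * x ^ 82 → w i ≤ u + x * x ^ 82 →
      el n p (k - x ^ 82) u = 0
  · refine Or.inl ⟨1, w i, z, Or.inl rfl, pn, tez, zy, Or.inr ?_⟩
    refine D.descent (s := k - x ^ 82) (L := 1000 * x ^ 81) (g := x ^ 8) (b := 1000 * x ^ 81)
      (lam := x ^ 71) (r := x ^ 10) (B := x ^ 91) g2 g4 (by omega) (fun m hm => ?_) ?_ (by omega)
      (by omega) ?_ (by omega) ?_ ?_ (by omega) (by omega) ?_ (fun t ht c c1 c2 => ?_)
      fun t t1 t2 a ha => ?_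
    · have := D.el_anti (by omega : k - x ^ 82 + m ≤ k - x ^ 8) (le_refl 1)
      omega
    · have := D.el_le_mul (s := k - x ^ 82) le_rfl (by omega) (by omega)
        (D.sig_G1 g1 _ 1 le_rfl (by omega))
      rw [show k - (k - x ^ 82) = x ^ 82 by omega] at this
      exact (Nat.mul_le_mul_right _ this).trans (le_of_eq (by ring))
    · have : x ^ 10 * (1000 * x ^ 81) = 1000 * x ^ 91 := by ring
      omega
    · have : x ^ 10 * (x ^ 71 + 2) = x ^ 81 + 2 * x ^ 10 := by ring
      omega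
    · have := h.pw 2 1 71 (by norm_num) (by norm_num)
      rwa [pow_one] at this
    · have := Nat.lt_div_mul_add (a := n) (by positivity : 0 < x ^ 70)
      calc x * n ≤ x * (n / x ^ 70 * x ^ 70 + x ^ 70) := Nat.mul_le_mul_left _ this.le
        _ = _ := by ring
    · obtain ⟨d, d1, d2, -, d4⟩ := g2 0 (k - x ^ 82 + 1) c (c + x ^ 8) (by omega) c1 c2 (by
        rw [Nat.sub_zero, Nat.add_sub_cancel_left, mul_comm _ (x ^ 8)]
        exact S.area _ (by omega))
      have := D.dead (t := k - x ^ 82) (d := d) (by omega) (by omega) (by omega)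
      have := D.el_anti ht (by omega : 1 ≤ d)
      exact ⟨d, d1, d2, by omega⟩
    · exact D.clean_cong S L (by omega) (fun t c a1 a2 a3 a4 =>
        D.clean_pos S g1 (by omega) (by omega) hc a1 a2 a3 a4) t1 (by omega) ha
  · push Not at hc
    obtain ⟨u, u1, u2, u3, u4, u5, u6⟩ := hc
    have a1 := D.unclean h S g2 u1 (by omega) (by omega) u6
    by_cases a2 : p 0 1 < p 0 u
    · exact Or.inr ⟨w i, u, z, pn, tez, zy, by omega, u3, by
        by_contra hh
        rw [show u = 1 by omega] at a2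
        omega, u2, a2, a1, by omega, by omega⟩
    · exact Or.inl ⟨1, w i, z, Or.inl rfl, pn, tez, zy, by omega⟩

end Dyn

end Pool.Agent.StackSort
end

-- part Pool.Agent.P.MP_f1060b_co.QLat
section

namespace Pool.Agent.StackSort

open MeasureTheory Module

lemma core2 {n k : ℕ} (p : EuclideanSpace ℝ (Fin n)) (d : Fin k → EuclideanSpace ℝ (Fin n))
    (hd : ∀ j i, ∃ m : ℤ, d j i = m) (t : Fin k → Fin n)
    (hD : (Matrix.of fun i j => d j (t i)).det ≠ 0)
    (V : Submodule ℝ (EuclideanSpace ℝ (Fin n))) (hV : V = Submodule.span ℝ (Set.range d)) :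
    ∃ N : ℤ, N ≠ 0 ∧
      volume.real {v : V | p + v.1 ∈ (fun x : Fin k → ℝ => p + ∑ j, x j • d j) '' corner k 1} /
        ZLattice.covolume (intPts V) volume =
        |(Matrix.of fun i j => d j (t i)).det| / (k.factorial * |(N : ℝ)|) ∧
      (|N| = 1 → ∀ a, ∃ c : Fin k → ℤ, ∀ j, d j a = ∑ i, c i * d j (t i)) := by
  classical
  set D : Matrix (Fin k) (Fin k) ℝ := Matrix.of fun i j => d j (t i) with hDdef
  have hmem : ∀ j, d j ∈ V := fun j => hV ▸ Submodule.subset_span ⟨j, rfl⟩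
  let dV : Fin k → V := fun j => ⟨d j, hmem j⟩
  let φ₀ : EuclideanSpace ℝ (Fin n) →ₗ[ℝ] (Fin k → ℝ) :=
    { toFun := fun v i => v (t i)
      map_add' := fun _ _ => rfl
      map_smul' := fun _ _ => rfl }
  let φ : V →ₗ[ℝ] (Fin k → ℝ) := φ₀ ∘ₗ V.subtype
  have hli : LinearIndependent ℝ d := by
    apply LinearIndependent.of_comp φ₀
    have := Matrix.linearIndependent_cols_iff_isUnit.2
      ((Matrix.isUnit_iff_isUnit_det D).2 (isUnit_iff_ne_zero.2 hD))
    exact this
  have hrank : finrank ℝ V = k := by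
    rw [hV, finrank_span_eq_card hli, Fintype.card_fin]
  have hspan : ∀ v : V, ∃ x : Fin k → ℝ, v = ∑ j, x j • dV j := by
    intro v
    have : v.1 ∈ Submodule.span ℝ (Set.range d) := hV ▸ v.2
    obtain ⟨x, hx⟩ := (Submodule.mem_span_range_iff_exists_fun ℝ).1 this
    refine ⟨x, Subtype.ext ?_⟩
    rw [← hx]; simp [dV]
  haveI hL : IsZLattice ℝ (intPts V) := by
    refine ⟨eq_top_iff.2 fun v _ => ?_⟩
    obtain ⟨x, rfl⟩ := hspan v
    exact Submodule.sum_mem _ fun j _ =>
      Submodule.smul_mem _ _ (Submodule.subset_span (fun i => hd j i))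
  let c : Basis (Fin k) ℤ (intPts V) :=
    Module.finBasisOfFinrankEq ℤ (intPts V) (by rw [ZLattice.rank ℝ, hrank])
  let c' : Basis (Fin k) ℝ V := c.ofZLatticeBasis ℝ (intPts V)
  choose Cz hCz using fun j i => (c j).2 (t i)
  let C : Matrix (Fin k) (Fin k) ℤ := Matrix.of fun i j => Cz j i
  let Cr : Matrix (Fin k) (Fin k) ℝ := C.map (Int.castRingHom ℝ)
  have hφc : ∀ j i, φ (c' j) i = Cr i j := by
    intro j i
    have : c' j = (c j : V) := c.ofZLatticeBasis_apply ℝ _ j
    rw [this]; exact hCz j i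
  have hψ : ∀ v : V, Matrix.toLin' Cr (c'.equivFun v) = φ v := by
    intro v
    conv_rhs => rw [← c'.sum_repr v]
    ext i
    simp only [Matrix.toLin'_apply, Matrix.mulVec, dotProduct, map_sum, map_smul,
      Finset.sum_apply, Pi.smul_apply, hφc, smul_eq_mul, Basis.equivFun_apply, mul_comm]
  have hδ : ∀ x : Fin k → ℝ, φ (∑ j, x j • dV j) = Matrix.toLin' D x := by
    intro x
    ext i
    simp only [Matrix.toLin'_apply, Matrix.mulVec, dotProduct, map_sum, map_smul,
      Finset.sum_apply, Pi.smul_apply, smul_eq_mul, mul_comm]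
    rfl
  set S : Set V := {v : V | p + v.1 ∈ (fun x : Fin k → ℝ => p + ∑ j, x j • d j) '' corner k 1}
    with hS
  let g : (Fin k → ℝ) →ₗ[ℝ] V := Fintype.linearCombination ℝ dV
  have hg : ∀ x, g x = ∑ j, x j • dV j := fun x => Fintype.linearCombination_apply _ _ _
  have hSg : S = g '' corner k 1 := by
    ext v
    simp only [hS, Set.mem_setOf_eq, Set.mem_image, add_right_inj, hg]
    refine exists_congr fun x => and_congr_right fun _ => ?_
    rw [Subtype.ext_iff]; simp [dV]
  have hSm : NullMeasurableSet S volume := by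
    rw [hSg]; exact ((corner_convex k).linear_image g).nullMeasurableSet _
  have h1 := ZLattice.volume_image_eq_volume_div_covolume' (intPts V) c hSm
  have h2 : Matrix.toLin' Cr '' (c'.equivFun '' S) = Matrix.toLin' D '' corner k 1 := by
    rw [hSg, Set.image_image, Set.image_image]
    refine Set.image_congr fun x _ => ?_
    rw [hψ, hg, hδ]
  have h3 := congrArg volume h2
  rw [Measure.addHaar_image_linearMap, Measure.addHaar_image_linearMap, h1,
    volume_corner k 1 zero_le_one, LinearMap.det_toLin', LinearMap.det_toLin'] at h3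
  have h4 := congrArg ENNReal.toReal h3
  have hcov := ZLattice.covolume_pos (intPts V) volume
  simp only [ENNReal.toReal_mul, ENNReal.toReal_div, ENNReal.toReal_ofReal (abs_nonneg _),
    ENNReal.toReal_ofReal hcov.le, one_pow] at h4
  rw [ENNReal.toReal_ofReal (by positivity)] at h4
  have hdet : Cr.det = ((C.det : ℤ) : ℝ) := ((Int.castRingHom ℝ).map_det C).symm
  have hf : (0 : ℝ) < k.factorial := by positivity
  have hDp : 0 < |D.det| := abs_pos.2 hD
  have hC0 : Cr.det ≠ 0 := by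
    intro h0
    rw [h0, abs_zero, zero_mul] at h4
    exact absurd h4 (by positivity : (0 : ℝ) < |D.det| * (1 / k.factorial)).ne
  refine ⟨C.det, fun h0 => hC0 (by rw [hdet, h0]; simp), ?_, fun hN a => ?_⟩
  · rw [← hdet, Measure.real]
    have : 0 < |Cr.det| := abs_pos.2 hC0
    rw [eq_div_iff (by positivity)]
    field_simp at h4 ⊢
    linarith
  · have hu : IsUnit C.det := by
      rcases (abs_eq (by norm_num : (0 : ℤ) ≤ 1)).1 hN with e | e <;> simp [e]
    choose z hz using fun m => (c m).2 a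
    refine ⟨fun i => ∑ m, z m * C⁻¹ m i, fun j => ?_⟩
    have e1 : ∀ i, d j (t i) = ∑ m, (C i m : ℝ) * c'.repr (dV j) m := fun i => by
      have := congrFun (hψ (dV j)) i
      simp only [Matrix.toLin'_apply, Matrix.mulVec, dotProduct, Basis.equivFun_apply] at this
      exact this.symm
    have e2 : d j a = ∑ m, (z m : ℝ) * c'.repr (dV j) m := by
      have := congrArg (fun v : V => v.1 a) (c'.sum_repr (dV j)).symm
      simp only [Submodule.coe_sum, Submodule.coe_smul, WithLp.ofLp_sum, WithLp.ofLp_smul,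
        Finset.sum_apply, Pi.smul_apply, smul_eq_mul] at this
      refine this.trans (Finset.sum_congr rfl fun m _ => ?_)
      have h5 : c' m = (c m : V) := c.ofZLatticeBasis_apply ℝ _ m
      rw [h5, hz m, mul_comm]
    have e3 : ∀ m l, ∑ i, ((C⁻¹ m i : ℤ) : ℝ) * C i l = if m = l then 1 else 0 := fun m l => by
      have := congrFun (congrFun (Matrix.nonsing_inv_mul C hu) m) l
      rw [Matrix.mul_apply, Matrix.one_apply] at this
      exact_mod_cast congrArg (Int.cast : ℤ → ℝ) this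
    rw [e2]
    simp only [e1, Int.cast_sum, Int.cast_mul, Finset.sum_mul]
    rw [Finset.sum_comm]
    refine Finset.sum_congr rfl fun m _ => ?_
    simp only [Finset.mul_sum]
    rw [Finset.sum_comm]
    have : ∀ l, ∑ i, (z m : ℝ) * (C⁻¹ m i : ℤ) * ((C i l : ℝ) * c'.repr (dV j) l) =
        z m * (if m = l then 1 else 0) * c'.repr (dV j) l := fun l => by
      rw [← e3, Finset.mul_sum, Finset.sum_mul]
      exact Finset.sum_congr rfl fun i _ => by ring
    simp [this]

lemma relVol_int {n k : ℕ} (p : EuclideanSpace ℝ (Fin n))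
    (d : Fin k → EuclideanSpace ℝ (Fin n))
    (hd : ∀ j i, ∃ m : ℤ, d j i = m) (t : Fin k → Fin n)
    (htri : ∀ i j, i < j → d j (t i) = 0) (hdiag : ∀ j, d j (t j) ≠ 0)
    (h : (∏ j, |d j (t j)|) / k.factorial <
      2 * relVol (intLat n) (convexHull ℝ (insert p (Set.range fun j => p + d j))) p) (a : Fin n) :
    ∃ c : Fin k → ℤ, ∀ j, d j a = ∑ i, c i * d j (t i) := by
  classical
  have hdet : (Matrix.of fun i j => d j (t i)).det = ∏ j, d j (t j) := by
    rw [Matrix.det_of_isLowerTriangular]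
    · rfl
    · intro i j h; exact htri i j h
  have hD : (Matrix.of fun i j => d j (t i)).det ≠ 0 := by
    rw [hdet]; exact Finset.prod_ne_zero_iff.2 fun j _ => hdiag j
  obtain ⟨N, hN, h1, h2⟩ := core2 p d hd t hD _ (dir_eq p d)
  have h3 : relVol (intLat n) (convexHull ℝ (insert p (Set.range fun j => p + d j))) p =
      (∏ j, |d j (t j)|) / (k.factorial * |(N : ℝ)|) := by
    rw [← Finset.abs_prod, ← hdet, ← h1, relVol, ratioIn, ratio, comap_intLat, ← hull_eq]
    rfl
  refine h2 ?_ a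
  have hf : (0 : ℝ) < k.factorial := by positivity
  have hp : 0 < ∏ j, |d j (t j)| := Finset.prod_pos fun j _ => abs_pos.2 (hdiag j)
  have hN1 : (0 : ℝ) < |(N : ℝ)| := abs_pos.2 (by exact_mod_cast hN)
  rw [h3, ← div_div, ← mul_div_assoc, lt_div_iff₀ hN1, mul_comm,
    mul_lt_mul_iff_left₀ (by positivity)] at h
  have h4 : |N| < 2 := by exact_mod_cast h
  have := Int.one_le_abs hN
  omega

end Pool.Agent.StackSort
end

-- part Pool.Agent.P.MP_f1060b_co.QModel
section

namespace Pool.Agent.StackSort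

open Finset

/-- The places of the letters along the orbit. -/
def pp (l : List ℕ) (t : ℕ) : ℕ → ℕ := px (stackSort^[t] l)

/-- The letters along the orbit. -/
def vv (l : List ℕ) (t i : ℕ) : ℕ := (stackSort^[t] l).getD i 0

lemma mem_outp (a : ℕ) (xs : List ℕ) : ∀ st : List ℕ, st.Pairwise (· ≤ ·) →
    (a ∈ outp st xs ↔ (a ∈ st ∧ ∃ c ∈ xs, a < c) ∨ ∃ c, a < c ∧ [a, c].Sublist xs) := by
  induction xs with
  | nil => intro st _; simp [outp]
  | cons x xs ih =>
    intro st h
    rw [outp, List.mem_append, ih _ (push_sorted h x), (take_eq h x).1, (take_eq h x).2]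
    simp only [List.mem_filter, decide_eq_true_eq, List.mem_cons, List.cons_sublist_cons',
      List.singleton_sublist]
    constructor
    · rintro (⟨h1, h2⟩ | ⟨rfl | ⟨h1, h2⟩, c, h3, h4⟩ | ⟨c, h1, h2⟩)
      · exact Or.inl ⟨h1, x, Or.inl rfl, h2⟩
      · exact Or.inr ⟨c, h4, Or.inr ⟨rfl, h3⟩⟩
      · exact Or.inl ⟨h1, c, Or.inr h3, h4⟩
      · exact Or.inr ⟨c, h1, Or.inl h2⟩
    · rintro (⟨h1, c, rfl | h3, h4⟩ | ⟨c, h1, h2 | ⟨rfl, h2⟩⟩)
      · exact Or.inl ⟨h1, h4⟩
      · rcases lt_or_ge a x with e | e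
        · exact Or.inl ⟨h1, e⟩
        · exact Or.inr (Or.inl ⟨Or.inr ⟨h1, e⟩, c, h3, h4⟩)
      · exact Or.inr (Or.inr ⟨c, h1, h2⟩)
      · exact Or.inr (Or.inl ⟨Or.inl rfl, c, h2, h1⟩)

lemma pair_sub {a c : ℕ} {l : List ℕ} (h : l.Nodup) :
    [a, c].Sublist l ↔ c ∈ l ∧ l.idxOf a < l.idxOf c := by
  induction l with
  | nil => simp
  | cons x l ih =>
    rw [List.nodup_cons] at h
    rw [List.cons_sublist_cons', ih h.2, List.singleton_sublist, List.mem_cons]
    by_cases hc : x = c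
    · subst hc
      simp [h.1]
    · by_cases ha : x = a
      · subst ha
        simp +contextual [List.idxOf_cons_ne _ hc, Ne.symm hc]
      · simp [List.idxOf_cons_ne _ hc, List.idxOf_cons_ne _ ha, Ne.symm hc, Ne.symm ha]

lemma idx_split {b : ℕ} {A B : List ℕ} (hb : b ∉ A) :
    (A ++ b :: B).idxOf b = A.length ∧
      ∀ a, (a ∈ A → (A ++ b :: B).idxOf a = A.idxOf a) ∧
        (a ∈ A ↔ (A ++ b :: B).idxOf a < A.length) := by
  refine ⟨by simp [List.idxOf_append, hb], fun a => ⟨fun h => by simp [List.idxOf_append, h], ?_⟩⟩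
  by_cases h : a ∈ A
  · simp [List.idxOf_append, h, List.idxOf_lt_length_iff]
  · simp [List.idxOf_append, h]

lemma mem_LL {a b : ℕ} {l : List ℕ} (h : l.Nodup) (hb : b ∈ l) :
    a ∈ LL b l ↔ b < a ∧ l.idxOf a < l.idxOf b := by
  obtain ⟨A, B, rfl⟩ := List.append_of_mem hb
  have hA : b ∉ A := fun e =>
    (List.nodup_cons.1 (List.nodup_middle.1 h)).1 (List.mem_append_left _ e)
  rw [LL_split B hA, List.mem_filter, (idx_split hA).1, ← ((idx_split hA).2 a).2, decide_eq_true_eq]
  constructor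
  · rintro ⟨h1, h2⟩
    exact ⟨lt_of_le_of_ne h2 (by rintro rfl; exact hA h1), h1⟩
  · exact fun h => ⟨h.2, h.1.le⟩

lemma pair_LL {a b c : ℕ} {l : List ℕ} (h : l.Nodup) (hb : b ∈ l) (hab : b < a) (hac : a < c) :
    [a, c].Sublist (LL b l) ↔ l.idxOf a < l.idxOf c ∧ l.idxOf c < l.idxOf b := by
  obtain ⟨A, B, rfl⟩ := List.append_of_mem hb
  have hA : b ∉ A := fun e =>
    (List.nodup_cons.1 (List.nodup_middle.1 h)).1 (List.mem_append_left _ e)
  obtain ⟨e1, e2⟩ := idx_split (B := B) hA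
  rw [LL_split B hA, e1]
  constructor
  · intro hs
    have hs := hs.trans List.filter_sublist
    exact ⟨((pair_sub h).1 (hs.trans (List.sublist_append_left _ _))).2,
      (e2 c).2.1 (hs.subset (by simp))⟩
  · rintro ⟨h1, h2⟩
    have c1 := (e2 c).2.2 h2
    have a1 := (e2 a).2.2 (h1.trans h2)
    rw [(e2 a).1 a1, (e2 c).1 c1] at h1
    have := ((pair_sub (List.nodup_append.1 h).1).2 ⟨c1, h1⟩).filter (b ≤ ·)
    rwa [List.filter_eq_self.2 (by simp; omega)] at this

lemma Sn_nodup {n : ℕ} {l : List ℕ} (h : l ∈ Sn n) : l.Nodup :=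
  (mem_Sn.1 h).nodup_iff.2 List.nodup_range'

lemma Sn_mem {n a : ℕ} {l : List ℕ} (h : l ∈ Sn n) : a ∈ l ↔ 1 ≤ a ∧ a ≤ n := by
  rw [(mem_Sn.1 h).mem_iff, List.mem_range'_1]
  omega

lemma Sn_length {n : ℕ} {l : List ℕ} (h : l ∈ Sn n) : l.length = n := by
  simpa using (mem_Sn.1 h).length_eq

lemma Sn_iter {n : ℕ} {l : List ℕ} (h : l ∈ Sn n) (t : ℕ) : stackSort^[t] l ∈ Sn n :=
  mem_Sn.2 ((iter_perm l t).trans (mem_Sn.1 h))

/-- One pass keeps an inversion exactly when a larger letter stands between. -/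
lemma rule_list {n a b : ℕ} {l : List ℕ} (h : l ∈ Sn n) (hb : 1 ≤ b) (hab : b < a) (ha : a ≤ n) :
    px (stackSort l) a < px (stackSort l) b ↔
      ∃ c, a < c ∧ c ≤ n ∧ px l a < px l c ∧ px l c < px l b := by
  have hb' : b ∈ l := (Sn_mem h).2 ⟨hb, by omega⟩
  have e := mem_LL (a := a) (Sn_nodup (Sn_iter h 1)) ((stackSort_perm l).symm.subset hb')
  rw [Function.iterate_one, LL_stackSort (Sn_nodup h) hb', mem_outp _ _ _ List.Pairwise.nil] at e
  simp only [List.not_mem_nil, false_and, false_or, hab, true_and] at e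
  unfold px
  rw [← e]
  refine exists_congr fun c => and_congr_right fun hc => ?_
  rw [pair_LL (Sn_nodup h) hb' hab hc]
  refine ⟨fun hh => ⟨?_, hh⟩, fun hh => hh.2⟩
  have := List.idxOf_lt_length_iff.2 hb'
  exact ((Sn_mem h).1 (List.idxOf_lt_length_iff.1 (hh.2.trans this))).2

lemma el_eq {n u : ℕ} {l : List ℕ} (h : l ∈ Sn n) (h1 : 1 ≤ u) (h2 : u ≤ n) (t : ℕ) :
    el n (pp l) t u = (LL u (stackSort^[t] l)).length := by
  have ht := Sn_iter h t
  have hu := (Sn_mem ht).2 ⟨h1, h2⟩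
  rw [← List.toFinset_card_of_nodup (LL_nodup (Sn_nodup ht)), el]
  congr 1
  ext a
  rw [List.mem_toFinset, mem_LL (Sn_nodup ht) hu, mem_filter, mem_Ioc]
  refine ⟨fun hh => ⟨hh.1.1, hh.2⟩, fun hh => ⟨⟨hh.1, ?_⟩, hh.2⟩⟩
  have := List.idxOf_lt_length_iff.2 hu
  exact ((Sn_mem ht).1 (List.idxOf_lt_length_iff.1 (hh.2.trans this))).2

lemma el_life {n u : ℕ} {l : List ℕ} (h : l ∈ Sn n) (h1 : 1 ≤ u) (h2 : u ≤ n) (t : ℕ) :
    el n (pp l) t u = 0 ↔ life (LL u l) ≤ t := by
  have hu := (Sn_mem h).2 ⟨h1, h2⟩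
  have e : ∀ t, LL u (stackSort^[t] l) = (outp [])^[t] (LL u l) := fun t => by
    induction t with
    | zero => rfl
    | succ t ih => rw [LL_succ (mem_Sn.1 h) hu, ih, Function.iterate_succ_apply']
  rw [el_eq h h1 h2, List.length_eq_zero_iff, e]
  refine ⟨fun hh => Nat.sInf_le hh, fun hh => ?_⟩
  have h0 : (outp [])^[life (LL u l)] (LL u l) = [] :=
    Nat.sInf_mem (s := {t | (outp [])^[t] (LL u l) = []}) ⟨passes n l, by
      rw [Set.mem_setOf_eq, ← e, (passes_spec (mem_Sn.1 h)).1, LL_id ((mem_Sn.1 h).subset hu)]⟩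
  obtain ⟨m, rfl⟩ := Nat.exists_eq_add_of_le' hh
  rw [Function.iterate_add_apply, h0]
  exact Function.iterate_fixed rfl m

lemma px_getD {n i : ℕ} {l : List ℕ} (h : l ∈ Sn n) (hi : i < n) :
    1 ≤ l.getD i 0 ∧ l.getD i 0 ≤ n ∧ px l (l.getD i 0) = i := by
  have e := Sn_length h
  rw [List.getD_eq_getElem _ _ (by omega), ← and_assoc, ← Sn_mem h]
  exact ⟨List.getElem_mem _, (Sn_nodup h).idxOf_getElem _ _⟩

lemma exists_dyn {n : ℕ} {l : List ℕ} (h : l ∈ Sn n) :
    ∃ P w, Dyn n (passes n l) (pp l) (vv l) P w := by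
  have hp := mem_Sn.1 h
  have hex : ∀ j, j < passes n l → _ := fun j hj =>
    structure_lemma ((iter_perm l j).trans hp) ((passes_spec hp).2 j hj)
  choose! t w e1 e2 e3 e4 e5 e6 e7 using hex
  have lt : ∀ t u, 1 ≤ u → u ≤ n → pp l t u < n := fun t u h1 h2 => by
    have := List.idxOf_lt_length_iff.2 ((Sn_mem (Sn_iter h t)).2 ⟨h1, h2⟩)
    rwa [Sn_length (Sn_iter h t)] at this
  refine ⟨fun j => t j + 1, w, lt, fun s u h1 h2 => ?_, fun s i hi => px_getD (Sn_iter h s) hi,
    fun s a b h1 h2 h3 => ?_, fun s u h1 h2 => ?_, fun u h1 h2 => ?_, fun s hs => ?_,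
    fun s hs a h1 h2 => ?_, fun j hj => ?_⟩
  · have := List.idxOf_lt_length_iff.2 ((Sn_mem (Sn_iter h s)).2 ⟨h1, h2⟩)
    exact (List.getD_eq_getElem _ _ this).trans (List.getElem_idxOf this)
  · rw [pp, Function.iterate_succ_apply']
    exact rule_list (Sn_iter h s) h1 h2 h3
  · have hu := (Sn_mem h).2 ⟨h1, h2⟩
    have a1 := LL_step hp hu s
    have a2 := LL_step hp hu (s + 1)
    have a3 := sig_anti hp hu (Nat.le_succ s)
    simp only [el_eq h h1 h2, Nat.succ_eq_add_one] at a3 ⊢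
    rw [show s + 1 + 1 = s + 2 from rfl] at a2
    omega
  · have := (px_getD (Sn_iter h (passes n l)) (by omega : u - 1 < n)).2.2
    rw [pp]
    rw [(passes_spec hp).1] at this ⊢
    rw [getD_id (by omega), show u - 1 + 1 = u by omega] at this
    omega
  · have := px_getD (Sn_iter h s) (e1 s hs)
    rw [e4 s hs] at this
    have := e1 s hs
    have := e2 s hs
    unfold pp
    omega
  · have := px_getD (Sn_iter h s) (by omega : a - 1 < n)
    rw [e6 s hs _ (by omega) (by omega), show a - 1 + 1 = a by omega] at this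
    unfold pp
    omega
  · by_contra hc
    have a1 := e7 j (by omega) (t (j + 1)) (by omega) (e1 _ hj)
    rw [← Function.iterate_succ_apply' stackSort, e4 _ hj] at a1
    have := e2 _ hj
    omega

section
variable {n : ℕ} {l : List ℕ} {P w : ℕ → ℕ} (h : l ∈ Sn n)
  (D : Dyn n (passes n l) (pp l) (vv l) P w)
include h D

lemma piv_facts : (∀ j < passes n l, P j - 1 < n) ∧ (∀ j < passes n l, w j ≤ P j - 1) ∧
    (∀ j < passes n l, (stackSort^[j] l).getD (P j - 1) 0 = w j) ∧
    (∀ i j, i < j → j < passes n l → (stackSort^[j] l).getD (P i - 1) 0 = P i - 1 + 1) ∧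
    FF (passes n l) P w (passes n l) = ∏ j ∈ range (passes n l),
      ((P j - 1 + 1 - w j : ℕ) : ℝ) / (passes n l - j : ℕ) := by
  refine ⟨fun j hj => by have := D.walk j hj; omega, fun j hj => by have := D.walk j hj; omega,
    fun j hj => ?_, fun i j hij hj => ?_, prod_congr rfl fun j hj => ?_⟩
  · have W := D.walk j hj
    have := D.vp j _ W.1 (by omega)
    rwa [show pp l j (w j) = P j - 1 by omega] at this
  · have W := D.walk i (by omega)
    have hanti : P j < P i := by
      induction j, hij using Nat.le_induction with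
      | base => exact D.dec i hj
      | succ j _ ih => exact (D.dec j hj).trans (ih (by omega))
    have e := D.fix j hj _ hanti W.2.2.1
    have := D.vp j (P i) (by omega) W.2.2.1
    rw [show pp l j (P i) = P i - 1 by omega] at this
    rw [show P i - 1 + 1 = P i by omega]
    exact this
  · have := D.walk j (mem_range.1 hj)
    rw [show P j - 1 + 1 = P j by omega]

lemma vol_le_FF : vol n l ≤ FF (passes n l) P w (passes n l) := by
  obtain ⟨h1, h2, h3, h4, h5⟩ := piv_facts h D
  rw [h5]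
  exact (vol_tri (mem_Sn.1 h) rfl _ w h1 h2 h3 h4).1

lemma vol_eq_FF (hn : 0 < n)
    (hc : ∀ i < n, i = 0 ∨ (∃ t < passes n l, i + 1 = P t) ∨ ∀ t < passes n l, vv l t i = i + 1) :
    vol n l = FF (passes n l) P w (passes n l) := by
  obtain ⟨h1, h2, h3, h4, h5⟩ := piv_facts h D
  rw [h5]
  refine (vol_tri (mem_Sn.1 h) rfl _ w h1 h2 h3 h4).2 0 hn fun i hi => ?_
  rcases hc i hi with e | ⟨t, e1, e2⟩ | e
  · exact Or.inl e
  · exact Or.inr (Or.inl ⟨t, e1, by omega⟩)
  · exact Or.inr (Or.inr e)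

/-- If the pivot minor is less than twice the index, it is the index. -/
lemma LP_of_vol (hv : FF (passes n l) P w (passes n l) < 2 * vol n l) :
    LP n (passes n l) (vv l) P := by
  obtain ⟨ht, hw, h3, htri, h5⟩ := piv_facts h D
  rw [h5] at hv
  generalize hk : passes n l = k at *
  set p := pt n (List.range' 1 n) with hp
  let d : Fin k → EuclideanSpace ℝ (Fin n) := fun j => pt n (stackSort^[j] l) - p
  have hd : ∀ (j : Fin k) (i : Fin n), d j i = ((stackSort^[j] l).getD i 0 : ℝ) - (i + 1 : ℕ) := by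
    intro j i
    simp only [d, hp, pt, PiLp.sub_apply, getD_id i.2]
  have hP : polytope n l = convexHull ℝ (insert p (Set.range fun j => p + d j)) := by
    rw [polytope, hk]
    congr 1
    ext x
    simp only [Set.mem_setOf_eq, Set.mem_insert_iff, Set.mem_range, d, add_sub_cancel]
    have hs := (passes_spec (mem_Sn.1 h)).1
    rw [hk] at hs
    constructor
    · rintro ⟨j, hj, rfl⟩
      rcases hj.eq_or_lt with rfl | hj
      · left; rw [hs]
      · right; exact ⟨⟨j, hj⟩, rfl⟩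
    · rintro (rfl | ⟨j, rfl⟩)
      · exact ⟨k, le_rfl, by rw [hs]⟩
      · exact ⟨j, j.2.le, rfl⟩
  let t' : Fin k → Fin n := fun j => ⟨P j - 1, ht j j.2⟩
  have hdiag : ∀ j : Fin k, |d j (t' j)| = ((P j - 1 + 1 - w j : ℕ) : ℝ) := by
    intro j
    have := hw j j.2
    rw [hd, Nat.cast_sub (by omega), abs_sub_comm]
    simp only [t', h3 j j.2]
    exact abs_of_nonneg (sub_nonneg.2 (by exact_mod_cast (by omega : w j ≤ P j - 1 + 1)))
  have key := relVol_int p d (fun j i => ⟨((stackSort^[j] l).getD i 0 : ℕ) - (i + 1 : ℕ), by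
      rw [hd]; push_cast; rfl⟩) t'
    (fun i j hij => by rw [hd]; simp only [t', htri i j hij j.2, sub_self])
    (fun j => by
      rw [← abs_pos, hdiag]
      have := hw j j.2
      exact Nat.cast_pos.2 (by omega))
    (by
      simp only [hdiag]
      rw [Fin.prod_univ_eq_prod_range (fun j => ((P j - 1 + 1 - w j : ℕ) : ℝ)) k,
        ← Nat.descFactorial_self, Nat.descFactorial_eq_prod_range, Nat.cast_prod,
        ← prod_div_distrib, ← hP]
      exact hv)
  intro a ha
  obtain ⟨c, hc⟩ := key ⟨a, ha⟩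
  refine ⟨fun i => if hi : i < k then c ⟨i, hi⟩ else 0, fun t ht2 => ?_⟩
  have e := hc ⟨t, ht2⟩
  simp only [hd, t'] at e
  rw [← Fin.sum_univ_eq_sum_range (fun i => (if hi : i < k then c ⟨i, hi⟩ else 0) *
    ((vv l t (P i - 1) : ℤ) - P i)) k]
  have e2 : ∀ i : Fin k, P i - 1 + 1 = P i := fun i => by
    have := D.walk i i.2
    omega
  simp only [e2] at e
  simp only [Fin.is_lt, dif_pos, Fin.eta, vv]
  exact_mod_cast e

end

end Pool.Agent.StackSort
end

-- part Pool.Agent.P.MP_f1060b_co.QCount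
section

namespace Pool.Agent.StackSort

open Finset

lemma gs_mono (v : ℕ) : StrictMono (gs v) := by
  intro a b h
  unfold gs
  split_ifs <;> omega

lemma gs_ne (v a : ℕ) : gs v a ≠ v := by
  unfold gs
  split_ifs <;> omega

lemma qc_mem {n a : ℕ} {l : List ℕ} (hl : l ∈ Sn n) : a ∈ l ↔ 1 ≤ a ∧ a ≤ n := by
  rw [(mem_Sn.1 hl).mem_iff, List.mem_range'_1]
  omega

lemma qc_len {n : ℕ} {l : List ℕ} (hl : l ∈ Sn n) : l.length = n := by
  rw [(mem_Sn.1 hl).length_eq, List.length_range']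

lemma qc_nodup {n : ℕ} {l : List ℕ} (hl : l ∈ Sn n) : l.Nodup :=
  (mem_Sn.1 hl).nodup_iff.2 List.nodup_range'

lemma qc_of {n : ℕ} {l : List ℕ} (h1 : l.Nodup) (h2 : ∀ a ∈ l, 1 ≤ a ∧ a ≤ n)
    (h3 : l.length = n) : l ∈ Sn n := by
  refine mem_Sn.2 ((h1.subperm fun a ha => ?_).perm_of_length_le (by simp [h3]))
  have := h2 a ha
  rw [List.mem_range'_1]
  omega

lemma exists_ins {n v : ℕ} {l : List ℕ} (hl : l ∈ Sn (n + 1)) (h1 : 1 ≤ v) (h2 : v ≤ n + 1) :
    ∃ r ∈ Sn n, l = ins (px l v) v r := by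
  obtain ⟨A, B, rfl, hA⟩ := List.eq_append_cons_of_mem ((qc_mem hl).2 ⟨h1, h2⟩)
  obtain ⟨h3, h4⟩ := List.nodup_cons.1 (List.nodup_middle.1 (qc_nodup hl))
  have h5 : ((A ++ B).map fun a => if a < v then a else a - 1).map (gs v) = A ++ B := by
    rw [List.map_map]
    refine (List.map_congr_left fun a ha => ?_).trans (List.map_id _)
    have : a ≠ v := fun e => h3 (e ▸ ha)
    simp only [Function.comp, gs, id]
    split_ifs <;> omega
  refine ⟨(A ++ B).map fun a => if a < v then a else a - 1,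
    qc_of (List.Nodup.of_map (gs v) (h5.symm ▸ h4)) (fun a ha => ?_) ?_, ?_⟩
  · have h6 : gs v a ∈ A ++ B := h5 ▸ List.mem_map_of_mem ha
    have h7 := (qc_mem hl).1 (List.perm_middle.mem_iff.2 (List.mem_cons_of_mem v h6))
    unfold gs at h7
    split_ifs at h7 <;> omega
  · have := qc_len hl
    simp only [List.length_append, List.length_cons, List.length_map] at this ⊢
    omega
  · have h6 : A.length = px (A ++ v :: B) v := by
      rw [px, List.idxOf_append_of_notMem hA, List.idxOf_cons_self, add_zero]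
    rw [ins, h5, List.take_left' h6, List.drop_left' h6]

lemma px_lt {n u : ℕ} {l : List ℕ} (hl : l ∈ Sn n) (h1 : 1 ≤ u) (h2 : u ≤ n) : px l u < n :=
  (List.idxOf_lt_length_of_mem ((qc_mem hl).2 ⟨h1, h2⟩)).trans_eq (qc_len hl)

lemma qc_map {f : ℕ → ℕ} (hf : Function.Injective f) (a : ℕ) (r : List ℕ) :
    px (r.map f) (f a) = px r a := by
  unfold px
  induction r with
  | nil => rfl
  | cons b r ih =>
    by_cases h : b = a
    · simp [h]
    · rw [List.map_cons, List.idxOf_cons_ne _ h, List.idxOf_cons_ne _ (hf.ne h), ih]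

lemma qc_mid {v b : ℕ} (A B : List ℕ) (h : v ≠ b) :
    px (A ++ v :: B) b = gs A.length (px (A ++ B) b) := by
  unfold px gs
  by_cases hb : b ∈ A
  · rw [List.idxOf_append_of_mem hb, List.idxOf_append_of_mem hb,
      if_pos (List.idxOf_lt_length_of_mem hb)]
  · rw [List.idxOf_append_of_notMem hb, List.idxOf_append_of_notMem hb, List.idxOf_cons_ne _ h,
      if_neg (by omega)]
    rfl

lemma px_ins {n p v a : ℕ} {r : List ℕ} (hr : r ∈ Sn n) (hp : p ≤ n) (h1 : 1 ≤ a) (h2 : a ≤ n) :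
    px (ins p v r) (gs v a) = gs p (px r a) := by
  have _h := h1.trans h2
  rw [ins, qc_mid _ _ (gs_ne v a).symm, List.take_append_drop, qc_map (gs_mono v).injective,
    List.length_take, List.length_map, qc_len hr, min_eq_left hp]

lemma qc_self {n p v : ℕ} {r : List ℕ} (hr : r ∈ Sn n) (hp : p ≤ n) : px (ins p v r) v = p := by
  have h : v ∉ (r.map (gs v)).take p := fun h => by
    obtain ⟨a, -, ha⟩ := List.mem_map.1 (List.mem_of_mem_take h)
    exact gs_ne v a ha
  rw [ins, px, List.idxOf_append_of_notMem h, List.idxOf_cons_self, List.length_take,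
    List.length_map, qc_len hr, min_eq_left hp, add_zero]

lemma qc_ins {n v : ℕ} (p : ℕ) {r : List ℕ} (hr : r ∈ Sn n) (h1 : 1 ≤ v) (h2 : v ≤ n + 1) :
    ins p v r ∈ Sn (n + 1) := by
  have h : (ins p v r).Perm (v :: r.map (gs v)) := by
    refine List.perm_middle.trans ?_
    rw [List.take_append_drop]
  refine qc_of (h.nodup_iff.2 (List.nodup_cons.2 ⟨fun h => ?_,
    (qc_nodup hr).map (gs_mono v).injective⟩)) (fun a ha => ?_) (by simp [h.length_eq, qc_len hr])
  · obtain ⟨a, -, ha⟩ := List.mem_map.1 h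
    exact gs_ne v a ha
  · rcases List.mem_cons.1 (h.mem_iff.1 ha) with rfl | ha
    · exact ⟨h1, h2⟩
    · obtain ⟨b, hb, rfl⟩ := List.mem_map.1 ha
      have := (qc_mem hr).1 hb
      unfold gs
      split_ifs <;> omega

lemma qc_ins_inj {n p v : ℕ} {r s : List ℕ} (hr : r ∈ Sn n) (hs : s ∈ Sn n)
    (h : ins p v r = ins p v s) : r = s := by
  obtain ⟨h1, h2⟩ := List.append_inj h (by simp [qc_len hr, qc_len hs])
  refine List.map_injective_iff.2 (gs_mono v).injective ?_
  rw [← List.take_append_drop p (r.map _), h1, (List.cons.inj h2).2, List.take_append_drop]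

lemma qc_inj {n a b : ℕ} {l : List ℕ} (hl : l ∈ Sn n) (h1 : 1 ≤ a) (h2 : a ≤ n)
    (h : px l a = px l b) : a = b :=
  (List.idxOf_inj ((qc_mem hl).2 ⟨h1, h2⟩)).1 h

lemma qc_surj {n i : ℕ} {l : List ℕ} (hl : l ∈ Sn n) (hi : i < n) :
    ∃ c, 1 ≤ c ∧ c ≤ n ∧ px l c = i := by
  have h : i < l.length := hi.trans_eq (qc_len hl).symm
  obtain ⟨h1, h2⟩ := (qc_mem hl).1 (List.getElem_mem h)
  exact ⟨_, h1, h2, (qc_nodup hl).idxOf_getElem i h⟩

lemma LL_ins {n p v u : ℕ} {r : List ℕ} (hr : r ∈ Sn n) (hp : p ≤ n) (h1 : 1 ≤ u) (h2 : u ≤ n)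
    (huv : u < v) (hup : px r u < p) : LL u (ins p v r) = (LL u r).map (gs v) := by
  have _h := hp
  obtain ⟨A, B, rfl, hA⟩ := List.eq_append_cons_of_mem ((qc_mem hr).2 ⟨h1, h2⟩)
  rw [px, List.idxOf_append_of_notMem hA, List.idxOf_cons_self] at hup
  have h3 : gs v u = u := if_pos huv
  have h4 : u ∉ A.map (gs v) := fun h =>
    hA ((List.mem_map_of_injective (gs_mono v).injective).1 (h3.symm ▸ h))
  obtain ⟨k, hk⟩ : ∃ k, p - A.length = k + 1 := ⟨p - A.length - 1, by omega⟩
  rw [ins, List.map_append, List.map_cons, h3, List.take_append,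
    List.take_of_length_le (by rw [List.length_map]; omega), List.length_map, hk,
    List.take_succ_cons, List.append_assoc, List.cons_append, LL_split _ h4, LL_split _ hA,
    List.filter_map]
  congr 1
  refine List.filter_congr fun a _ => decide_eq_decide.2 ?_
  unfold gs
  split_ifs <;> omega

lemma qc_outp {f : ℕ → ℕ} (hf : StrictMono f) (xs : List ℕ) :
    ∀ st : List ℕ, outp (st.map f) (xs.map f) = (outp st xs).map f := by
  induction xs with
  | nil => intro st; simp [outp]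
  | cons x xs ih =>
    intro st
    have h : ((fun a => decide (a < f x)) ∘ f) = fun a => decide (a < x) := by
      funext a
      simp [hf.lt_iff_lt]
    rw [List.map_cons, outp, outp, List.takeWhile_map, List.dropWhile_map, h, ← List.map_cons, ih,
      List.map_append]

lemma life_map {f : ℕ → ℕ} (hf : StrictMono f) (W : List ℕ) : life (W.map f) = life W := by
  have h : ∀ t, (outp [])^[t] (W.map f) = ((outp [])^[t] W).map f := by
    intro t
    induction t with
    | zero => rfl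
    | succ t ih =>
      rw [Function.iterate_succ_apply', Function.iterate_succ_apply', ih]
      exact qc_outp hf _ []
  simp only [life, h, List.map_eq_nil_iff]

lemma qc_cov {ι : Type} (I : Finset ι) (E : Finset (List ℕ)) (B : ι → Finset (List ℕ)) (m : ℕ)
    (hE : ∀ l ∈ E, ∃ i ∈ I, l ∈ B i) (hB : ∀ i ∈ I, (B i).card ≤ m) : E.card ≤ I.card * m :=
  ((card_le_card fun l hl => mem_biUnion.2 (hE l hl)).trans card_biUnion_le).trans
    (sum_le_card_nsmul _ _ _ hB)

lemma cover (E E' : Finset (List ℕ)) (C : List ℕ → Finset (ℕ × ℕ)) (m : ℕ)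
    (hC : ∀ r ∈ E', (C r).card ≤ m) (h : ∀ l ∈ E, ∃ r ∈ E', ∃ c ∈ C r, l = ins c.1 c.2 r) :
    E.card ≤ m * E'.card := by
  rw [mul_comm]
  refine qc_cov E' E (fun r => (C r).image fun c => ins c.1 c.2 r) m (fun l hl => ?_)
    fun r hr => card_image_le.trans (hC r hr)
  obtain ⟨r, hr, c, hc, e⟩ := h l hl
  exact ⟨r, hr, mem_image.2 ⟨c, hc, e.symm⟩⟩

lemma qc_F2 (m : ℕ) : ∀ (n : ℕ) (J T : Finset ℕ), J ⊆ Icc 1 n → m ≤ J.card →
    ((Sn n).filter fun l => ∀ v ∈ J, px l v ∈ T).card ≤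
      T.card.descFactorial m * (n - m).factorial := by
  induction m with
  | zero =>
    intro n J T _ _
    simpa [card_Sn] using card_filter_le (Sn n) fun l => ∀ v ∈ J, px l v ∈ T
  | succ m ih =>
    intro n J T hJ hm
    obtain ⟨v, hv⟩ : J.Nonempty := card_pos.1 (by omega)
    obtain ⟨h1, h2⟩ := mem_Icc.1 (hJ hv)
    obtain ⟨n, rfl⟩ : ∃ k, n = k + 1 := ⟨n - 1, by omega⟩
    obtain ⟨K, hK⟩ : ∃ K : Finset ℕ, ∀ a, a ∈ K ↔ a ∈ Icc 1 n ∧ gs v a ∈ J :=
      ⟨_, fun _ => mem_filter⟩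
    obtain ⟨U, hU⟩ : ∃ U : ℕ → Finset ℕ, ∀ p i, i ∈ U p ↔ i ∈ range n ∧ gs p i ∈ T :=
      ⟨fun p => (range n).filter fun i => gs p i ∈ T, fun _ _ => mem_filter⟩
    have h3 : m ≤ K.card := by
      refine le_trans (le_trans (by rw [card_erase_of_mem hv]; omega) (card_le_card
        (s := J.erase v) fun b hb => ?_)) (card_image_le (f := gs v))
      obtain ⟨h4, h5⟩ := mem_erase.1 hb
      have h6 := mem_Icc.1 (hJ h5)
      have h7 : gs v (if b < v then b else b - 1) = b := by
        unfold gs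
        split_ifs <;> omega
      refine mem_image.2 ⟨_, (hK _).2 ⟨mem_Icc.2 ?_, h7.symm ▸ h5⟩, h7⟩
      split_ifs <;> omega
    refine (qc_cov T _ (fun p => ((Sn n).filter fun r => ∀ a ∈ K, px r a ∈ U p).image (ins p v))
      ((T.card - 1).descFactorial m * (n - m).factorial) (fun l hl => ?_) fun p hp => ?_).trans ?_
    · obtain ⟨h4, h5⟩ := mem_filter.1 hl
      obtain ⟨r, hr, e⟩ := exists_ins h4 h1 h2
      refine ⟨_, h5 v hv, mem_image.2 ⟨r, mem_filter.2 ⟨hr, fun a ha => ?_⟩, e.symm⟩⟩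
      obtain ⟨h6, h7⟩ := (hK a).1 ha
      obtain ⟨h8, h9⟩ := mem_Icc.1 h6
      refine (hU _ _).2 ⟨mem_range.2 (px_lt hr h8 h9), ?_⟩
      rw [← px_ins (v := v) hr (Nat.le_of_lt_succ (px_lt h4 h1 h2)) h8 h9, ← e]
      exact h5 _ h7
    · refine card_image_le.trans ((ih n _ _ (fun a ha => ((hK a).1 ha).1) h3).trans
        (Nat.mul_le_mul_right _ (Nat.descFactorial_le _ ?_)))
      rw [← card_erase_of_mem hp]
      exact card_le_card_of_injOn (gs p)
        (fun i hi => mem_erase.2 ⟨gs_ne p i, ((hU p i).1 hi).2⟩) (gs_mono p).injective.injOn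
    · rw [Nat.add_sub_add_right, ← mul_assoc]
      refine Nat.mul_le_mul_right _ ?_
      rcases T.card with _ | c
      · simp
      · rw [Nat.succ_descFactorial_succ, Nat.add_sub_cancel]

lemma card_F2 (m : ℕ) : ∀ (n : ℕ) (J T : Finset ℕ), J ⊆ Icc 1 n → J.card = m →
    ((Sn n).filter fun l => ∀ v ∈ J, px l v ∈ T).card ≤
      T.card.descFactorial m * (n - m).factorial :=
  fun n J T h1 h2 => qc_F2 m n J T h1 h2.ge

/-- Renaming the letters by an injective map of `1..n` into itself. -/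
lemma qc_ren {n : ℕ} {l : List ℕ} {g : ℕ → ℕ} (hl : l ∈ Sn n) (hg : Function.Injective g)
    (h : ∀ b, 1 ≤ b → b ≤ n → 1 ≤ g b ∧ g b ≤ n) : l.map g ∈ Sn n := by
  refine qc_of ((qc_nodup hl).map hg) (fun b hb => ?_) (by rw [List.length_map, qc_len hl])
  obtain ⟨c, hc, rfl⟩ := List.mem_map.1 hb
  exact h c ((qc_mem hl).1 hc).1 ((qc_mem hl).1 hc).2

lemma qc_perm {n a i j k : ℕ} (S : Finset ℕ) (h1 : 1 ≤ a) (h2 : a + 2 ≤ n)
    (h3 : ∀ b ∈ S, b + 3 ≤ a ∨ a + 3 ≤ b)
    (h4 : a ≤ i ∧ i ≤ a + 2 ∧ a ≤ j ∧ j ≤ a + 2 ∧ a ≤ k ∧ k ≤ a + 2 ∧ i ≠ j ∧ i ≠ k ∧ j ≠ k) :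
    (((Sn n).filter fun l => ∀ b ∈ S, NI (px l) b).filter
      fun l => px l i < px l j ∧ px l j < px l k).card ≤
    (((Sn n).filter fun l => ∀ b ∈ S, NI (px l) b).filter fun l => ¬NI (px l) a).card := by
  obtain ⟨g, hg⟩ : ∃ g : ℕ → ℕ, ∀ b, g b =
      if b = i then a else if b = j then a + 1 else if b = k then a + 2 else b := ⟨_, fun _ => rfl⟩
  have hi : Function.Injective g := by
    intro b c e
    rw [hg, hg] at e
    split_ifs at e <;> omega
  refine card_le_card_of_injOn (List.map g) (fun l hl => ?_) (List.map_injective_iff.2 hi).injOn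
  obtain ⟨h5, h6, h7⟩ := mem_filter.1 (mem_coe.1 hl)
  obtain ⟨h8, h9⟩ := mem_filter.1 h5
  have e : ∀ b c, g b = c → px (l.map g) c = px l b := fun b c e => e ▸ qc_map hi b l
  refine mem_coe.2 (mem_filter.2 ⟨mem_filter.2 ⟨qc_ren h8 hi fun b _ _ => ?_, fun b hb => ?_⟩, ?_⟩)
  · rw [hg]
    split_ifs <;> omega
  · have := h3 b hb
    rw [NI, e b b, e (b + 1) (b + 1), e (b + 2) (b + 2)]
    · exact h9 b hb
    all_goals
      rw [hg]
      split_ifs <;> omega
  · rw [NI, e i a, e j (a + 1), e k (a + 2)]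
    · omega
    all_goals
      rw [hg]
      split_ifs <;> omega

lemma card_triples (n : ℕ) (S : Finset ℕ) (h1 : ∀ a ∈ S, 1 ≤ a ∧ a + 2 ≤ n)
    (h2 : ∀ a ∈ S, ∀ b ∈ S, a < b → a + 3 ≤ b) :
    6 ^ S.card * ((Sn n).filter fun l => ∀ a ∈ S, NI (px l) a).card ≤
      5 ^ S.card * n.factorial := by
  induction S using Finset.induction_on with
  | empty => simp [card_Sn]
  | insert a S ha ih =>
    have h3 := ih (fun b hb => h1 b (mem_insert_of_mem hb))
      fun b hb c hc => h2 b (mem_insert_of_mem hb) c (mem_insert_of_mem hc)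
    obtain ⟨h4, h5⟩ := h1 a (mem_insert_self _ _)
    have h6 : ∀ b ∈ S, b + 3 ≤ a ∨ a + 3 ≤ b := fun b hb => by
      have := h2 a (mem_insert_self _ _) b (mem_insert_of_mem hb)
      have := h2 b (mem_insert_of_mem hb) a (mem_insert_self _ _)
      have : b ≠ a := fun e => ha (e ▸ hb)
      omega
    have h7 := qc_cov ({(a, a + 1, a + 2), (a, a + 2, a + 1), (a + 1, a, a + 2), (a + 1, a + 2, a),
      (a + 2, a, a + 1), (a + 2, a + 1, a)} : Finset (ℕ × ℕ × ℕ))
      ((Sn n).filter fun l => ∀ b ∈ S, NI (px l) b)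
      (fun c => ((Sn n).filter fun l => ∀ b ∈ S, NI (px l) b).filter
        fun l => px l c.1 < px l c.2.1 ∧ px l c.2.1 < px l c.2.2) _ (fun l hl => by
        have h8 := (mem_filter.1 hl).1
        have := mt (qc_inj (a := a) (b := a + 1) h8 h4 (by omega)) (by omega)
        have := mt (qc_inj (a := a) (b := a + 2) h8 h4 (by omega)) (by omega)
        have := mt (qc_inj (a := a + 1) (b := a + 2) h8 (by omega) (by omega)) (by omega)
        have e : ∀ (P : List ℕ → Prop) [DecidablePred P],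
            l ∈ ((Sn n).filter fun l => ∀ b ∈ S, NI (px l) b).filter P ↔ P l :=
          fun P _ => mem_filter.trans (and_iff_right hl)
        simp only [mem_insert, mem_singleton, exists_eq_or_imp, exists_eq_left, e]
        omega)
      fun c hc => qc_perm S h4 h5 h6 (by
        simp only [mem_insert, mem_singleton] at hc
        rcases hc with rfl | rfl | rfl | rfl | rfl | rfl <;> dsimp only <;> omega)
    have h8 := h7.trans (Nat.mul_le_mul_right _ card_le_six)
    have h9 := card_filter_add_card_filter_not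
      (s := (Sn n).filter fun l => ∀ b ∈ S, NI (px l) b) fun l => NI (px l) a
    have h10 : ((Sn n).filter fun l => ∀ b ∈ insert a S, NI (px l) b).card =
        (((Sn n).filter fun l => ∀ b ∈ S, NI (px l) b).filter fun l => NI (px l) a).card := by
      rw [filter_filter]
      simp only [forall_mem_insert, and_comm]
    rw [card_insert_of_notMem ha, pow_succ, pow_succ, h10, mul_assoc, mul_right_comm]
    refine le_trans ?_ (Nat.mul_le_mul_right 5 h3)
    rw [mul_assoc]
    exact Nat.mul_le_mul_left _ (by omega)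

lemma qc_rcd {n s p : ℕ} (u : ℕ) {r : List ℕ} (hr : r ∈ Sn n) (hs : s ≤ n) (hp : p ≤ n + 1) :
    rcd (n + 1) (px (ins s 1 r)) p u ≤
      rcd n (px r) (if s < p then p - 1 else p) (u - 1) + if s = p - 1 then 1 else 0 := by
  have e : ∀ a, 1 ≤ a → a ≤ n → px (ins s 1 r) (a + 1) = gs s (px r a) := fun a h1 h2 => by
    rw [← px_ins (v := 1) hr hs h1 h2, gs, if_neg (by omega)]
  have h0 : (({1} : Finset ℕ).filter fun _ => s = p - 1).card = if s = p - 1 then 1 else 0 := by
    rw [card_filter, sum_singleton]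
  rw [rcd, rcd, ← h0]
  refine le_trans ((card_le_card fun a ha => ?_).trans (card_union_le _ _))
    (Nat.add_le_add_right (card_image_le (f := (· + 1))) _)
  obtain ⟨h1, h2, h3⟩ := mem_filter.1 ha
  rw [mem_Ioc] at h1
  obtain ⟨b, rfl⟩ : ∃ b, a = b + 1 := ⟨a - 1, by omega⟩
  rcases Nat.eq_zero_or_pos b with rfl | hb
  · refine mem_union_right _ (mem_filter.2 ⟨mem_singleton_self _, ?_⟩)
    rw [zero_add, qc_self hr hs] at h2 h3
    by_contra h4
    obtain ⟨c, h5, h6, h7⟩ := qc_surj hr (i := s) (by omega)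
    refine h3 (c + 1) (mem_Ioc.2 (by omega)) ?_
    rw [e c h5 h6, h7, gs, if_neg (lt_irrefl _)]
    omega
  · refine mem_union_left _ (mem_image.2 ⟨b, mem_filter.2 ⟨mem_Ioc.2 (by omega), ?_,
      fun c hc h4 => ?_⟩, rfl⟩)
    · rw [e b hb (by omega), gs] at h2
      split_ifs at h2 ⊢ <;> omega
    · rw [mem_Ioc] at hc
      refine h3 (c + 1) (mem_Ioc.2 (by omega)) ?_
      rw [e b hb (by omega), e c (by omega) hc.2, gs, gs]
      split_ifs at h4 ⊢ <;> omega

lemma sum_rcd (n : ℕ) : ∀ p u, p ≤ n → ∑ l ∈ Sn n, 2 ^ rcd n (px l) p u ≤ (n + 1).factorial := by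
  induction n with
  | zero => intro p u _; simp [rcd, card_Sn]
  | succ n ih =>
    intro p u hp
    have h1 : Sn (n + 1) ⊆ (range (n + 1) ×ˢ Sn n).image fun c => ins c.1 1 c.2 := fun l hl => by
      obtain ⟨r, hr, e⟩ := exists_ins hl le_rfl (by omega)
      exact mem_image.2 ⟨(px l 1, r),
        mem_product.2 ⟨mem_range.2 (px_lt hl le_rfl (by omega)), hr⟩, e.symm⟩
    refine ((sum_le_sum_of_subset h1).trans
      (sum_image_le_of_nonneg fun _ _ => Nat.zero_le _)).trans ?_
    rw [sum_product]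
    calc _ ≤ ∑ s ∈ range (n + 1), (1 + if s = p - 1 then 1 else 0) * (n + 1).factorial := by
          refine sum_le_sum fun s hs => ?_
          have h2 : s ≤ n := Nat.le_of_lt_succ (mem_range.1 hs)
          refine le_trans ?_ (Nat.mul_le_mul_left _
            (ih (if s < p then p - 1 else p) (u - 1) (by split_ifs <;> omega)))
          rw [mul_sum]
          refine sum_le_sum fun r hr =>
            (Nat.pow_le_pow_right (by norm_num) (qc_rcd u hr h2 hp)).trans (le_of_eq ?_)
          rw [pow_add, mul_comm]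
          split_ifs <;> rfl
      _ ≤ _ := by
          rw [← sum_mul, Nat.factorial_succ (n + 1), sum_add_distrib, sum_ite_eq']
          refine Nat.mul_le_mul_right _ ?_
          rw [sum_const, card_range, smul_eq_mul]
          split_ifs <;> omega

end Pool.Agent.StackSort
end

-- part Pool.Agent.P.MP_f1060b_co.QGood
section

namespace Pool.Agent.StackSort

open Finset Classical

variable {q x n : ℕ}

lemma qg_cov {ι : Type} (I : Finset ι) (E : Finset (List ℕ)) (B : ι → Finset (List ℕ)) (K F : ℕ)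
    (hE : ∀ l ∈ E, ∃ i ∈ I, l ∈ B i) (hB : ∀ i ∈ I, K * (B i).card ≤ F) :
    K * E.card ≤ I.card * F := by
  have h1 : E.card ≤ ∑ i ∈ I, (B i).card :=
    (card_le_card fun l hl => mem_biUnion.2 (hE l hl)).trans card_biUnion_le
  calc K * E.card ≤ K * ∑ i ∈ I, (B i).card := Nat.mul_le_mul_left _ h1
    _ = ∑ i ∈ I, K * (B i).card := mul_sum _ _ _
    _ ≤ I.card • F := sum_le_card_nsmul _ _ _ hB
    _ = I.card * F := smul_eq_mul _ _

lemma qg_n (h : Par q x n) : 2 ≤ n ∧ n + 2 ≤ x ^ 252 := by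
  have h1 := h.pw 3 251 252 (by norm_num) (by norm_num)
  have h2 := h.pw 2 0 250 (by norm_num) (by norm_num)
  have h3 := h.lo
  have h4 := h.hi
  have h5 := h.pw 1 250 251 (by norm_num) (by norm_num)
  rw [pow_zero] at h2
  omega

/-- The last step: `m` events, each of measure at most `1 / K`. -/
lemma qg_fin (h : Par q x n) {K e m a b : ℕ} (h1 : K * e ≤ m * (n + 1).factorial)
    (hm : m ≤ (n + 2) ^ a) (hb : 252 * (a + 3) + 1 ≤ b) (hK : x ^ b ≤ K) :
    x * e ≤ (n - 2).factorial := by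
  obtain ⟨h2, h3⟩ := qg_n h
  have hx := h.big
  obtain ⟨k, rfl⟩ := Nat.exists_eq_add_of_le' h2
  have h4 : (k + 2 + 1).factorial ≤ (k + 2 + 2) ^ 3 * k.factorial := by
    rw [Nat.factorial_succ, Nat.factorial_succ, Nat.factorial_succ, ← mul_assoc, ← mul_assoc,
      pow_succ, pow_two]
    gcongr <;> omega
  have h5 : x * ((k + 2 + 2) ^ a * (k + 2 + 2) ^ 3) ≤ K := by
    refine le_trans ?_ hK
    calc x * ((k + 2 + 2) ^ a * (k + 2 + 2) ^ 3) ≤ x * ((x ^ 252) ^ a * (x ^ 252) ^ 3) := by gcongr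
      _ = x ^ (252 * (a + 3) + 1) := by ring
      _ ≤ x ^ b := Nat.pow_le_pow_right (by omega) hb
  have h0 : 0 < K := lt_of_lt_of_le (Nat.pow_pos (by omega)) hK
  refine Nat.le_of_mul_le_mul_left ?_ h0
  calc K * (x * e) = x * (K * e) := by ring
    _ ≤ x * ((k + 2 + 2) ^ a * ((k + 2 + 2) ^ 3 * k.factorial)) :=
      Nat.mul_le_mul_left _ (h1.trans (Nat.mul_le_mul hm h4))
    _ = x * ((k + 2 + 2) ^ a * (k + 2 + 2) ^ 3) * k.factorial := by ring
    _ ≤ K * (k + 2 - 2).factorial := Nat.mul_le_mul_right _ h5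

lemma qg_two (h : Par q x n) {b : ℕ} (hb : b ≤ 10000) : x ^ b ≤ 2 ^ x := by
  have h1 := h.sq
  calc x ^ b = 2 ^ (q * b) := by rw [pow_mul, ← h.hx]
    _ ≤ 2 ^ x := Nat.pow_le_pow_right (by norm_num) (by nlinarith)

lemma qg_six {k t c F : ℕ} (h : 4 * k ≤ t) (h1 : 6 ^ t * c ≤ 5 ^ t * F) : 2 ^ k * c ≤ F := by
  obtain ⟨r, rfl⟩ := Nat.exists_eq_add_of_le h
  have h2 : 5 ^ (4 * k + r) * 2 ^ k ≤ 6 ^ (4 * k + r) := by
    calc 5 ^ (4 * k + r) * 2 ^ k = (5 ^ 4 * 2) ^ k * 5 ^ r := by rw [mul_pow, ← pow_mul]; ring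
      _ ≤ (6 ^ 4) ^ k * 6 ^ r := by gcongr <;> norm_num
      _ = 6 ^ (4 * k + r) := by rw [← pow_mul, pow_add]
  refine Nat.le_of_mul_le_mul_left (c := 5 ^ (4 * k + r)) ?_ (by positivity)
  rw [← mul_assoc]
  exact (Nat.mul_le_mul_right _ h2).trans h1

lemma bad1 (h : Par q x n) :
    x * ((Sn n).filter fun l => ¬G1 n x (px l)).card ≤ (n - 2).factorial := by
  refine qg_fin h (a := 2) (b := 10000) (qg_cov (range (n + 1) ×ˢ range (n + 1)) _
    (fun i => (Sn n).filter fun l => x ≤ rcd n (px l) i.1 i.2) (2 ^ x) _ ?_ ?_) ?_ (by norm_num)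
    (qg_two h le_rfl)
  · intro l hl
    obtain ⟨h1, h2⟩ := mem_filter.1 hl
    simp only [G1, not_forall, not_le] at h2
    obtain ⟨p, hp, u, hu, h3⟩ := h2
    exact ⟨(p, u), by simp; omega, mem_filter.2 ⟨h1, h3.le⟩⟩
  · rintro ⟨p, u⟩ hi
    have hp : p ≤ n := by simp at hi; omega
    refine le_trans ?_ ((sum_le_sum_of_subset (filter_subset (fun l => x ≤ rcd n (px l) p u) _)).trans
      (sum_rcd n p u hp))
    rw [mul_comm]
    exact card_nsmul_le_sum _ _ _ fun l hl => Nat.pow_le_pow_right (by norm_num) (mem_filter.1 hl).2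
  · rw [card_product, card_range, pow_two]
    gcongr <;> omega

lemma qg_desc (n i s : ℕ) : (n - i).descFactorial s * n ^ s ≤ (n - i) ^ s * n.descFactorial s := by
  induction s with
  | zero => simp
  | succ s ih =>
    have h1 : (n - i - s) * n ≤ (n - i) * (n - s) := by
      rw [Nat.sub_mul, Nat.mul_sub]
      exact Nat.sub_le_sub_left (by rw [mul_comm]; exact Nat.mul_le_mul_left _ (Nat.sub_le _ _)) _
    calc (n - i).descFactorial (s + 1) * n ^ (s + 1)
        = (n - i - s) * n * ((n - i).descFactorial s * n ^ s) := by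
          rw [Nat.descFactorial_succ]; ring
      _ ≤ (n - i) * (n - s) * ((n - i) ^ s * n.descFactorial s) := Nat.mul_le_mul h1 ih
      _ = _ := by rw [Nat.descFactorial_succ]; ring

lemma qg_exp {n i s x : ℕ} (hn : 0 < n) (hi : i ≤ n) (h : x * n ≤ i * s) :
    2 ^ x * (n - i) ^ s ≤ n ^ s := by
  have h0 : (0 : ℝ) < n := by exact_mod_cast hn
  have h1 : ((n - i : ℕ) : ℝ) ≤ n * Real.exp (-(i / n)) := by
    have := mul_le_mul_of_nonneg_left (Real.add_one_le_exp (-(i / n : ℝ))) h0.le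
    rw [Nat.cast_sub hi]
    refine le_trans (le_of_eq ?_) this
    field_simp
    ring
  have h2 : (2 : ℝ) ^ x ≤ Real.exp x := by
    rw [← Real.exp_one_pow]
    exact pow_le_pow_left₀ (by norm_num) (by linarith [Real.add_one_le_exp 1]) _
  have h3 : (x : ℝ) + s * -(i / n) ≤ 0 := by
    have : (x : ℝ) * n ≤ i * s := by exact_mod_cast h
    have h4 : (x : ℝ) ≤ i * s / n := (le_div_iff₀ h0).2 this
    have h5 : (i * s / n : ℝ) = s * (i / n) := by ring
    linarith
  have h4 : (2 : ℝ) ^ x * ((n - i : ℕ) : ℝ) ^ s ≤ (n : ℝ) ^ s := by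
    calc (2 : ℝ) ^ x * ((n - i : ℕ) : ℝ) ^ s ≤ Real.exp x * (n * Real.exp (-(i / n))) ^ s := by
          gcongr
      _ = n ^ s * Real.exp (x + s * -(i / n)) := by
          rw [mul_pow, ← Real.exp_nat_mul, Real.exp_add]; ring
      _ ≤ n ^ s * 1 := by gcongr; exact Real.exp_le_one_iff.2 h3
      _ = n ^ s := mul_one _
  exact_mod_cast h4

lemma bad2 (h : Par q x n) :
    x * ((Sn n).filter fun l => ¬G2 n x (px l)).card ≤ (n - 2).factorial := by
  have hn := (qg_n h).1
  have hx := h.big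
  refine qg_fin h (a := 4) (b := 10000) (qg_cov
    (((range (n + 2) ×ˢ range (n + 2)) ×ˢ range (n + 2) ×ˢ range (n + 2)).filter fun i =>
      i.1.2 ≤ n ∧ 1 ≤ i.2.1 ∧ x * n ≤ (i.1.2 - i.1.1) * (i.2.2 - i.2.1)) _
    (fun i => (Sn n).filter fun l => ∀ v ∈ Ico i.2.1 i.2.2, px l v ∈ range n \ Ico i.1.1 i.1.2)
    (2 ^ x) _ ?_ ?_) ?_ (by norm_num) (qg_two h le_rfl)
  · intro l hl
    obtain ⟨h1, h2⟩ := mem_filter.1 hl
    simp only [G2, not_forall, not_exists, not_and] at h2
    obtain ⟨a, b, c, d, h3, h4, h5, h6, h7⟩ := h2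
    have h8 : 0 < (b - a) * (d - c) := lt_of_lt_of_le (Nat.mul_pos (by omega) (by omega)) h6
    have h9 := Nat.pos_of_mul_pos_left h8
    have h10 := Nat.pos_of_mul_pos_right h8
    refine ⟨((a, b), c, d), mem_filter.2 ⟨by simp; omega, h3, h4, h6⟩, mem_filter.2 ⟨h1, ?_⟩⟩
    intro v hv
    dsimp only at hv ⊢
    rw [mem_Ico] at hv
    have := h7 v hv.1 hv.2
    have := px_lt h1 (u := v) (by omega) (by omega)
    simp only [mem_sdiff, mem_range, mem_Ico]
    omega
  · rintro ⟨⟨a, b⟩, c, d⟩ hi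
    obtain ⟨h1, h2, h3, h4⟩ := mem_filter.1 hi
    have hd : d ≤ n + 1 := by simp at h1; omega
    dsimp only at h2 h3 h4 ⊢
    have h5 := card_F2 (d - c) n (Ico c d) (range n \ Ico a b)
      (fun v hv => by rw [mem_Ico] at hv; rw [mem_Icc]; omega) (Nat.card_Ico _ _)
    rw [card_sdiff_of_subset (fun v hv => by rw [mem_Ico] at hv; rw [mem_range]; omega),
      card_range, Nat.card_Ico] at h5
    have h6 := qg_exp (by omega) (by omega : b - a ≤ n) h4
    have h7 : 2 ^ x * (n - (b - a)).descFactorial (d - c) ≤ n.descFactorial (d - c) := by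
      refine Nat.le_of_mul_le_mul_right (c := n ^ (d - c)) ?_ (Nat.pow_pos (by omega))
      calc _ ≤ 2 ^ x * ((n - (b - a)) ^ (d - c) * n.descFactorial (d - c)) := by
            rw [mul_assoc]; exact Nat.mul_le_mul_left _ (qg_desc _ _ _)
        _ ≤ _ := by rw [← mul_assoc, mul_comm]; exact Nat.mul_le_mul_left _ h6
    calc _ ≤ 2 ^ x * ((n - (b - a)).descFactorial (d - c) * (n - (d - c)).factorial) :=
          Nat.mul_le_mul_left _ h5
      _ ≤ n.descFactorial (d - c) * (n - (d - c)).factorial := by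
          rw [← mul_assoc]; exact Nat.mul_le_mul_right _ h7
      _ = n.factorial := by rw [mul_comm, Nat.factorial_mul_descFactorial (by omega)]
      _ ≤ _ := Nat.factorial_le (by omega)
  · refine (card_filter_le _ _).trans (le_of_eq ?_)
    simp only [card_product, card_range]
    ring

/-- The words with no increasing triple at the starts in `S`. -/
def qgB (n : ℕ) (S : Finset ℕ) : Finset (List ℕ) := (Sn n).filter fun l => ∀ a ∈ S, NI (px l) a

lemma mem_qgB {S : Finset ℕ} {l : List ℕ} : l ∈ qgB n S ↔ l ∈ Sn n ∧ ∀ a ∈ S, NI (px l) a :=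
  mem_filter

lemma qg_tri {k : ℕ} {S : Finset ℕ} (h1 : ∀ a ∈ S, 1 ≤ a ∧ a + 2 ≤ n)
    (h2 : ∀ a ∈ S, ∀ b ∈ S, a < b → a + 3 ≤ b) (hk : 4 * k ≤ S.card) :
    2 ^ k * (qgB n S).card ≤ n.factorial :=
  qg_six hk (card_triples n S h1 h2)

lemma qg_choose {N t y : ℕ} (h : N ≤ t * y) : N.choose t ≤ (3 * y) ^ t := by
  have h1 : (t : ℝ) ^ t / t.factorial ≤ Real.exp t :=
    Real.pow_div_factorial_le_exp _ (by positivity) t
  have h2 : Real.exp t ≤ 3 ^ t := by
    rw [← Real.exp_one_pow]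
    exact pow_le_pow_left₀ (Real.exp_pos 1).le (by linarith [Real.exp_one_lt_d9]) _
  have h3 : t ^ t ≤ 3 ^ t * t.factorial := by
    exact_mod_cast (div_le_iff₀ (by positivity)).1 (h1.trans h2)
  have h4 : t.factorial * N.choose t ≤ N ^ t := by
    rw [← Nat.descFactorial_eq_factorial_mul_choose]
    exact Nat.descFactorial_le_pow _ _
  refine Nat.le_of_mul_le_mul_left (c := t.factorial) ?_ (Nat.factorial_pos _)
  calc _ ≤ N ^ t := h4
    _ ≤ (t * y) ^ t := Nat.pow_le_pow_left h _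
    _ = t ^ t * y ^ t := mul_pow _ _ _
    _ ≤ 3 ^ t * t.factorial * y ^ t := Nat.mul_le_mul_right _ h3
    _ = _ := by rw [mul_pow]; ring

lemma qg_div {s i j a b : ℕ} (ha : a < s) (hb : b < s) (h : s * i + a = s * j + b) : i = j := by
  have := congrArg (· / s) h
  simpa [Nat.mul_add_div (by omega : 0 < s), Nat.div_eq_of_lt ha, Nat.div_eq_of_lt hb] using this

/-- At least `t` bad windows above `v`. -/
lemma qg_win {s t k : ℕ} (v : ℕ) (hs : 0 < s) (hk : 4 * k ≤ t * s) :
    2 ^ k * ((Sn n).filter fun l => t ≤ badW n s (px l) v).card ≤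
      (n - v).choose t * n.factorial := by
  have hW : ((range n).filter fun i => v ≤ 3 * s * i ∧ 3 * s * (i + 1) ≤ n).card ≤ n - v := by
    rw [← Nat.card_Ico]
    refine card_le_card_of_injOn (fun i => 3 * s * i) (fun i hi => ?_) fun i _ j _ e =>
      Nat.eq_of_mul_eq_mul_left (by omega) e
    have h1 := (mem_filter.1 (mem_coe.1 hi)).2
    rw [mul_add] at h1
    simp only [coe_Ico, Set.mem_Ico]
    omega
  refine (qg_cov (powersetCard t ((range n).filter fun i => v ≤ 3 * s * i ∧ 3 * s * (i + 1) ≤ n)) _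
    (fun A => qgB n ((A ×ˢ range s).image fun i => 3 * s * i.1 + 1 + 3 * i.2)) _ n.factorial
    ?_ ?_).trans ?_
  · intro l hl
    obtain ⟨h1, h2⟩ := mem_filter.1 hl
    obtain ⟨A, hA, h3⟩ := exists_subset_card_eq h2
    refine ⟨A, mem_powersetCard.2 ⟨fun i hi => ?_, h3⟩, mem_qgB.2 ⟨h1, fun a ha => ?_⟩⟩
    · obtain ⟨h4, h5, h6, -⟩ := mem_filter.1 (hA hi)
      exact mem_filter.2 ⟨h4, h5, h6⟩
    · obtain ⟨i, hi, rfl⟩ := mem_image.1 ha
      obtain ⟨h4, h5⟩ := mem_product.1 hi
      exact (mem_filter.1 (hA h4)).2.2.2 _ (mem_range.1 h5)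
  · intro A hA
    obtain ⟨h1, h2⟩ := mem_powersetCard.1 hA
    refine qg_tri (fun a ha => ?_) (fun a ha b hb hab => ?_) ?_
    · obtain ⟨i, hi, rfl⟩ := mem_image.1 ha
      obtain ⟨h4, h5⟩ := mem_product.1 hi
      have h6 := (mem_filter.1 (h1 h4)).2.2
      rw [mul_add] at h6
      rw [mem_range] at h5
      omega
    · obtain ⟨i, -, rfl⟩ := mem_image.1 ha
      obtain ⟨j, -, rfl⟩ := mem_image.1 hb
      rw [mul_assoc, mul_assoc] at hab ⊢
      omega
    · rw [card_image_of_injOn, card_product, card_range, h2]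
      · exact hk
      · intro i hi j hj e
        have h3 := mem_range.1 (mem_product.1 (mem_coe.1 hi)).2
        have h4 := mem_range.1 (mem_product.1 (mem_coe.1 hj)).2
        simp only [mul_assoc] at e
        have h5 := qg_div (i := i.1) (j := j.1) h3 h4 (by omega)
        rw [h5] at e
        exact Prod.ext h5 (by omega)
  · rw [card_powersetCard]
    exact Nat.mul_le_mul_right _ (Nat.choose_le_choose _ hW)

lemma bad3 (h : Par q x n) :
    x * ((Sn n).filter fun l => ¬G3 n q x (px l)).card ≤ (n - 2).factorial := by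
  have hx := h.big
  have hq := h.hq
  refine qg_fin h (m := 1) (a := 0) (b := 761) ((qg_cov (range (n + 1)) _
    (fun v => (Sn n).filter fun l => (n - v) / x ^ 5 + 761 ≤ badW n (28 * q) (px l) v)
    (x ^ 761) n.factorial ?_ ?_).trans ?_) (by simp) (by norm_num) le_rfl
  · intro l hl
    obtain ⟨h1, h2⟩ := mem_filter.1 hl
    simp only [G3, not_forall, not_le] at h2
    obtain ⟨v, hv, h3⟩ := h2
    exact ⟨v, mem_range.2 (by omega), mem_filter.2 ⟨h1, h3⟩⟩
  · intro v _
    obtain ⟨t, ht⟩ : ∃ t, t = (n - v) / x ^ 5 + 761 := ⟨_, rfl⟩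
    have h1 : n - v ≤ t * x ^ 5 := by
      refine (Nat.lt_mul_div_succ (n - v) (Nat.pow_pos (by omega : 0 < x) (n := 5))).le.trans ?_
      rw [mul_comm]
      exact Nat.mul_le_mul_right _ (ht ▸ Nat.add_le_add_left (by norm_num) _)
    have h2 := qg_win (n := n) (s := 28 * q) (t := t) (k := q * (7 * t)) v (by omega)
      (le_of_eq (by ring))
    have h3 : (n - v).choose t ≤ (x ^ 6) ^ t :=
      (qg_choose h1).trans (Nat.pow_le_pow_left (h.pw 3 5 6 (by norm_num) (by norm_num)) _)
    have h4 : 761 ≤ t := ht ▸ Nat.le_add_left _ _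
    rw [pow_mul, ← h.hx] at h2
    rw [← ht]
    refine le_trans (Nat.mul_le_mul_right _ (Nat.pow_le_pow_right (by omega : 0 < x) h4))
      (Nat.le_of_mul_le_mul_left (c := (x ^ 6) ^ t) ?_ (by positivity))
    refine le_trans (le_of_eq ?_) (h2.trans (Nat.mul_le_mul_right _ h3))
    rw [← mul_assoc, ← mul_pow, ← pow_succ, pow_mul]
  · rw [card_range, one_mul, Nat.factorial_succ]

lemma qg_inj {l : List ℕ} (hl : l ∈ Sn n) {a b : ℕ} (h1 : 1 ≤ a) (h2 : a ≤ n)
    (h : px l a = px l b) : a = b :=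
  (List.idxOf_inj ((mem_Sn.1 hl).mem_iff.2 (List.mem_range'_1.2 ⟨h1, by omega⟩))).1 h

lemma bad4 (h : Par q x n) :
    x * ((Sn n).filter fun l => ¬G4 n x (px l)).card ≤ (n - 2).factorial := by
  have hx := h.big
  have hq := h.sq
  refine qg_fin h (a := 2) (b := 2000) (qg_cov
    ((range (n + 2) ×ˢ range (n + 2)).filter fun i =>
      1 ≤ i.1 ∧ 2 ≤ i.2 ∧ i.1 + 2 * i.2 * x + 2 ≤ n) _
    (fun i => qgB n ((range x).image fun j => i.1 + 2 * i.2 * j))
    (2 ^ (q * 2000)) _ ?_ ?_) ?_ (by norm_num) (by rw [pow_mul, ← h.hx])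
  · intro l hl
    obtain ⟨h1, h2⟩ := mem_filter.1 hl
    simp only [G4, not_forall, not_exists, not_and, not_lt] at h2
    obtain ⟨b, m, h3, h4, h5, h6⟩ := h2
    have h7 : m ≤ 2 * m * x := by nlinarith
    refine ⟨(b, m), mem_filter.2 ⟨by simp; omega, h3, h4, h5⟩, mem_qgB.2 ⟨h1, ?_⟩⟩
    intro a ha
    obtain ⟨j, hj, rfl⟩ := mem_image.1 ha
    rw [mem_range] at hj
    have h8 : 2 * m * j ≤ 2 * m * x := Nat.mul_le_mul_left _ hj.le
    dsimp only
    refine Or.inl (lt_of_le_of_ne (h6 j hj) fun e => ?_)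
    have := qg_inj h1 (by omega) (by omega) e
    omega
  · rintro ⟨b, m⟩ hi
    obtain ⟨-, h2, h3, h4⟩ := mem_filter.1 hi
    dsimp only at h2 h3 h4 ⊢
    refine (qg_tri (fun a ha => ?_) (fun a ha c hc hac => ?_) ?_).trans
      (Nat.factorial_le (Nat.le_succ n))
    · obtain ⟨j, hj, rfl⟩ := mem_image.1 ha
      have : 2 * m * j ≤ 2 * m * x := Nat.mul_le_mul_left _ (mem_range.1 hj).le
      omega
    · obtain ⟨j, -, rfl⟩ := mem_image.1 ha
      obtain ⟨k, -, rfl⟩ := mem_image.1 hc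
      have : j < k := lt_of_mul_lt_mul_left (a := 2 * m) (by omega) (Nat.zero_le _)
      have : 2 * m * (j + 1) ≤ 2 * m * k := Nat.mul_le_mul_left _ this
      rw [mul_add] at this
      omega
    · rw [card_image_of_injective _ fun j k e => Nat.eq_of_mul_eq_mul_left (by omega : 0 < 2 * m)
        (Nat.add_left_cancel e), card_range]
      omega
  · refine (card_filter_le _ _).trans (le_of_eq ?_)
    simp only [card_product, card_range]
    ring

end Pool.Agent.StackSort
end

-- part Pool.Agent.P.MP_f1060b_co.QPin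
section

namespace Pool.Agent.StackSort

open Finset Classical

variable {q x n : ℕ}

lemma qp_gs_le (v a : ℕ) : a ≤ gs v a ∧ gs v a ≤ a + 1 := by
  unfold gs
  split_ifs <;> omega

lemma qp_gs_lt {v a : ℕ} (h : a < v) : gs v a = a := by
  unfold gs
  rw [if_pos h]

lemma qp_lt_of_gs {v a : ℕ} (h : gs v a < v) : a < v := by
  have := qp_gs_le v a
  omega

lemma qp_pre {m v z : ℕ} (h1 : 1 ≤ v) (h2 : v ≤ m + 1) (h3 : 1 ≤ z) (h4 : z ≤ m + 1)
    (h5 : z ≠ v) : ∃ a, 1 ≤ a ∧ a ≤ m ∧ gs v a = z := by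
  by_cases h : z < v
  · exact ⟨z, h3, by omega, qp_gs_lt h⟩
  · refine ⟨z - 1, by omega, by omega, ?_⟩
    unfold gs
    split_ifs <;> omega

/-- Deleting one letter. -/
lemma qp_del {m v : ℕ} {l : List ℕ} (hl : l ∈ Sn (m + 1)) (h1 : 1 ≤ v) (h2 : v ≤ m + 1) :
    ∃ r ∈ Sn m, l = ins (px l v) v r ∧ px l v ≤ m ∧
      (∀ a, 1 ≤ a → a ≤ m → px l (gs v a) = gs (px l v) (px r a)) ∧
      ∀ u, 1 ≤ u → u < v → px l u < px l v → life (LL u l) = life (LL u r) := by
  obtain ⟨r, hr, e⟩ := exists_ins hl h1 h2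
  have hp : px l v ≤ m := by have := px_lt hl h1 h2; omega
  have hpx : ∀ a, 1 ≤ a → a ≤ m → px l (gs v a) = gs (px l v) (px r a) := by
    intro a ha hb
    have := px_ins (v := v) hr hp ha hb
    rwa [← e] at this
  refine ⟨r, hr, e, hp, hpx, ?_⟩
  intro u hu huv hlt
  have h3 := hpx u hu (by omega)
  rw [qp_gs_lt huv] at h3
  have h4 : px r u < px l v := qp_lt_of_gs (by rw [← h3]; exact hlt)
  have h5 := LL_ins hr hp hu (by omega) huv h4
  rw [← e] at h5
  rw [h5, life_map (gs_mono v)]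

lemma qp_TE {m S v z : ℕ} {π ρ : ℕ → ℕ} (hS : S + 2 ≤ m) (h1 : 1 ≤ v) (h2 : v ≤ m + 1)
    (hpx : ∀ a, 1 ≤ a → a ≤ m → π (gs v a) = gs (π v) (ρ a)) (hz : TE (m + 1) S π z)
    (hne : z ≠ v) : ∃ a, gs v a = z ∧ TE m S ρ a := by
  obtain ⟨z1, z2, z3, z4⟩ := hz
  obtain ⟨a, a1, a2, a3⟩ := qp_pre h1 h2 (by omega) z2 hne
  have g1 := qp_gs_le v a
  have g2 := qp_gs_le (π v) (ρ a)
  have g3 := hpx a a1 a2
  rw [a3] at g3 g1
  exact ⟨a, a3, by omega, a2, by omega, by omega⟩

lemma qp_card_TE (m S : ℕ) :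
    ((Sn m).filter fun l => ∃ z, TE m S (px l) z).card ≤ S * S * (m - 1).factorial := by
  have hsub : ((Sn m).filter fun l => ∃ z, TE m S (px l) z) ⊆
      (Ioc (m - S) m).biUnion fun z =>
        (Sn m).filter fun l => ∀ v ∈ ({z} : Finset ℕ), px l v ∈ Ico (m - S) m := by
    intro l hl
    obtain ⟨hl, z, z1, z2, z3, z4⟩ := mem_filter.1 hl
    refine mem_biUnion.2 ⟨z, mem_Ioc.2 ⟨by omega, z2⟩, mem_filter.2 ⟨hl, ?_⟩⟩
    intro v hv
    rw [mem_singleton.1 hv]
    exact mem_Ico.2 ⟨by omega, px_lt hl (by omega) z2⟩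
  refine (card_le_card hsub).trans ?_
  refine (card_biUnion_le_card_mul _ _ (S * (m - 1).factorial) ?_).trans ?_
  · intro z hz
    have hz' := mem_Ioc.1 hz
    have := card_F2 1 m {z} (Ico (m - S) m)
      (by intro v hv; rw [mem_singleton.1 hv]; exact mem_Icc.2 ⟨by omega, hz'.2⟩) (card_singleton z)
    refine this.trans ?_
    rw [Nat.descFactorial_one, Nat.card_Ico]
    exact Nat.mul_le_mul_right _ (by omega)
  · rw [Nat.card_Ioc, mul_assoc]
    exact Nat.mul_le_mul_right _ (by omega)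

lemma qp_fac {n : ℕ} (hn : 3 ≤ n) : (n - 2).factorial = (n - 2) * (n - 3).factorial := by
  obtain ⟨k, rfl⟩ : ∃ k, n = k + 3 := ⟨n - 3, by omega⟩
  have e1 : k + 3 - 2 = k + 1 := by omega
  have e2 : k + 3 - 3 = k := by omega
  rw [e1, e2, Nat.factorial_succ]

lemma qp_room (h : Par q x n) (c a : ℕ) (hc : c ≤ 100000000) (ha : a < 249) :
    c * x ^ a + 2 ≤ x ^ 250 := by
  have h1 := h.pw c a 249 hc ha
  have h2 := h.pw 3 249 250 (by norm_num) (by norm_num)
  have h3 : 1 ≤ x ^ 249 := Nat.one_le_pow _ _ (by have := h.big; omega)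
  omega

lemma cnt_three (h : Par q x n) :
    x * ((Sn n).filter fun l => Three n (x ^ 17) (px l)).card ≤ (n - 2).factorial := by
  obtain ⟨S, hS⟩ : ∃ S, S = x ^ 17 := ⟨_, rfl⟩
  rw [← hS]
  obtain ⟨V, hV⟩ : ∃ V : Finset ℕ, V = (Icc 1 n).filter fun u => u ≤ S ∨ n < u + S := ⟨_, rfl⟩
  obtain ⟨T, hT⟩ : ∃ T : Finset ℕ, T = range S ∪ Ico (n - S) n := ⟨_, rfl⟩
  have cV : V.card ≤ 2 * S := by
    have : V ⊆ Icc 1 S ∪ Ioc (n - S) n := by
      intro u hu
      rw [hV] at hu
      obtain ⟨h1, h2⟩ := mem_filter.1 hu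
      have h1' := mem_Icc.1 h1
      rw [mem_union, mem_Icc, mem_Ioc]
      omega
    refine (card_le_card this).trans ((card_union_le _ _).trans ?_)
    rw [Nat.card_Icc, Nat.card_Ioc]
    omega
  have cT : T.card ≤ 2 * S := by
    rw [hT]
    refine (card_union_le _ _).trans ?_
    rw [card_range, Nat.card_Ico]
    omega
  have hsub : ((Sn n).filter fun l => Three n S (px l)) ⊆
      (powersetCard 3 V).biUnion fun J => (Sn n).filter fun l => ∀ v ∈ J, px l v ∈ T := by
    intro l hl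
    obtain ⟨hl, a, b, c, hab, hac, hbc, ha, hb, hc⟩ := mem_filter.1 hl
    have key : ∀ u, Spec n S (px l) u → u ∈ V ∧ px l u ∈ T := by
      rintro u ⟨u1, u2, u3, u4⟩
      have := px_lt hl u1 u2
      constructor
      · rw [hV]
        exact mem_filter.2 ⟨mem_Icc.2 ⟨u1, u2⟩, u3⟩
      · rw [hT, mem_union, mem_range, mem_Ico]
        omega
    have all : ∀ v ∈ ({a, b, c} : Finset ℕ), v ∈ V ∧ px l v ∈ T := by
      intro v hv
      simp only [mem_insert, mem_singleton] at hv
      rcases hv with rfl | rfl | rfl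
      exacts [key _ ha, key _ hb, key _ hc]
    refine mem_biUnion.2 ⟨{a, b, c}, mem_powersetCard.2 ⟨fun v hv => (all v hv).1, ?_⟩,
      mem_filter.2 ⟨hl, fun v hv => (all v hv).2⟩⟩
    exact card_eq_three.2 ⟨a, b, c, hab, hac, hbc, rfl⟩
  have hcard : ((Sn n).filter fun l => Three n S (px l)).card ≤
      (2 * S) ^ 3 * ((2 * S) ^ 3 * (n - 3).factorial) := by
    refine (card_le_card hsub).trans ?_
    refine (card_biUnion_le_card_mul _ _ ((2 * S) ^ 3 * (n - 3).factorial) ?_).trans ?_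
    · intro J hJ
      obtain ⟨j1, j2⟩ := mem_powersetCard.1 hJ
      have j3 : J ⊆ Icc 1 n := by
        refine j1.trans ?_
        rw [hV]
        exact filter_subset _ _
      refine (card_F2 3 n J T j3 j2).trans (Nat.mul_le_mul_right _ ?_)
      exact (Nat.descFactorial_le_pow _ _).trans (Nat.pow_le_pow_left cT 3)
    · refine Nat.mul_le_mul_right _ ?_
      rw [card_powersetCard]
      exact (Nat.choose_le_pow _ _).trans (Nat.pow_le_pow_left cV 3)
  have r1 := qp_room h 64 103 (by norm_num) (by norm_num)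
  have r2 := h.lo
  have r3 : 1 ≤ x ^ 103 := Nat.one_le_pow _ _ (by have := h.big; omega)
  rw [qp_fac (by omega)]
  calc x * ((Sn n).filter fun l => Three n S (px l)).card
      ≤ x * ((2 * S) ^ 3 * ((2 * S) ^ 3 * (n - 3).factorial)) := Nat.mul_le_mul_left _ hcard
    _ = 64 * x ^ 103 * (n - 3).factorial := by rw [hS]; ring
    _ ≤ (n - 2) * (n - 3).factorial := Nat.mul_le_mul_right _ (by omega)

/-- Second step of the count for `Eps`: delete the letter 1. -/
lemma qp_eps_two (k S N : ℕ) (hS : S + 2 ≤ k) :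
    ((Sn (k + 1)).filter fun r => (∃ z, TE (k + 1) S (px r) z) ∧
      (px r 1 < N ∨ k + 1 ≤ px r 1 + N)).card ≤ 2 * N * (S * S * (k - 1).factorial) := by
  refine (cover _ ((Sn k).filter fun l => ∃ z, TE k S (px l) z)
    (fun _ => (range N ∪ Ico (k + 1 - N) (k + 1)) ×ˢ {1}) (2 * N) ?_ ?_).trans
    (Nat.mul_le_mul_left _ (qp_card_TE k S))
  · intro r _
    rw [card_product, card_singleton, mul_one]
    refine (card_union_le _ _).trans ?_
    rw [card_range, Nat.card_Ico]
    omega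
  · intro l hl
    obtain ⟨hl, ⟨z, hz⟩, h1⟩ := mem_filter.1 hl
    obtain ⟨r, hr, e, hp, hpx, -⟩ := qp_del hl (v := 1) le_rfl (by omega)
    obtain ⟨a, -, ha⟩ := qp_TE hS le_rfl (by omega) hpx hz (by have := hz.1; omega)
    refine ⟨r, mem_filter.2 ⟨hr, a, ha⟩, (px l 1, 1), ?_, e⟩
    rw [mem_product, mem_union, mem_range, mem_Ico, mem_singleton]
    refine ⟨?_, rfl⟩
    dsimp only
    omega

lemma qp_eps (m S N : ℕ) (hS : S + 2 ≤ m) :
    ((Sn (m + 1)).filter fun l =>
      Eps (m + 1) S N (px l) fun u => life (LL u l)).card ≤ 2 * (S * (S + 1)) *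
    ((Sn m).filter fun r => (∃ z, TE m S (px r) z) ∧ (px r 1 < N ∨ m ≤ px r 1 + N)).card := by
  refine cover _ _ (fun r =>
    Ico (m + 1 - S) (m + 1) ×ˢ Icc (m + 1 - life (LL 1 r) - S) (m + 1 - life (LL 1 r)) ∪
    Ico (m + 1 - S) (m + 1) ×ˢ Icc (m + 1 - life (LL 2 r) - S) (m + 1 - life (LL 2 r))) _ ?_ ?_
  · intro r _
    refine (card_union_le _ _).trans ?_
    rw [two_mul, card_product, card_product, Nat.card_Ico, Nat.card_Icc, Nat.card_Icc]
    exact Nat.add_le_add (Nat.mul_le_mul (by omega) (by omega))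
      (Nat.mul_le_mul (by omega) (by omega))
  · intro l hl
    obtain ⟨hl, u, y, z, hu, ⟨p1, p2, p3, p4, p5, p6⟩, hz, hzy, h1⟩ := mem_filter.1 hl
    obtain ⟨r, hr, e, hp, hpx, hlife⟩ := qp_del hl (v := y) (by omega) p2
    obtain ⟨a, -, ha⟩ := qp_TE hS (by omega) p2 hpx hz hzy
    have g1 := hpx 1 le_rfl (by omega)
    rw [qp_gs_lt (show 1 < y by omega)] at g1
    have g2 := qp_gs_le (px l y) (px r 1)
    have g3 := hlife u (by omega) p1 p3
    dsimp only at p5 p6
    refine ⟨r, mem_filter.2 ⟨hr, ⟨a, ha⟩, by omega⟩, (px l y, y), ?_, e⟩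
    rw [mem_union, mem_product, mem_product, mem_Ico, mem_Icc, mem_Icc]
    dsimp only
    rcases hu with rfl | rfl
    · left
      omega
    · right
      omega

lemma cnt_eps (h : Par q x n) :
    x * ((Sn n).filter fun l =>
      Eps n (x ^ 17) (n / x ^ 70 + 1) (px l) fun u => life (LL u l)).card ≤ (n - 2).factorial := by
  have hx := h.big
  have r0 := qp_room h 8 17 (by norm_num) (by norm_num)
  have r1 := qp_room h 16 69 (by norm_num) (by norm_num)
  have r2 := h.lo
  have r3 : 1 ≤ x ^ 17 := Nat.one_le_pow _ _ (by omega)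
  have r4 : x ^ 70 * (n / x ^ 70) ≤ n := Nat.mul_div_le _ _
  obtain ⟨D, hD⟩ : ∃ D, D = n / x ^ 70 := ⟨_, rfl⟩
  rw [← hD] at r4 ⊢
  have r5 : 16 * (x ^ 69 * D) ≤ n := by
    refine le_trans ?_ r4
    rw [← mul_assoc]
    exact Nat.mul_le_mul_right _ (h.pw 16 69 70 (by norm_num) (by norm_num))
  have r6 : 32 * (x ^ 69 * D) ≤ n := by
    refine le_trans ?_ r4
    rw [← mul_assoc]
    exact Nat.mul_le_mul_right _ (h.pw 32 69 70 (by norm_num) (by norm_num))
  obtain ⟨k, rfl⟩ : ∃ k, n = k + 1 + 1 := ⟨n - 2, by omega⟩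
  have c1 := qp_eps (k + 1) (x ^ 17) (D + 1) (by omega)
  have c2 := qp_eps_two k (x ^ 17) (D + 1) (by omega)
  have c3 := c1.trans (Nat.mul_le_mul_left _ c2)
  rw [qp_fac (by omega)]
  have e1 : k + 1 + 1 - 3 = k - 1 := by omega
  rw [e1]
  refine (Nat.mul_le_mul_left _ c3).trans ?_
  calc x * (2 * (x ^ 17 * (x ^ 17 + 1)) * (2 * (D + 1) * (x ^ 17 * x ^ 17 * (k - 1).factorial)))
      ≤ x * (2 * (x ^ 17 * (2 * x ^ 17)) *
          (2 * (D + 1) * (x ^ 17 * x ^ 17 * (k - 1).factorial))) := by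
        gcongr
        omega
    _ = (8 * (x ^ 69 * D) + 8 * x ^ 69) * (k - 1).factorial := by ring
    _ ≤ (k + 1 + 1 - 2) * (k - 1).factorial := Nat.mul_le_mul_right _ (by omega)

/-- Second step of the count for `Del`: delete the letter `u`. -/
lemma qp_del_two (k S A B c : ℕ) (hS : S + 2 ≤ k) :
    ((Sn (k + 1)).filter fun r => ∃ u z, TE (k + 1) S (px r) z ∧ z ≠ u ∧ 1 < u ∧ u ≤ k + 1 ∧
      px r 1 < px r u ∧ k + 1 ≤ px r u + A ∧ u + life (LL 1 r) ≤ c + B ∧
      c ≤ u + life (LL 1 r) + (B + S + 1)).card ≤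
    A * (2 * B + S + 2) * (S * S * (k - 1).factorial) := by
  refine (cover _ ((Sn k).filter fun l => ∃ z, TE k S (px l) z)
    (fun r => Ico (k + 1 - A) (k + 1) ×ˢ
      Icc (c - life (LL 1 r) - (B + S + 1)) (c + B - life (LL 1 r))) (A * (2 * B + S + 2))
    ?_ ?_).trans (Nat.mul_le_mul_left _ (qp_card_TE k S))
  · intro r _
    rw [card_product, Nat.card_Ico, Nat.card_Icc]
    exact Nat.mul_le_mul (by omega) (by omega)
  · intro l hl
    obtain ⟨hl, u, z, hz, hzu, u1, u2, u3, u4, u5, u6⟩ := mem_filter.1 hl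
    obtain ⟨r, hr, e, hp, hpx, hlife⟩ := qp_del hl (v := u) (by omega) u2
    obtain ⟨a, -, ha⟩ := qp_TE hS (by omega) u2 hpx hz hzu
    have g3 := hlife 1 le_rfl u1 u3
    refine ⟨r, mem_filter.2 ⟨hr, a, ha⟩, (px l u, u), ?_, e⟩
    rw [mem_product, mem_Ico, mem_Icc]
    dsimp only
    omega

lemma qp_del_one (m S A B : ℕ) (hS : S + 2 ≤ m) :
    ((Sn (m + 1)).filter fun l =>
      Del (m + 1) S A B (px l) fun u => life (LL u l)).card ≤ S * (S + 1) *
    ((Sn m).filter fun r => ∃ u z, TE m S (px r) z ∧ z ≠ u ∧ 1 < u ∧ u ≤ m ∧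
      px r 1 < px r u ∧ m ≤ px r u + A ∧ u + life (LL 1 r) ≤ (m + 1) + B ∧
      m + 1 ≤ u + life (LL 1 r) + (B + S + 1)).card := by
  refine cover _ _ (fun r =>
    Ico (m + 1 - S) (m + 1) ×ˢ Icc (m + 1 - life (LL 1 r) - S) (m + 1 - life (LL 1 r))) _ ?_ ?_
  · intro r _
    rw [card_product, Nat.card_Ico, Nat.card_Icc]
    exact Nat.mul_le_mul (by omega) (by omega)
  · intro l hl
    obtain ⟨hl, y, u, z, ⟨p1, p2, p3, p4, p5, p6⟩, hz, hzy, hzu, huy, u1, u2, u3, u4, u5, u6⟩ :=
      mem_filter.1 hl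
    obtain ⟨r, hr, e, hp, hpx, hlife⟩ := qp_del hl (v := y) (by omega) p2
    obtain ⟨a, a0, ha⟩ := qp_TE hS (by omega) p2 hpx hz hzy
    obtain ⟨b, b1, b2, b3⟩ := qp_pre (m := m) (v := y) (z := u) (by omega) p2 (by omega) u2 huy
    have g1 := hpx 1 le_rfl (by omega)
    rw [qp_gs_lt p1] at g1
    have g2 := hpx b b1 b2
    rw [b3] at g2
    have g3 := hlife 1 le_rfl p1 p3
    have g4 := qp_gs_le (px l y) (px r b)
    have g5 := qp_gs_le y b
    have g6 : px r 1 < px r b := by
      rw [← (gs_mono (px l y)).lt_iff_lt, ← g1, ← g2]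
      exact u3
    have g7 : 1 < b := by
      rw [← (gs_mono y).lt_iff_lt, b3, qp_gs_lt p1]
      exact u1
    have g8 : a ≠ b := by
      rintro rfl
      exact hzu (a0.symm.trans b3)
    dsimp only at p5 p6
    refine ⟨r, mem_filter.2 ⟨hr, b, a, ha, g8, g7, b2, g6, by omega, by omega, by omega⟩,
      (px l y, y), ?_, e⟩
    rw [mem_product, mem_Ico, mem_Icc]
    dsimp only
    omega

lemma cnt_del (h : Par q x n) :
    x * ((Sn n).filter fun l =>
      Del n (x ^ 17) (x ^ 92) (x ^ 83) (px l) fun u => life (LL u l)).card ≤ (n - 2).factorial := by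
  have hx := h.big
  have r0 := qp_room h 8 17 (by norm_num) (by norm_num)
  have r1 := qp_room h 8 244 (by norm_num) (by norm_num)
  have r2 := h.lo
  have r3 : 1 ≤ x ^ 17 := Nat.one_le_pow _ _ (by omega)
  have r4 := h.pw 3 17 83 (by norm_num) (by norm_num)
  obtain ⟨k, rfl⟩ : ∃ k, n = k + 1 + 1 := ⟨n - 2, by omega⟩
  have c1 := qp_del_one (k + 1) (x ^ 17) (x ^ 92) (x ^ 83) (by omega)
  have c2 := qp_del_two k (x ^ 17) (x ^ 92) (x ^ 83) (k + 1 + 1) (by omega)
  have c3 := c1.trans (Nat.mul_le_mul_left _ c2)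
  rw [qp_fac (by omega)]
  have e1 : k + 1 + 1 - 3 = k - 1 := by omega
  rw [e1]
  refine (Nat.mul_le_mul_left _ c3).trans ?_
  calc x * (x ^ 17 * (x ^ 17 + 1) *
        (x ^ 92 * (2 * x ^ 83 + x ^ 17 + 2) * (x ^ 17 * x ^ 17 * (k - 1).factorial)))
      ≤ x * (x ^ 17 * (2 * x ^ 17) *
        (x ^ 92 * (4 * x ^ 83) * (x ^ 17 * x ^ 17 * (k - 1).factorial))) := by
        gcongr <;> omega
    _ = 8 * x ^ 244 * (k - 1).factorial := by ring
    _ ≤ (k + 1 + 1 - 2) * (k - 1).factorial := Nat.mul_le_mul_right _ (by omega)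

lemma qp_px_map {e : ℕ → ℕ} (he : Function.Injective e) (l : List ℕ) (u : ℕ) :
    px (l.map e) (e u) = px l u := by
  unfold px
  induction l with
  | nil => simp
  | cons a l ih =>
    by_cases h : a = u
    · subst h
      simp
    · rw [List.map_cons, List.idxOf_cons_ne _ (he.ne h), List.idxOf_cons_ne _ h, ih]

lemma qp_perm (k : ℕ) :
    ((List.range' 2 (k + 1) ++ [k + 4]) ++ [k + 3, 1]).Perm (List.range' 1 (k + 4)) := by
  have e : List.range' 1 (k + 4) = 1 :: (List.range' 2 (k + 1) ++ [k + 3, k + 4]) := by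
    rw [show k + 4 = (k + 1 + 1 + 1) + 1 from rfl, List.range'_succ, List.range'_concat,
      List.range'_concat]
    simp
    omega
  rw [e, List.perm_iff_count]
  intro a
  simp only [List.count_append, List.count_cons, List.count_nil]
  omega

lemma qp_card_end (k : ℕ) :
    ((Sn (k + 4)).filter fun l => px l 1 = k + 3 ∧ px l (k + 3) = k + 2).card =
      (k + 2).factorial := by
  obtain ⟨L, hL⟩ : ∃ L, L = List.range' 2 (k + 1) ++ [k + 4] := ⟨_, rfl⟩
  have hp : (L ++ [k + 3, 1]).Perm (List.range' 1 (k + 4)) := by rw [hL]; exact qp_perm k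
  have hnd : (L ++ [k + 3, 1]).Nodup := hp.nodup_iff.2 List.nodup_range'
  have hlen : L.length = k + 2 := by rw [hL]; simp
  have h1 : 1 ∉ L := by rw [hL]; simp
  have h3 : k + 3 ∉ L := by
    rw [hL]
    simp
    omega
  have himg : ((Sn (k + 4)).filter fun l => px l 1 = k + 3 ∧ px l (k + 3) = k + 2) =
      L.permutations.toFinset.image fun r => r ++ [k + 3, 1] := by
    ext l
    rw [mem_filter, mem_image, mem_Sn]
    constructor
    · rintro ⟨hl, p1, p2⟩
      have hl4 : l.length = k + 4 := by rw [hl.length_eq, List.length_range']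
      have m1 : 1 ∈ l := hl.mem_iff.2 (by simp)
      have m3 : k + 3 ∈ l := hl.mem_iff.2 (by simp; omega)
      have g1 : l[k + 3]'(by omega) = 1 := by
        have := List.getElem_idxOf (List.idxOf_lt_length_iff.2 m1)
        unfold px at p1
        simpa only [p1] using this
      have g3 : l[k + 2]'(by omega) = k + 3 := by
        have := List.getElem_idxOf (List.idxOf_lt_length_iff.2 m3)
        unfold px at p2
        simpa only [p2] using this
      have hd : l.drop (k + 2) = [k + 3, 1] := by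
        rw [List.drop_eq_getElem_cons (by omega), g3, List.drop_eq_getElem_cons (by omega), g1,
          List.drop_eq_nil_of_le (by omega)]
      have e : l.take (k + 2) ++ [k + 3, 1] = l := by rw [← hd, List.take_append_drop]
      refine ⟨l.take (k + 2), ?_, e⟩
      rw [List.mem_toFinset, List.mem_permutations]
      refine (List.perm_append_right_iff [k + 3, 1]).1 ?_
      rw [e]
      exact hl.trans hp.symm
    · rintro ⟨r, hr, rfl⟩
      rw [List.mem_toFinset, List.mem_permutations] at hr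
      have r1 : 1 ∉ r := fun h => h1 (hr.mem_iff.1 h)
      have r3 : k + 3 ∉ r := fun h => h3 (hr.mem_iff.1 h)
      have rl : r.length = k + 2 := hr.length_eq.trans hlen
      refine ⟨(hr.append_right _).trans hp, ?_, ?_⟩
      · unfold px
        rw [List.idxOf_append_of_notMem r1, rl, List.idxOf_cons_ne _ (by omega)]
        simp
      · unfold px
        rw [List.idxOf_append_of_notMem r3, rl]
        simp
  rw [himg, card_image_of_injective _ (List.append_left_injective _),
    List.toFinset_card_of_nodup (List.nodup_permutations _ (List.Nodup.of_append_left hnd)),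
    List.length_permutations, hlen]

lemma qp_swap_mem {n a b : ℕ} {l : List ℕ} (hl : l ∈ Sn n) (ha : a ∈ List.range' 1 n)
    (hb : b ∈ List.range' 1 n) : l.map (Equiv.swap a b) ∈ Sn n := by
  rw [mem_Sn] at hl ⊢
  refine (hl.map _).trans ?_
  refine (List.perm_ext_iff_of_nodup
    (List.Nodup.map (Equiv.swap a b).injective List.nodup_range') List.nodup_range').2 ?_
  intro c
  have key : ∀ d, d ∈ List.range' 1 n → Equiv.swap a b d ∈ List.range' 1 n := by
    intro d hd
    rw [Equiv.swap_apply_def]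
    split_ifs
    exacts [hb, ha, hd]
  rw [List.mem_map]
  constructor
  · rintro ⟨d, hd, rfl⟩
    exact key d hd
  · intro hc
    exact ⟨_, key c hc, Equiv.swap_apply_self _ _ _⟩

lemma cnt_main (hn : 4 ≤ n) :
    2 * ((Sn n).filter fun l => MainP n (px l)).card = (n - 2).factorial := by
  obtain ⟨k, rfl⟩ : ∃ k, n = k + 4 := ⟨n - 4, by omega⟩
  obtain ⟨A, hA⟩ : ∃ A, A = (Sn (k + 4)).filter fun l => px l 1 = k + 3 ∧ px l (k + 3) = k + 2 :=
    ⟨_, rfl⟩
  have cA : A.card = (k + 2).factorial := by rw [hA]; exact qp_card_end k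
  have m4 : k + 4 ∈ List.range' 1 (k + 4) := by simp
  have m2 : k + 2 ∈ List.range' 1 (k + 4) := by simp; omega
  have hs : ∀ l ∈ A, l.map (Equiv.swap (k + 4) (k + 2)) ∈ A ∧
      px (l.map (Equiv.swap (k + 4) (k + 2))) (k + 4) = px l (k + 2) ∧
      px (l.map (Equiv.swap (k + 4) (k + 2))) (k + 2) = px l (k + 4) := by
    intro l hl
    rw [hA] at hl ⊢
    obtain ⟨hl, p1, p2⟩ := mem_filter.1 hl
    have f := fun u => qp_px_map (Equiv.swap (k + 4) (k + 2)).injective l u
    have f1 := f 1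
    have f2 := f (k + 2)
    have f3 := f (k + 3)
    have f4 := f (k + 4)
    rw [Equiv.swap_apply_of_ne_of_ne (by omega) (by omega)] at f1 f3
    rw [Equiv.swap_apply_right] at f2
    rw [Equiv.swap_apply_left] at f4
    exact ⟨mem_filter.2 ⟨qp_swap_mem hl m4 m2, f1.trans p1, f3.trans p2⟩, f2, f4⟩
  have hne : ∀ l ∈ A, px l (k + 4) ≠ px l (k + 2) := by
    intro l hl h
    rw [hA] at hl
    have hl' := mem_Sn.1 (mem_filter.1 hl).1
    have := (List.idxOf_inj (hl'.mem_iff.2 m4)).1 h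
    omega
  have e1 : ((Sn (k + 4)).filter fun l => MainP (k + 4) (px l)) =
      A.filter fun l => px l (k + 4) < px l (k + 2) := by
    ext l
    rw [hA, mem_filter, mem_filter, mem_filter, MainP, show k + 4 - 1 = k + 3 from rfl,
      show k + 4 - 2 = k + 2 from rfl]
    constructor
    · rintro ⟨a, b, c, d⟩
      exact ⟨⟨a, by omega, by omega⟩, d⟩
    · rintro ⟨⟨a, b, c⟩, d⟩
      exact ⟨a, by omega, by omega, d⟩
  have inv : ∀ l : List ℕ,
      (l.map (Equiv.swap (k + 4) (k + 2))).map (Equiv.swap (k + 4) (k + 2)) = l := by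
    intro l
    rw [List.map_map]
    simp [Function.comp_def]
  have e2 : (A.filter fun l => px l (k + 4) < px l (k + 2)).card =
      (A.filter fun l => ¬px l (k + 4) < px l (k + 2)).card := by
    refine card_nbij' (fun l => l.map (Equiv.swap (k + 4) (k + 2)))
      (fun l => l.map (Equiv.swap (k + 4) (k + 2))) ?_ ?_ (fun l _ => inv l) (fun l _ => inv l)
    · intro l hl
      obtain ⟨a, b⟩ := mem_filter.1 (mem_coe.1 hl)
      obtain ⟨c, d, e⟩ := hs l a
      exact mem_coe.2 (mem_filter.2 ⟨c, by rw [d, e]; omega⟩)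
    · intro l hl
      obtain ⟨a, b⟩ := mem_filter.1 (mem_coe.1 hl)
      obtain ⟨c, d, e⟩ := hs l a
      have := hne l a
      exact mem_coe.2 (mem_filter.2 ⟨c, by rw [d, e]; omega⟩)
  have e3 := card_filter_add_card_filter_not (s := A) fun l => px l (k + 4) < px l (k + 2)
  rw [e1, show k + 4 - 2 = k + 2 from rfl]
  omega

end Pool.Agent.StackSort
end

-- part Pool.Agent.P.MP_f1060b_co.QFinal
section

namespace Pool.Agent.StackSort

open Finset

lemma Dyn.main {n k : ℕ} {p v : ℕ → ℕ → ℕ} {P w : ℕ → ℕ} (D : Dyn n k p v P w) (hn : 4 ≤ n)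
    (h : MainP n (p 0)) : FF k P w k = (n - 1) / (n - 2) ∧
      ∀ i < n, i = 0 ∨ (∃ t < k, i + 1 = P t) ∨ ∀ t < k, v t i = i + 1 := by
  obtain ⟨h1, h2, h3⟩ := h
  have k0 : 0 < k := by
    by_contra hc
    have := D.fin 1 le_rfl (by omega)
    rw [show k = 0 by omega] at this
    omega
  have W0 := D.walk 0 k0
  have p0 : P 0 = n := by
    by_contra hc
    have := D.fix 0 k0 n (by omega) le_rfl
    have := D.inj (t := 0) (a := n) (b := 1) (by omega) le_rfl le_rfl (by omega) (by omega)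
    omega
  have w0 : w 0 = 1 := D.inj (t := 0) W0.1 (by omega) le_rfl (by omega) (by omega)
  have lo : ∀ a, 2 ≤ a → a ≤ n → a ≠ n - 1 → p 0 a < n - 2 := fun a a1 a2 a3 => by
    have := D.lt 0 a (by omega) a2
    have := D.tri 0 (a := a) (b := 1) (by omega) a2 le_rfl (by omega) (by omega)
    have := D.tri 0 (a := a) (b := n - 1) (by omega) a2 (by omega) (by omega) a3
    omega
  have inl : ∀ a, 2 ≤ a → a + 2 ≤ n → p 1 a < p 1 1 := fun a a1 a2 =>
    (D.rule 0 a 1 le_rfl a1 (by omega)).2 ⟨n - 1, by omega, by omega,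
      by have := lo a a1 (by omega) (by omega); omega, by omega⟩
  have i2 := inl (n - 2) (by omega) (by omega)
  have k1 : 1 < k := by
    by_contra hc
    have := D.fin 1 le_rfl (by omega)
    rw [show k = 1 by omega] at this
    omega
  have W1 := D.walk 1 k1
  have d0 : P 1 < P 0 := D.dec 0 k1
  have a1 : p 1 1 < p 1 (n - 1) := by
    rcases D.tri 1 (a := 1) (b := n - 1) le_rfl (by omega) (by omega) (by omega) (by omega)
      with e | e
    · exact e
    · obtain ⟨c, -, -, _, _⟩ := (D.rule 0 (n - 1) 1 le_rfl (by omega) (by omega)).1 e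
      omega
  have w1 : w 1 = 1 := by
    by_contra hc
    have := D.last (a := 1) k1 le_rfl (by omega) (Ne.symm hc)
    have := inl (w 1) (by omega) (by omega)
    omega
  have p1 : P 1 = n - 2 := by
    have := D.le_P (a := n - 2) k1 (by omega) le_rfl (by omega) i2
    by_contra hc
    have := D.last (a := n - 1) k1 (by omega) (by omega) (by omega)
    rw [w1] at this
    omega
  have sg : el n p 1 (w 1) ≤ el n p (1 + 1) (w 1) + 1 := by
    rw [w1]
    refine D.sig_of_last le_rfl (by omega) i2 fun a b1 b2 b3 b4 => ?_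
    have b5 := D.le_P k1 b2 le_rfl (by omega) b3
    refine ⟨by omega, ?_⟩
    rcases D.tri 1 (a := a) (b := n - 2) (by omega) b2 (by omega) (by omega) b4 with e | e
    · exact e
    · obtain ⟨c, c1, c2, c3, c4⟩ := (D.rule 0 (n - 2) a (by omega) (by omega) (by omega)).1 e
      have := lo a b1 b2 (by omega)
      rcases (show c = n - 1 ∨ c = n by omega) with rfl | rfl <;> omega
  have run := fun m hm => D.crun k1 sg m hm
  rw [w1, p1] at run
  have hk : k = n - 3 + 1 := by
    have e := run (n - 4) (by omega)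
    by_contra hc
    have := D.dec (1 + (n - 4)) (by omega)
    have := D.walk (1 + (n - 4) + 1) (by omega)
    omega
  refine ⟨?_, fun i hi => ?_⟩
  · rw [FF]
    conv_lhs => rw [hk, prod_range_succ']
    rw [prod_eq_one, one_mul, p0, w0, Nat.sub_zero, show n - 3 + 1 = n - 2 by omega,
      Nat.cast_sub (by omega), Nat.cast_sub (by omega)]
    · norm_num
    · intro m hm
      have hm := mem_range.1 hm
      have e := run m (by omega)
      rw [add_comm 1 m] at e
      rw [show P (m + 1) - w (m + 1) = n - 3 + 1 - (m + 1) by omega]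
      exact div_self (Nat.cast_ne_zero.2 (by omega))
  · by_cases e0 : i = 0
    · exact Or.inl e0
    by_cases e1 : i = n - 1
    · exact Or.inr (Or.inl ⟨0, k0, by omega⟩)
    by_cases e2 : i = n - 2
    · refine Or.inr (Or.inr fun t ht => ?_)
      have : p t (n - 1) = i := by
        rcases Nat.eq_zero_or_pos t with rfl | t1
        · omega
        · have := D.P_le (s := 1) t1 ht
          have := D.fix t ht (n - 1) (by omega) (by omega)
          omega
      rw [← this, D.vp t _ (by omega) (by omega)]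
      omega
    · have e := run (n - 3 - i) (by omega)
      exact Or.inr (Or.inl ⟨_, e.1, by omega⟩)

lemma main_vol {n : ℕ} {l : List ℕ} (hn : 4 ≤ n) (hl : l ∈ Sn n) (h : MainP n (px l)) :
    vol n l = (n - 1) / (n - 2) := by
  obtain ⟨P, w, D⟩ := exists_dyn hl
  obtain ⟨h1, h2⟩ := D.main hn h
  rw [vol_eq_FF hl D (by omega) h2, h1]

lemma main_iff {n : ℕ} {l : List ℕ} (hn : 4 ≤ n) (hl : l ∈ Sn n) :
    (∃ L M, l = L ++ n :: M ++ [n - 1, 1] ∧ n - 2 ∈ M) ↔ MainP n (px l) := by
  have nd := Sn_nodup hl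
  have len := Sn_length hl
  constructor
  · rintro ⟨L, M, rfl, hM⟩
    have s1 : [n, n - 2].Sublist (L ++ n :: M ++ [n - 1, 1]) :=
      (((List.singleton_sublist.2 hM).cons_cons n).trans (List.sublist_append_right _ _)).trans
        (List.sublist_append_left _ _)
    have d := List.nodup_append.1 nd
    have e1 : (n - 1) ∉ L ++ n :: M := fun h => d.2.2 _ h _ (by simp) rfl
    have e2 : 1 ∉ L ++ n :: M := fun h => d.2.2 _ h _ (by simp) rfl
    rw [List.length_append] at len
    refine ⟨?_, ?_, ((pair_sub nd).1 s1).2⟩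
    · rw [px, List.idxOf_append, if_neg e2, List.idxOf_cons_ne _ (by omega), List.idxOf_cons_self]
      simp only [List.length_cons, List.length_nil] at len
      omega
    · rw [px, List.idxOf_append, if_neg e1, List.idxOf_cons_self]
      simp only [List.length_cons, List.length_nil] at len
      omega
  · rintro ⟨h1, h2, h3⟩
    obtain ⟨A, a, rfl⟩ := (List.eq_nil_or_concat' l).resolve_left (by rintro rfl; simp at len; omega)
    obtain ⟨B, b, rfl⟩ := (List.eq_nil_or_concat' A).resolve_left (by rintro rfl; simp at len; omega)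
    simp only [List.length_append, List.length_singleton] at len
    have ea : a = 1 := by
      have := (px_getD hl (by omega : n - 1 < n)).2.2
      rw [List.getD_append_right _ _ _ _ (by simp; omega)] at this
      simp only [List.length_append, List.length_singleton, show n - 1 - (B.length + 1) = 0 by omega,
        List.getD_cons_zero] at this
      exact (List.idxOf_inj (by simp)).1 (this.trans (by unfold px at h1; omega))
    have eb : b = n - 1 := by
      have := (px_getD hl (by omega : n - 2 < n)).2.2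
      rw [List.getD_append _ _ _ _ (by simp; omega), List.getD_append_right _ _ _ _ (by omega)] at this
      simp only [show n - 2 - B.length = 0 by omega, List.getD_cons_zero] at this
      exact (List.idxOf_inj (by simp)).1 (this.trans (by unfold px at h2; omega))
    subst ea eb
    have s1 := (pair_sub nd).2 ⟨(Sn_mem hl).2 ⟨by omega, by omega⟩, h3⟩
    have m1 : n ∈ B := by
      have := s1.subset (List.mem_cons_self)
      simp only [List.mem_append, List.mem_singleton] at this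
      rcases this with (e | e) | e
      · exact e
      · omega
      · omega
    obtain ⟨L, M, rfl⟩ := List.append_of_mem m1
    refine ⟨L, M, by simp, ?_⟩
    have m2 := s1.subset (a := n - 2) (by simp)
    have hL : n ∉ L := fun e => (List.nodup_cons.1 (List.nodup_middle.1
      (List.nodup_append.1 (List.nodup_append.1 nd).1).1)).1 (List.mem_append_left _ e)
    simp only [List.mem_append, List.mem_cons, List.not_mem_nil, or_false] at m2
    rcases m2 with ((e | e | e) | e) | e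
    · rw [List.append_assoc, List.append_assoc, List.cons_append, px, px, (idx_split hL).1] at h3
      exact absurd (((idx_split hL).2 _).2.1 e) h3.not_gt
    · omega
    · exact e
    · omega
    · omega

open Classical in
lemma count_rest {q x n : ℕ} (h : Par q x n) :
    x * ((Sn n).filter fun l => 1 < vol n l ∧ ¬MainP n (px l)).card ≤ 7 * (n - 2).factorial := by
  have c1 := bad1 h
  have c2 := bad2 h
  have c3 := bad3 h
  have c4 := bad4 h
  have c5 := cnt_three h
  have c6 := cnt_eps h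
  have c7 := cnt_del h
  refine (Nat.mul_le_mul_left x ((card_le_card fun l hl => ?_).trans
    ((card_union_le _ _).trans (Nat.add_le_add_left ((card_union_le _ _).trans
    (Nat.add_le_add_left ((card_union_le _ _).trans (Nat.add_le_add_left ((card_union_le _ _).trans
    (Nat.add_le_add_left ((card_union_le _ _).trans (Nat.add_le_add_left (card_union_le _ _)
      _)) _)) _)) _)) _)))).trans (le_trans (le_of_eq (by simp only [mul_add]; rfl))
      ((add_le_add c1 (add_le_add c2 (add_le_add c3 (add_le_add c4 (add_le_add c5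
        (add_le_add c6 c7)))))).trans (by omega)))
  obtain ⟨l1, l2, l3⟩ := mem_filter.1 hl
  simp only [mem_union, mem_filter, l1, true_and]
  by_contra hc
  simp only [not_or, not_not] at hc
  obtain ⟨g1, g2, g3, g4, g5, g6, g7⟩ := hc
  obtain ⟨P, w, D⟩ := exists_dyn l1
  rcases D.outcome h g1 g2 g3 g4 (fun u => life (LL u l)) (fun u t u1 u2 => el_life l1 u1 u2 t)
    (l2.trans_le (vol_le_FF l1 D)) (fun e => LP_of_vol l1 D (by linarith)) with e | e | e | e
  · exact l3 e
  · exact g5 e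
  · exact g6 e
  · exact g7 e

lemma exists_par : ∀ᶠ n : ℕ in Filter.atTop, ∃ q x, Par q x n := by
  have h : ∀ m, ∀ᶠ n : ℕ in Filter.atTop, m ≤ Nat.log 2 n := fun m =>
    (Filter.eventually_ge_atTop (2 ^ m)).mono fun n hn => Nat.le_log_of_pow_le (by norm_num) hn
  filter_upwards [h 2500000, Filter.eventually_gt_atTop 0] with n h1 h2
  refine ⟨Nat.log 2 n / 250, _, by omega, rfl, ?_, ?_⟩
  · rw [← pow_mul]
    exact (Nat.pow_le_pow_right (by norm_num) (Nat.div_mul_le_self _ _)).trans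
      (Nat.pow_log_le_self 2 h2.ne')
  · rw [← pow_mul]
    exact (Nat.lt_pow_succ_log_self (by norm_num) n).le.trans
      (Nat.pow_le_pow_right (by norm_num) (by omega))

end Pool.Agent.StackSort
end
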