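import Mathlib

namespace Pool.Agent.StackSort

lemma a_step (m : ℕ) (hm : 1 ≤ m) :
    ∏ i ∈ Finset.range (m + 2), (((m + 2 : ℕ) : ℝ) + 1 + 2 * i) / ((m + 2 : ℕ) + i) =
      (∏ i ∈ Finset.range m, ((m : ℝ) + 1 + 2 * i) / (m + i)) *
        (3 * (3 * m + 5) * (3 * m + 1) / (4 * (2 * m + 3) * (2 * m + 1))) := by
  have hm' : (0 : ℝ) < m := by exact_mod_cast hm
  have e1 : (∏ i ∈ Finset.range (m + 2), (((m + 2 : ℕ) : ℝ) + 1 + 2 * i)) * (m + 1) =
      (∏ i ∈ Finset.range m, ((m : ℝ) + 1 + 2 * i)) * (3 * m + 1) * (3 * m + 3) * (3 * m + 5) := by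
    have h1 := Finset.prod_range_succ' (fun i : ℕ => (m : ℝ) + 1 + 2 * i) (m + 2)
    rw [Finset.prod_range_succ, Finset.prod_range_succ, Finset.prod_range_succ] at h1
    have h2 : ∏ i ∈ Finset.range (m + 2), (((m + 2 : ℕ) : ℝ) + 1 + 2 * i) =
        ∏ i ∈ Finset.range (m + 2), ((m : ℝ) + 1 + 2 * (i + 1 : ℕ)) :=
      Finset.prod_congr rfl fun i _ => by push_cast; ring
    rw [h2]
    push_cast at h1 ⊢
    linear_combination -h1
  have e2 : (∏ i ∈ Finset.range (m + 2), (((m + 2 : ℕ) : ℝ) + i)) * (m + 1) * m =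
      (∏ i ∈ Finset.range m, ((m : ℝ) + i)) * (2 * m) * (2 * m + 1) * (2 * m + 2) * (2 * m + 3) := by
    have h1 := Finset.prod_range_succ' (fun i : ℕ => (m : ℝ) + i) (m + 3)
    rw [Finset.prod_range_succ' _ (m + 2), Finset.prod_range_succ, Finset.prod_range_succ,
      Finset.prod_range_succ, Finset.prod_range_succ] at h1
    have h2 : ∏ i ∈ Finset.range (m + 2), (((m + 2 : ℕ) : ℝ) + i) =
        ∏ i ∈ Finset.range (m + 2), ((m : ℝ) + (i + 1 + 1 : ℕ)) :=
      Finset.prod_congr rfl fun i _ => by push_cast; ring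
    rw [h2]
    push_cast at h1 ⊢
    linear_combination -h1
  have p1 : 0 < ∏ i ∈ Finset.range m, ((m : ℝ) + i) := Finset.prod_pos fun i _ => by positivity
  have p2 : 0 < ∏ i ∈ Finset.range (m + 2), (((m + 2 : ℕ) : ℝ) + i) :=
    Finset.prod_pos fun i _ => by positivity
  rw [Finset.prod_div_distrib, Finset.prod_div_distrib]
  generalize (∏ i ∈ Finset.range (m + 2), (((m + 2 : ℕ) : ℝ) + 1 + 2 * i)) = A at *
  generalize (∏ i ∈ Finset.range (m + 2), (((m + 2 : ℕ) : ℝ) + i)) = B at *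
  generalize (∏ i ∈ Finset.range m, ((m : ℝ) + 1 + 2 * i)) = C at *
  generalize (∏ i ∈ Finset.range m, ((m : ℝ) + i)) = D at *
  have hA : A = C * (3 * m + 1) * (3 * m + 3) * (3 * m + 5) / (m + 1) := by
    rw [eq_div_iff (by positivity)]; exact e1
  have hB : B = D * (2 * m) * (2 * m + 1) * (2 * m + 2) * (2 * m + 3) / ((m + 1) * m) := by
    rw [eq_div_iff (by positivity), ← mul_assoc]; exact e2
  rw [hA, hB]
  field_simp
  ring

lemma a_lower (m : ℕ) : (3 * √3 / 4) ^ (m + 1) * (1 + 1 / (4 * ((m + 1 : ℕ) : ℝ))) ≤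
    ∏ i ∈ Finset.range (m + 1), (((m + 1 : ℕ) : ℝ) + 1 + 2 * i) / ((m + 1 : ℕ) + i) := by
  have h3 : (√3 : ℝ) ^ 2 = 3 := Real.sq_sqrt (by norm_num)
  have hc : (3 * √3 / 4 : ℝ) ^ 2 = 27 / 16 := by rw [div_pow, mul_pow, h3]; norm_num
  induction m using Nat.twoStepInduction with
  | zero =>
    have : (√3 : ℝ) ≤ 2 := by rw [Real.sqrt_le_left (by norm_num)]; norm_num
    norm_num
    linarith
  | one => rw [hc]; norm_num [Finset.prod_range_succ]
  | more m ih _ =>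
    rw [show m + 2 + 1 = m + 1 + 2 by ring, a_step (m + 1) (by omega), pow_add, hc]
    refine le_trans ?_ (mul_le_mul_of_nonneg_right ih (by positivity))
    rw [mul_assoc, mul_assoc]
    refine mul_le_mul_of_nonneg_left ?_ (by positivity)
    have hm : (0 : ℝ) ≤ m := Nat.cast_nonneg m
    push_cast
    rw [← sub_nonneg]
    field_simp
    ring_nf
    positivity

end Pool.Agent.StackSort
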